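import Pool.Agent.T9h51.PE.DivC

/-!
# The integers near almost all members of a family of nearly minimal energy are not divisible by exceptional integers,
# at all scales
-/

set_option autoImplicit false

namespace Pool.Agent.T9h51.PE

open Finset
open Pool.Agent.TH212.EH (En)

open Classical in
/-- **No exceptional divisors at all scales.** -/
theorem no_divisors (h B C U W c : ℕ) (hh : 1 ≤ h) : ∃ T : ℕ, ∀ t₀ : ℕ, ∃ N₀ : ℕ, ∀ D : ℕ → Finset ℕ,
    (∀ t : ℕ, t₀ ≤ t → ((D t).card : ℝ) ≤ ((t : ℝ) * Real.log 2) ^ c ∧ ∀ d ∈ D t, ((t : ℝ) * Real.log 2) ^ T < d) →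
    ∀ N : ℕ, N₀ ≤ N → ∀ (ι : Type) [Fintype ι] (v : ι → ℤ), (∀ i, |v i| ≤ B * N) →
    (En h v : ℝ) * N ≤ Real.log N ^ C * (Fintype.card ι : ℝ) ^ (2 * h) →
    ((univ.filter (fun i => ∃ q : ℕ, 1 ≤ q ∧ |(q : ℝ) - v i| ≤ Real.log N ^ W ∧ ∃ t : ℕ, N ≤ 2 ^ t ∧ ∃ d ∈ D t, d ∣ q)).card : ℝ) ≤
      Fintype.card ι / Real.log N ^ U := by
  obtain ⟨Z, hZ⟩ : ∃ Z, Z = c + (U + W + 4) := ⟨_, rfl⟩
  obtain ⟨T, hT⟩ : ∃ T, T = C + 1 + Z * (2 * h) := ⟨_, rfl⟩
  refine ⟨T, fun t₀ => ?_⟩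
  obtain ⟨N₃, hlog⟩ := Pool.Agent.H373R2.T7.ev_L' ((2 * h + 1) * (B + 1) + 8)
  obtain ⟨N₄, hpow⟩ := Pool.Agent.H373R2.T7.ev_log' W 1
  obtain ⟨P₀, hP₀⟩ : ∃ P₀ : ℕ, P₀ = 2 ^ t₀ := ⟨_, rfl⟩
  refine ⟨P₀ + N₃ + N₄ + 16, fun D hD N hN ι _ v hv hE => ?_⟩
  rcases isEmpty_or_nonempty ι with hem | hne
  · have e1 : (univ.filter (fun i : ι => ∃ q : ℕ, 1 ≤ q ∧ |(q : ℝ) - v i| ≤ Real.log N ^ W ∧
        ∃ t : ℕ, N ≤ 2 ^ t ∧ ∃ d ∈ D t, d ∣ q)).card = 0 := by
      rw [card_eq_zero]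
      exact eq_empty_of_isEmpty _
    rw [e1, Nat.cast_zero]
    exact div_nonneg (Nat.cast_nonneg _) (pow_nonneg (Real.log_natCast_nonneg _) _)
  obtain ⟨L, hL⟩ : ∃ L, L = Real.log (N : ℝ) := ⟨_, rfl⟩
  have hLbig := hlog N (by omega)
  have hWs := hpow N (by omega)
  rw [one_mul] at hWs
  have hN1 : 1 ≤ N := by omega
  have hNr : (16 : ℝ) ≤ N := by exact_mod_cast (by omega : 16 ≤ N)
  have hLW : L ^ W ≤ N := by
    rw [hL]
    refine hWs.trans ?_
    rw [Real.sqrt_le_left (by linarith)]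
    nlinarith
  rw [← hL] at hLbig hE ⊢
  have hhB : (0 : ℝ) ≤ (2 * h + 1) * (B + 1) := by positivity
  have hL8 : 8 ≤ L := by linarith
  have hL1 : 1 ≤ L := by linarith
  have hL0 : 0 < L := by linarith
  have hcr : (0 : ℝ) < Fintype.card ι := by exact_mod_cast Fintype.card_pos
  obtain ⟨R, hR⟩ : ∃ R, R = (B + 1) * N := ⟨_, rfl⟩
  obtain ⟨Ss, hSs⟩ : ∃ Ss : Finset ℤ, Ss = Icc (-⌊L ^ W⌋) ⌊L ^ W⌋ := ⟨_, rfl⟩
  have hLW1 : 1 ≤ L ^ W := one_le_pow₀ hL1
  have hScard : (Ss.card : ℝ) ≤ L ^ (W + 1) := by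
    have e1 : (0 : ℤ) ≤ ⌊L ^ W⌋ := Int.floor_nonneg.2 (by positivity)
    have e2 : (Ss.card : ℤ) = 2 * ⌊L ^ W⌋ + 1 := by
      rw [hSs, Int.card_Icc, Int.toNat_of_nonneg (by omega)]
      ring
    have e3 : (Ss.card : ℝ) = 2 * (⌊L ^ W⌋ : ℝ) + 1 := by exact_mod_cast e2
    have e4 := Int.floor_le (L ^ W)
    rw [e3, pow_succ]
    nlinarith
  obtain ⟨Ts, hTs⟩ : ∃ Ts : Finset ℕ, Ts = (Ioo 0 (2 * R)).filter (fun t => N ≤ 2 ^ t) := ⟨_, rfl⟩
  have hlog2 := Real.log_two_gt_d9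
  have hτ : ∀ t : ℕ, N ≤ 2 ^ t → L ≤ (t : ℝ) * Real.log 2 := by
    intro t ht
    have h1 : (N : ℝ) ≤ 2 ^ t := by exact_mod_cast ht
    have h2 := Real.log_le_log (by linarith) h1
    rw [Real.log_pow] at h2
    rw [hL]
    exact h2
  have ht₀ : ∀ t : ℕ, N ≤ 2 ^ t → t₀ ≤ t := by
    intro t ht
    have h1 : 2 ^ t₀ ≤ 2 ^ t := by
      rw [← hP₀]
      exact le_trans (by omega) ht
    exact (Nat.pow_le_pow_iff_right (by norm_num)).1 h1
  -- the members divisible by one of the integers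
  have hone : ∀ s ∈ Ss, ∀ t ∈ Ts, ∀ d ∈ (D t).filter (fun d => d ≤ R),
      ((univ.filter (fun i => (d : ℤ) ∣ v i + s)).card : ℝ) ≤ Fintype.card ι / ((t : ℝ) * Real.log 2) ^ Z := by
    intro s hs t ht d hd
    rw [hSs, mem_Icc] at hs
    rw [hTs, mem_filter] at ht
    rw [mem_filter] at hd
    have hL_t := hτ t ht.2
    obtain ⟨τ, hτd⟩ : ∃ τ, τ = (t : ℝ) * Real.log 2 := ⟨_, rfl⟩
    rw [← hτd] at hL_t ⊢
    have hdT := (hD t (ht₀ t ht.2)).2 d hd.1
    rw [← hτd] at hdT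
    have hτ0 : 0 < τ := by linarith
    have hd0 : (0 : ℝ) < d := lt_trans (by positivity) hdT
    have hd1 : 1 ≤ d := by exact_mod_cast hd0
    have hs' : |s| ≤ (N : ℤ) := by
      have e1 : |s| ≤ ⌊L ^ W⌋ := abs_le.2 ⟨by omega, hs.2⟩
      have e2 : ⌊L ^ W⌋ ≤ (N : ℤ) := by
        have e3 : (⌊L ^ W⌋ : ℝ) ≤ N := (Int.floor_le _).trans hLW
        exact_mod_cast e3
      omega
    have hvs : ∀ i, |v i + s| ≤ (R : ℤ) := by
      intro i
      have e1 := abs_add_le (v i) s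
      have e2 := hv i
      rw [hR]
      push_cast
      linarith
    have key := div_count h (fun i => v i + s) R d hd1 hd.2 hvs (univ.filter (fun i => (d : ℤ) ∣ v i + s))
      (fun i hi => (mem_filter.1 hi).2)
    rw [Pool.Agent.T9h51.ME.En_shift] at key
    obtain ⟨m, hm⟩ : ∃ m : ℝ, m = ((univ.filter (fun i => (d : ℤ) ∣ v i + s)).card : ℝ) := ⟨_, rfl⟩
    rw [← hm] at key ⊢
    have hm0 : 0 ≤ m := by rw [hm]; exact Nat.cast_nonneg _
    have h1 : m ^ (2 * h) * d ≤ τ ^ (C + 1) * (Fintype.card ι : ℝ) ^ (2 * h) := by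
      calc m ^ (2 * h) * d ≤ (((2 * h + 1) * R : ℕ) : ℝ) * En h v := key
        _ = ((2 * h + 1) * (B + 1)) * (En h v * N) := by
            rw [hR]
            push_cast
            ring
        _ ≤ L * (L ^ C * (Fintype.card ι : ℝ) ^ (2 * h)) := by
            apply mul_le_mul _ hE (by positivity) hL0.le
            linarith
        _ = L ^ (C + 1) * (Fintype.card ι : ℝ) ^ (2 * h) := by ring
        _ ≤ _ := mul_le_mul_of_nonneg_right (pow_le_pow_left₀ hL0.le hL_t _) (by positivity)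
    have h2 : m ^ (2 * h) * τ ^ T ≤ τ ^ (C + 1) * (Fintype.card ι : ℝ) ^ (2 * h) :=
      le_trans (mul_le_mul_of_nonneg_left hdT.le (by positivity)) h1
    rw [hT, pow_add] at h2
    have h3 : (m * τ ^ Z) ^ (2 * h) ≤ (Fintype.card ι : ℝ) ^ (2 * h) := by
      have h4 : τ ^ (C + 1) * (m * τ ^ Z) ^ (2 * h) ≤ τ ^ (C + 1) * (Fintype.card ι : ℝ) ^ (2 * h) := by
        calc τ ^ (C + 1) * (m * τ ^ Z) ^ (2 * h) = m ^ (2 * h) * (τ ^ (C + 1) * τ ^ (Z * (2 * h))) := by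
              rw [mul_pow, ← pow_mul]
              ring
          _ ≤ _ := h2
      exact le_of_mul_le_mul_left h4 (by positivity)
    rw [le_div_iff₀ (by positivity)]
    exact (pow_le_pow_iff_left₀ (by positivity) hcr.le (by omega)).1 h3
  have hsub : univ.filter (fun i => ∃ q : ℕ, 1 ≤ q ∧ |(q : ℝ) - v i| ≤ L ^ W ∧ ∃ t : ℕ, N ≤ 2 ^ t ∧ ∃ d ∈ D t, d ∣ q) ⊆
      Ss.biUnion (fun s => Ts.biUnion (fun t => ((D t).filter (fun d => d ≤ R)).biUnion
        (fun d => univ.filter (fun i => (d : ℤ) ∣ v i + s)))) := by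
    intro i hi
    rw [mem_filter] at hi
    obtain ⟨_, q, hq1, hq2, t, ht, d, hd, hdq⟩ := hi
    have hs : (q : ℤ) - v i ∈ Ss := by
      rw [hSs, mem_Icc]
      have e1 := abs_le.1 hq2
      constructor
      · have e2 : (-((q : ℤ) - v i) : ℤ) ≤ ⌊L ^ W⌋ := by
          apply Int.le_floor.2
          push_cast
          linarith [e1.1]
        omega
      · apply Int.le_floor.2
        push_cast
        linarith [e1.2]
    have hqR : q ≤ R := by
      have e1 := (abs_le.1 hq2).2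
      have e2 : (v i : ℝ) ≤ B * N := by
        have := (le_abs_self (v i)).trans (hv i)
        exact_mod_cast this
      have e3 : (q : ℝ) ≤ R := by
        rw [hR]
        push_cast
        linarith
      exact_mod_cast e3
    have hdR : d ≤ R := (Nat.le_of_dvd hq1 hdq).trans hqR
    have htT : t ∈ Ts := by
      rw [hTs, mem_filter, mem_Ioo]
      refine ⟨⟨?_, ?_⟩, ht⟩
      · rcases Nat.eq_zero_or_pos t with rfl | h0
        · simp at ht
          omega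
        · exact h0
      · have e1 := (hD t (ht₀ t ht)).2 d hd
        have e2 := hτ t ht
        have e3 : (t : ℝ) * Real.log 2 ≤ ((t : ℝ) * Real.log 2) ^ T := by
          apply le_self_pow₀ (by linarith)
          rw [hT]
          omega
        have e4 : (d : ℝ) ≤ R := by exact_mod_cast hdR
        have e5 : (0 : ℝ) ≤ t := Nat.cast_nonneg _
        have e6 : (t : ℝ) < 2 * R := by nlinarith
        exact_mod_cast e6
    rw [mem_biUnion]
    refine ⟨(q : ℤ) - v i, hs, ?_⟩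
    rw [mem_biUnion]
    refine ⟨t, htT, ?_⟩
    rw [mem_biUnion]
    refine ⟨d, mem_filter.2 ⟨hd, hdR⟩, ?_⟩
    rw [mem_filter]
    refine ⟨mem_univ _, ?_⟩
    have e : v i + ((q : ℤ) - v i) = q := by ring
    rw [e]
    exact_mod_cast hdq
  have hfin : ((univ.filter (fun i => ∃ q : ℕ, 1 ≤ q ∧ |(q : ℝ) - v i| ≤ L ^ W ∧ ∃ t : ℕ, N ≤ 2 ^ t ∧
      ∃ d ∈ D t, d ∣ q)).card : ℝ) ≤ ∑ s ∈ Ss, ∑ t ∈ Ts, ∑ d ∈ (D t).filter (fun d => d ≤ R),
        ((univ.filter (fun i => (d : ℤ) ∣ v i + s)).card : ℝ) := by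
    refine le_trans (Nat.cast_le.2 ((card_le_card hsub).trans card_biUnion_le)) ?_
    rw [Nat.cast_sum]
    apply sum_le_sum
    intro s _
    refine le_trans (Nat.cast_le.2 card_biUnion_le) ?_
    rw [Nat.cast_sum]
    apply sum_le_sum
    intro t _
    refine le_trans (Nat.cast_le.2 card_biUnion_le) ?_
    rw [Nat.cast_sum]
  have hscale : ∀ s ∈ Ss, ∀ t ∈ Ts, ∑ d ∈ (D t).filter (fun d => d ≤ R),
      ((univ.filter (fun i => (d : ℤ) ∣ v i + s)).card : ℝ) ≤ Fintype.card ι / L ^ (U + W + 2) * (4 * ((t : ℝ) ^ 2)⁻¹) := by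
    intro s hs t ht
    have ht' := ht
    rw [hTs, mem_filter, mem_Ioo] at ht'
    refine (sum_le_card_nsmul _ _ _ (hone s hs t ht)).trans ?_
    rw [nsmul_eq_mul]
    have hL_t := hτ t ht'.2
    have hc := (hD t (ht₀ t ht'.2)).1
    have htr : (1 : ℝ) ≤ t := by exact_mod_cast ht'.1.1
    have hhalf : (t : ℝ) / 2 ≤ (t : ℝ) * Real.log 2 := by nlinarith
    obtain ⟨τ, hτd⟩ : ∃ τ, τ = (t : ℝ) * Real.log 2 := ⟨_, rfl⟩
    rw [← hτd] at hL_t hc hhalf ⊢
    have hτ0 : 0 < τ := by linarith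
    have h1 : (((D t).filter (fun d => d ≤ R)).card : ℝ) ≤ τ ^ c :=
      le_trans (by exact_mod_cast card_filter_le _ _) hc
    calc (((D t).filter (fun d => d ≤ R)).card : ℝ) * (Fintype.card ι / τ ^ Z) ≤ τ ^ c * (Fintype.card ι / τ ^ Z) :=
          mul_le_mul_of_nonneg_right h1 (by positivity)
      _ = Fintype.card ι / (τ ^ (U + W + 2) * τ ^ 2) := by
          rw [hZ, ← pow_add, show c + (U + W + 4) = c + (U + W + 2 + 2) by ring, pow_add τ c]
          field_simp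
      _ ≤ Fintype.card ι / (L ^ (U + W + 2) * ((t : ℝ) / 2) ^ 2) := by
          apply div_le_div_of_nonneg_left hcr.le (by positivity)
          apply mul_le_mul (pow_le_pow_left₀ hL0.le hL_t _) (pow_le_pow_left₀ (by positivity) hhalf _) (by positivity) (by positivity)
      _ = _ := by
          field_simp
          ring
  have hsq : ∑ t ∈ Ts, ((t : ℝ) ^ 2)⁻¹ ≤ 2 := by
    have h1 := sum_Ioo_inv_sq_le (α := ℝ) 0 (2 * R)
    simp only [Nat.cast_zero, zero_add, div_one] at h1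
    refine le_trans ?_ h1
    rw [hTs]
    exact sum_le_sum_of_subset_of_nonneg (filter_subset _ _) (fun _ _ _ => by positivity)
  calc ((univ.filter (fun i => ∃ q : ℕ, 1 ≤ q ∧ |(q : ℝ) - v i| ≤ L ^ W ∧ ∃ t : ℕ, N ≤ 2 ^ t ∧
      ∃ d ∈ D t, d ∣ q)).card : ℝ) ≤ ∑ s ∈ Ss, ∑ t ∈ Ts, ∑ d ∈ (D t).filter (fun d => d ≤ R),
        ((univ.filter (fun i => (d : ℤ) ∣ v i + s)).card : ℝ) := hfin
    _ ≤ ∑ _s ∈ Ss, ∑ t ∈ Ts, Fintype.card ι / L ^ (U + W + 2) * (4 * ((t : ℝ) ^ 2)⁻¹) :=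
        sum_le_sum fun s hs => sum_le_sum fun t ht => hscale s hs t ht
    _ = (Ss.card : ℝ) * (Fintype.card ι / L ^ (U + W + 2) * (4 * ∑ t ∈ Ts, ((t : ℝ) ^ 2)⁻¹)) := by
        rw [sum_const, nsmul_eq_mul, ← mul_sum, ← mul_sum]
    _ ≤ L ^ (W + 1) * (Fintype.card ι / L ^ (U + W + 2) * (4 * 2)) := by
        apply mul_le_mul hScard _ (by positivity) (by positivity)
        apply mul_le_mul_of_nonneg_left _ (by positivity)
        linarith
    _ = Fintype.card ι / L ^ U * (8 / L) := by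
        have : L ^ (U + W + 2) = L ^ U * L ^ (W + 1) * L := by ring
        rw [this]
        field_simp
        ring
    _ ≤ Fintype.card ι / L ^ U * 1 := by
        apply mul_le_mul_of_nonneg_left _ (by positivity)
        rw [div_le_one hL0]
        exact hL8
    _ = _ := mul_one _

end Pool.Agent.T9h51.PE
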