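import Pool.Agent.T9h51.PE.VarAll
import Pool.Agent.TH872.GQ.BT

/-!
# From the variance to upper bounds for the number of primes in almost all classes, at all heights
-/

set_option autoImplicit false

namespace Pool.Agent.T9h51.PE

open Finset
open Pool.Agent.H373R2.T7
open Pool.Agent.TH894.PV (G)
open Pool.Agent.TH872.GQ.BT (cnt psi_mono cheb)
open Pool.Agent.Results.MP_5d318d_nt.ThinFamilyModuli (psiAP)

/-- the primes of an interval -/
lemma primes_le' (q a : ℕ) (z x : ℝ) (hz : 1 ≤ z) (hzx : z ≤ x) :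
    Real.log z * (((Ioc ⌊z⌋₊ ⌊x⌋₊).filter (fun p => p.Prime ∧ p % q = a)).card : ℝ) ≤ psiAP x q a - psiAP z q a := by
  have h1 : psiAP z q a + ∑ p ∈ (Ioc ⌊z⌋₊ ⌊x⌋₊).filter (fun p => p.Prime ∧ p % q = a), ArithmeticFunction.vonMangoldt p ≤
      psiAP x q a := by
    unfold psiAP
    rw [← sum_union (by
      rw [disjoint_left]
      intro n hn hn'
      rw [mem_filter, mem_Icc] at hn
      rw [mem_filter, mem_Ioc] at hn'
      omega)]
    apply sum_le_sum_of_subset_of_nonneg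
    · intro n hn
      rw [mem_union, mem_filter, mem_filter, mem_Icc, mem_Ioc] at hn
      rw [mem_filter, mem_Icc]
      rcases hn with hn | hn
      · exact ⟨⟨hn.1.1, hn.1.2.trans (Nat.floor_le_floor hzx)⟩, hn.2⟩
      · exact ⟨⟨hn.2.1.pos, hn.1.2⟩, hn.2.2⟩
    · intro _ _ _
      exact ArithmeticFunction.vonMangoldt_nonneg
  have h2 : Real.log z * (((Ioc ⌊z⌋₊ ⌊x⌋₊).filter (fun p => p.Prime ∧ p % q = a)).card : ℝ) ≤
      ∑ p ∈ (Ioc ⌊z⌋₊ ⌊x⌋₊).filter (fun p => p.Prime ∧ p % q = a), ArithmeticFunction.vonMangoldt p := by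
    rw [mul_comm, ← nsmul_eq_mul]
    apply card_nsmul_le_sum
    intro p hp
    rw [mem_filter, mem_Ioc] at hp
    rw [ArithmeticFunction.vonMangoldt_apply_prime hp.2.1]
    apply Real.log_le_log (by linarith)
    have h3 : z < p := (Nat.floor_lt (by linarith)).1 hp.1.1
    exact h3.le
  linarith

/-- the number of the integers up to `w` in a class -/
lemma class_le (q a : ℕ) (w : ℝ) (hw : 0 ≤ w) :
    (((Ioc 0 ⌊w⌋₊).filter (fun p => p % q = a)).card : ℝ) ≤ w / q + 1 := by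
  have h1 : ((Ioc 0 ⌊w⌋₊).filter (fun p => p % q = a)).card ≤ ⌊w⌋₊ / q + 1 := by
    have h2 : ((Ioc 0 ⌊w⌋₊).filter (fun p => p % q = a)) ⊆ (range (⌊w⌋₊ / q + 1)).image (fun k => q * k + a) := by
      intro n hn
      rw [mem_filter, mem_Ioc] at hn
      rw [mem_image]
      refine ⟨n / q, ?_, ?_⟩
      · rw [mem_range]
        exact Nat.lt_succ_of_le (Nat.div_le_div_right hn.1.2)
      · rw [← hn.2]
        exact Nat.div_add_mod n q
    exact (card_le_card h2).trans (card_image_le.trans (by rw [card_range]))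
  have h3 : ((⌊w⌋₊ / q : ℕ) : ℝ) ≤ w / q := by
    refine Nat.cast_div_le.trans ?_
    exact div_le_div_of_nonneg_right (Nat.floor_le hw) (Nat.cast_nonneg _)
  have h4 : (((Ioc 0 ⌊w⌋₊).filter (fun p => p % q = a)).card : ℝ) ≤ ((⌊w⌋₊ / q : ℕ) : ℝ) + 1 := by exact_mod_cast h1
  linarith

/-- a class which is good at all points of a geometric grid -/
lemma class_good' (q a : ℕ) (hq : 1 ≤ q) (η L φ : ℝ) (b D J K : ℕ) (N : ℝ) (hη : 0 < η) (hη1 : η ≤ 1 / 10) (hL : 1 ≤ L) (hφ0 : 0 < φ) (hφq : φ ≤ q)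
    (hLη : (K + 2 : ℝ) ≤ η * L) (hb : 1 ≤ b)
    (hlog : ∀ x : ℝ, q ≤ x → ((D : ℝ) + 2) * Real.log L ≤ η * Real.log x)
    (hlogU : ∀ x : ℝ, q ≤ x → x ≤ q * N ^ K → Real.log x ≤ (K + 2) * L) (hq2 : ∀ x : ℝ, (q : ℝ) * L ≤ x → 1 ≤ Real.log x)
    (hJ : N ^ K ≤ L ^ b * (1 + η / L ^ D) ^ J)
    (hgood : ∀ k ≤ J, |psiAP (q * L ^ b * (1 + η / L ^ D) ^ k) q a - (q * L ^ b * (1 + η / L ^ D) ^ k) / φ| ≤
      η / L ^ D * ((q * L ^ b * (1 + η / L ^ D) ^ k) / φ))
    (x y : ℝ) (hy : q * L ^ (b + D + 3) ≤ y) (hyx : y ≤ x) (hxy : x ≤ y * L ^ D) (hx : x ≤ q * N ^ K) :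
    (cnt x y q a : ℝ) ≤ (1 + 10 * η) * (y / (φ * Real.log x)) := by
  have hq0 : (0 : ℝ) < q := by exact_mod_cast hq
  have hL0 : 0 < L := by linarith
  obtain ⟨δ, hδ⟩ : ∃ δ, δ = η / L ^ D := ⟨_, rfl⟩
  rw [← hδ] at hJ hgood
  have hLD1 : 1 ≤ L ^ D := one_le_pow₀ hL
  have hδ0 : 0 < δ := by rw [hδ]; positivity
  have hδη : δ ≤ η := by rw [hδ]; exact div_le_self hη.le hLD1
  have hδ1 : δ ≤ 1 / 10 := hδη.trans hη1
  obtain ⟨x₀, hx₀⟩ : ∃ x₀, x₀ = q * L ^ b := ⟨_, rfl⟩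
  have hx₀0 : 0 < x₀ := by rw [hx₀]; positivity
  rw [← hx₀] at hgood
  -- points of the grid near a given point
  have hpt : ∀ u : ℝ, x₀ ≤ u → u ≤ q * N ^ K → ∃ k : ℕ, k + 1 ≤ J ∧ x₀ * (1 + δ) ^ k ≤ u ∧ u ≤ x₀ * (1 + δ) ^ (k + 1) ∨
      (k = J ∧ u = x₀ * (1 + δ) ^ k) := by
    intro u hu1 hu2
    have hex : ∃ k : ℕ, u ≤ x₀ * (1 + δ) ^ k := ⟨J, by
      rw [hx₀]
      calc u ≤ q * N ^ K := hu2
        _ ≤ q * (L ^ b * (1 + δ) ^ J) := mul_le_mul_of_nonneg_left hJ hq0.le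
        _ = _ := by ring⟩
    classical
    obtain ⟨k, hk⟩ : ∃ k, k = Nat.find hex := ⟨_, rfl⟩
    have h1 : u ≤ x₀ * (1 + δ) ^ k := by rw [hk]; exact Nat.find_spec hex
    have h2 : k ≤ J := by
      rw [hk]
      apply Nat.find_le
      rw [hx₀]
      calc u ≤ q * N ^ K := hu2
        _ ≤ q * (L ^ b * (1 + δ) ^ J) := mul_le_mul_of_nonneg_left hJ hq0.le
        _ = _ := by ring
    rcases Nat.eq_zero_or_pos k with h0 | h0
    · rw [h0, pow_zero, mul_one] at h1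
      have h3 : u = x₀ := le_antisymm h1 hu1
      rcases Nat.eq_zero_or_pos J with hJ0 | hJ0
      · exact ⟨0, Or.inr ⟨hJ0.symm, by rw [h3, pow_zero, mul_one]⟩⟩
      · refine ⟨0, Or.inl ⟨hJ0, ?_, ?_⟩⟩
        · rw [h3, pow_zero, mul_one]
        · rw [h3, zero_add, pow_one]
          nlinarith
    · refine ⟨k - 1, Or.inl ⟨by omega, ?_, ?_⟩⟩
      · have h3 : ¬ u ≤ x₀ * (1 + δ) ^ (k - 1) := by
          apply Nat.find_min hex
          omega
        exact (not_le.1 h3).le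
      · rw [Nat.sub_add_cancel h0]
        exact h1
  have hup : ∀ u : ℝ, x₀ ≤ u → u ≤ q * N ^ K → psiAP u q a ≤ u / φ + 3 * δ * (u / φ) := by
    intro u hu1 hu2
    have huφ : 0 < u / φ := div_pos (by linarith) hφ0
    obtain ⟨k, hk⟩ := hpt u hu1 hu2
    rcases hk with ⟨hk1, hk2, hk3⟩ | ⟨hk1, hk2⟩
    · have h1 := psi_mono q a u _ hk3
      have h2 := (abs_le.1 (hgood (k + 1) hk1)).2
      have h3 : x₀ * (1 + δ) ^ (k + 1) / φ ≤ (1 + δ) * (u / φ) := by
        rw [pow_succ, ← mul_div_assoc]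
        apply div_le_div_of_nonneg_right _ hφ0.le
        nlinarith
      have h4 := mul_le_mul_of_nonneg_left h3 (by linarith : (0 : ℝ) ≤ 1 + δ)
      have h5 : (1 + δ) * ((1 + δ) * (u / φ)) ≤ (1 + 3 * δ) * (u / φ) := by
        rw [← mul_assoc]
        apply mul_le_mul_of_nonneg_right _ huφ.le
        nlinarith
      linarith
    · have h2 := (abs_le.1 (hgood k (by omega))).2
      rw [← hk2] at h2
      nlinarith
  have hlow : ∀ u : ℝ, x₀ ≤ u → u ≤ q * N ^ K → u / φ - 2 * δ * (u / φ) ≤ psiAP u q a := by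
    intro u hu1 hu2
    have huφ : 0 < u / φ := div_pos (by linarith) hφ0
    obtain ⟨k, hk⟩ := hpt u hu1 hu2
    rcases hk with ⟨hk1, hk2, hk3⟩ | ⟨hk1, hk2⟩
    · have h1 := psi_mono q a _ u hk2
      have h2 := (abs_le.1 (hgood k (by omega))).1
      have h3 : u / φ ≤ (1 + δ) * (x₀ * (1 + δ) ^ k / φ) := by
        rw [← mul_div_assoc]
        apply div_le_div_of_nonneg_right _ hφ0.le
        rw [pow_succ] at hk3
        linarith
      obtain ⟨g, hg⟩ : ∃ g, g = x₀ * (1 + δ) ^ k / φ := ⟨_, rfl⟩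
      rw [← hg] at h2 h3
      have hg0 : 0 < g := by rw [hg]; positivity
      have h4 : (1 - δ) * g ≤ psiAP u q a := by linarith
      have h5 : (1 - 2 * δ) * (1 + δ) ≤ 1 - δ := by nlinarith
      have h6 : (1 - 2 * δ) * (u / φ) ≤ (1 - 2 * δ) * ((1 + δ) * g) := mul_le_mul_of_nonneg_left h3 (by linarith)
      have h7 : (1 - 2 * δ) * ((1 + δ) * g) ≤ (1 - δ) * g := by
        rw [← mul_assoc]
        exact mul_le_mul_of_nonneg_right h5 hg0.le
      linarith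
    · have h2 := (abs_le.1 (hgood k (by omega))).1
      rw [← hk2] at h2
      nlinarith
  -- the interval
  have hLb1 : 1 ≤ L ^ b := one_le_pow₀ hL
  have hbL : L ≤ L ^ b := le_self_pow₀ hL (by omega)
  have hy0 : 0 < y := lt_of_lt_of_le (by positivity) hy
  have hx0 : 0 < x := by linarith
  obtain ⟨w₀, hw₀⟩ : ∃ w₀, w₀ = x / L ^ (D + 2) := ⟨_, rfl⟩
  have hw₀x : w₀ ≤ x := by rw [hw₀]; exact div_le_self hx0.le (one_le_pow₀ hL)
  have hw₀1 : x₀ * L ≤ w₀ := by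
    rw [hw₀, le_div_iff₀ (by positivity), hx₀]
    calc (q : ℝ) * L ^ b * L * L ^ (D + 2) = q * L ^ (b + D + 3) := by
          rw [show b + D + 3 = b + (D + 2) + 1 by ring, pow_succ L (b + (D + 2)), pow_add L b]
          ring
      _ ≤ x := hy.trans hyx
  have hx₀w : x₀ ≤ w₀ := by nlinarith
  obtain ⟨w, hw⟩ : ∃ w, w = max (x - y) w₀ := ⟨_, rfl⟩
  have hww : w₀ ≤ w := by rw [hw]; exact le_max_right _ _
  have hwy : x - y ≤ w := by rw [hw]; exact le_max_left _ _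
  have hwx : w ≤ x := by
    rw [hw]
    exact max_le (by linarith) hw₀x
  have hqL : (q : ℝ) * L ≤ w := by
    have h1 : (q : ℝ) * L ≤ x₀ * L := by
      apply mul_le_mul_of_nonneg_right _ hL0.le
      rw [hx₀]
      exact le_mul_of_one_le_right hq0.le hLb1
    linarith
  have hqx : (q : ℝ) ≤ x := by nlinarith
  have hq1r : (1 : ℝ) ≤ q := by exact_mod_cast hq
  have hw1 : 1 ≤ w := by nlinarith
  have hlw := hq2 w hqL
  have hlx : 1 ≤ Real.log x := hlw.trans (Real.log_le_log (by linarith) hwx)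
  have hlwx : (1 - η) * Real.log x ≤ Real.log w := by
    have h1 : Real.log w₀ ≤ Real.log w := Real.log_le_log (by rw [hw₀]; positivity) hww
    rw [hw₀, Real.log_div hx0.ne' (by positivity), Real.log_pow] at h1
    have h2 := hlog x hqx
    push_cast at h1
    linarith
  have h1 := primes_le' q a w x hw1 hwx
  have h2 := hup x (by linarith) hx
  have h3 := hlow w (by linarith) (hwx.trans hx)
  have hcnt : (cnt x y q a : ℝ) ≤ (w₀ / q + 1) + (((Ioc ⌊w⌋₊ ⌊x⌋₊).filter (fun p => p.Prime ∧ p % q = a)).card : ℝ) := by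
    have e1 : (Ioc ⌊x - y⌋₊ ⌊x⌋₊).filter (fun p => p.Prime ∧ p % q = a) ⊆
        (Ioc 0 ⌊w₀⌋₊).filter (fun p => p % q = a) ∪ (Ioc ⌊w⌋₊ ⌊x⌋₊).filter (fun p => p.Prime ∧ p % q = a) := by
      intro p hp
      rw [mem_filter, mem_Ioc] at hp
      rw [mem_union, mem_filter, mem_filter, mem_Ioc, mem_Ioc]
      rcases lt_or_ge ⌊w⌋₊ p with h | h
      · exact Or.inr ⟨⟨h, hp.1.2⟩, hp.2⟩
      · left
        refine ⟨⟨hp.2.1.pos, ?_⟩, hp.2.2⟩
        rcases le_total (x - y) w₀ with h5 | h5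
        · have h6 : w = w₀ := by rw [hw]; exact max_eq_right h5
          rw [← h6]
          exact h
        · have h6 : w = x - y := by rw [hw]; exact max_eq_left h5
          rw [h6] at h
          omega
    have e2 := (card_le_card e1).trans (card_union_le _ _)
    have e3 := class_le q a w₀ (by rw [hw₀]; positivity)
    have e4 : (cnt x y q a : ℝ) ≤ (((Ioc 0 ⌊w₀⌋₊).filter (fun p => p % q = a)).card : ℝ) +
        (((Ioc ⌊w⌋₊ ⌊x⌋₊).filter (fun p => p.Prime ∧ p % q = a)).card : ℝ) := by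
      unfold cnt
      exact_mod_cast e2
    linarith
  obtain ⟨c, hc⟩ : ∃ c : ℝ, c = (((Ioc ⌊w⌋₊ ⌊x⌋₊).filter (fun p => p.Prime ∧ p % q = a)).card : ℝ) := ⟨_, rfl⟩
  rw [← hc] at h1 hcnt
  have hc0 : 0 ≤ c := by rw [hc]; exact Nat.cast_nonneg _
  obtain ⟨M, hM⟩ : ∃ M, M = y / (φ * Real.log x) := ⟨_, rfl⟩
  have hM0 : 0 < M := by rw [hM]; positivity
  have hyφ : y / φ = M * Real.log x := by rw [hM]; field_simp
  have hδx : δ * (x / φ) ≤ η * (y / φ) := by
    rw [hδ, div_mul_eq_mul_div, div_le_iff₀ (by positivity), ← mul_div_assoc, ← mul_div_assoc, div_mul_eq_mul_div]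
    apply div_le_div_of_nonneg_right _ hφ0.le
    rw [mul_assoc]
    exact mul_le_mul_of_nonneg_left hxy hη.le
  have h4 : Real.log w * c ≤ (1 + 5 * η) * (y / φ) := by
    have e1 : w / φ ≤ x / φ := div_le_div_of_nonneg_right hwx hφ0.le
    have e2 : 2 * δ * (w / φ) ≤ 2 * δ * (x / φ) := mul_le_mul_of_nonneg_left e1 (by positivity)
    have e3 : x / φ - w / φ ≤ y / φ := by
      rw [← sub_div]
      exact div_le_div_of_nonneg_right (by linarith) hφ0.le
    have e4 : 3 * δ * (x / φ) + 2 * δ * (x / φ) = 5 * (δ * (x / φ)) := by ring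
    linarith
  have h5 : c ≤ (1 + 7 * η) * M := by
    have e1 : (1 - η) * Real.log x * c ≤ (1 + 5 * η) * (M * Real.log x) := by
      calc (1 - η) * Real.log x * c ≤ Real.log w * c := mul_le_mul_of_nonneg_right hlwx hc0
        _ ≤ (1 + 5 * η) * (y / φ) := h4
        _ = _ := by rw [hyφ]
    have e2 : (1 - η) * c ≤ (1 + 5 * η) * M := by
      have : Real.log x * ((1 - η) * c) ≤ Real.log x * ((1 + 5 * η) * M) := by linarith
      exact le_of_mul_le_mul_left this (by linarith)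
    have e3 : (1 + 5 * η) * M ≤ (1 - η) * ((1 + 7 * η) * M) := by
      rw [← mul_assoc]
      apply mul_le_mul_of_nonneg_right _ hM0.le
      nlinarith
    exact le_of_mul_le_mul_left (e2.trans e3) (by linarith)
  have hlxU := hlogU x hqx hx
  have hlη : Real.log x ≤ η * L ^ 2 := by
    calc Real.log x ≤ (K + 2) * L := hlxU
      _ ≤ (η * L) * L := mul_le_mul_of_nonneg_right hLη hL0.le
      _ = _ := by ring
  have h6 : w₀ / q ≤ η * M := by
    have e1 : w₀ / q ≤ y / (q * L ^ 2) := by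
      rw [hw₀, div_div, div_le_div_iff₀ (by positivity) (by positivity)]
      calc x * (q * L ^ 2) ≤ (y * L ^ D) * (q * L ^ 2) := mul_le_mul_of_nonneg_right hxy (by positivity)
        _ = y * (L ^ (D + 2) * q) := by rw [pow_add]; ring
    refine e1.trans ?_
    rw [hM, ← mul_div_assoc, div_le_div_iff₀ (by positivity) (by positivity)]
    calc y * (φ * Real.log x) ≤ y * (q * (η * L ^ 2)) := by
          apply mul_le_mul_of_nonneg_left _ hy0.le
          exact mul_le_mul hφq hlη (by linarith) hq0.le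
      _ = η * y * (q * L ^ 2) := by ring
  have h7 : 1 ≤ η * M := by
    have e1 : η * L ^ 2 * (q * L) ≤ η * y := by
      rw [mul_assoc]
      apply mul_le_mul_of_nonneg_left _ hη.le
      refine le_trans ?_ hy
      calc L ^ 2 * (q * L) = q * L ^ 3 := by ring
        _ ≤ q * L ^ (b + D + 3) := mul_le_mul_of_nonneg_left (pow_le_pow_right₀ hL (by omega)) hq0.le
    rw [hM, ← mul_div_assoc, le_div_iff₀ (by positivity), one_mul]
    calc φ * Real.log x ≤ q * (η * L ^ 2) := mul_le_mul hφq hlη (by linarith) hq0.le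
      _ ≤ η * L ^ 2 * (q * L) := by
          have : (q : ℝ) ≤ q * L := le_mul_of_one_le_right hq0.le hL
          nlinarith [show 0 ≤ η * L ^ 2 by positivity]
      _ ≤ η * y := e1
  have hfin : (cnt x y q a : ℝ) ≤ η * M + η * M + (1 + 7 * η) * M := by linarith
  refine hfin.trans ?_
  nlinarith

lemma exp_le (t : ℝ) (h0 : 0 ≤ t) (h1 : t ≤ 1) : Real.exp (t / 2) ≤ 1 + t := by
  have h2 : 1 - t / 2 ≤ Real.exp (-(t / 2)) := by
    have := Real.add_one_le_exp (-(t / 2))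
    linarith
  rw [Real.exp_neg] at h2
  have h3 := Real.exp_pos (t / 2)
  have h4 : (1 - t / 2) * Real.exp (t / 2) ≤ 1 := by
    calc (1 - t / 2) * Real.exp (t / 2) ≤ (Real.exp (t / 2))⁻¹ * Real.exp (t / 2) := mul_le_mul_of_nonneg_right h2 h3.le
      _ = 1 := inv_mul_cancel₀ h3.ne'
  have h5 : 1 ≤ (1 - t / 2) * (1 + t) := by nlinarith
  have h6 : (1 - t / 2) * Real.exp (t / 2) ≤ (1 - t / 2) * (1 + t) := h4.trans h5
  exact le_of_mul_le_mul_left h6 (by linarith)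

open Classical in
/-- **Almost all classes.** -/
theorem bt_classes (D U κ K : ℕ) (ε : ℝ) (hε : 0 < ε) (hε1 : ε ≤ 1) : ∃ N₀ : ℕ, ∀ N : ℕ, N₀ ≤ N → ∀ q : ℕ, 1 ≤ q →
    (N : ℝ) ≤ q * Real.log N ^ κ → (q : ℝ) ≤ (N : ℝ) ^ 2 → VAll (3 * D + U + 2) (2 * K + 1) N q →
    (((range q).filter (fun a => Nat.Coprime a q ∧ ∃ x y : ℝ, q * Real.log N ^ (4 * D + U + 6) ≤ y ∧ y ≤ x ∧ x ≤ y * Real.log N ^ D ∧
      x ≤ q * (N : ℝ) ^ K ∧ (1 + ε) * (y / (Nat.totient q * Real.log x)) < cnt x y q a)).card : ℝ) ≤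
      (Nat.totient q : ℝ) / Real.log N ^ U := by
  obtain ⟨η, hη⟩ : ∃ η, η = ε / 10 := ⟨_, rfl⟩
  have hη0 : 0 < η := by rw [hη]; positivity
  have hη1 : η ≤ 1 / 10 := by rw [hη]; linarith
  obtain ⟨b, hb⟩ : ∃ b, b = 3 * D + U + 3 := ⟨_, rfl⟩
  obtain ⟨A, hA⟩ : ∃ A, A = 3 * D + U + 2 := ⟨_, rfl⟩
  obtain ⟨n1, h1⟩ := ev_L' (5 * (2 * K + 2) / η ^ 3 + (K + 2) / η + 4)
  obtain ⟨n2, h2⟩ := ev_log' (κ + b) 3
  -- (D + 2) log L is small
  obtain ⟨n3, h3⟩ : ∃ n3 : ℕ, ∀ N : ℕ, n3 ≤ N → ((D : ℝ) + 2) * Real.log (Real.log N) ≤ η * (Real.log N / 2) := by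
    obtain ⟨m, hm⟩ : ∃ m : ℕ, (D : ℝ) + 2 ≤ η * m := by
      obtain ⟨m, hm⟩ := exists_nat_ge (((D : ℝ) + 2) / η)
      exact ⟨m, by rw [div_le_iff₀ hη0] at hm; linarith⟩
    obtain ⟨n3, h3⟩ := ev_log' m 1
    obtain ⟨n4, h4⟩ := ev_L' 1
    refine ⟨n3 + n4 + 1, fun N hN => ?_⟩
    have e3 := h3 N (by omega)
    have e4 := h4 N (by omega)
    have hN0 : (0 : ℝ) < N := by exact_mod_cast (by omega : 0 < N)
    rw [one_mul] at e3
    have e5 := Real.log_le_log (by positivity) e3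
    rw [Real.log_pow, Real.log_sqrt hN0.le] at e5
    have e6 : 0 ≤ Real.log (Real.log N) := Real.log_nonneg e4
    calc ((D : ℝ) + 2) * Real.log (Real.log N) ≤ (η * m) * Real.log (Real.log N) := mul_le_mul_of_nonneg_right hm e6
      _ = η * (m * Real.log (Real.log N)) := by ring
      _ ≤ η * (Real.log N / 2) := mul_le_mul_of_nonneg_left e5 hη0.le
  refine ⟨n1 + n2 + n3 + 3, fun N hN q hq hNq hqN hV => ?_⟩
  have c1 := h1 N (by omega)
  have c2 := h2 N (by omega)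
  have c3 := h3 N (by omega)
  obtain ⟨L, hL⟩ : ∃ L, L = Real.log (N : ℝ) := ⟨_, rfl⟩
  unfold VAll at hV
  rw [← hL] at c1 c2 c3 hNq hV ⊢
  have hN3 : (3 : ℝ) ≤ N := by exact_mod_cast (by omega : 3 ≤ N)
  have hN0 : (0 : ℝ) < N := by linarith
  have q1 : 0 ≤ 5 * (2 * (K : ℝ) + 2) / η ^ 3 := by positivity
  have q2 : 0 ≤ ((K : ℝ) + 2) / η := by positivity
  have hL4 : 4 ≤ L := by linarith
  have hL1 : 1 ≤ L := by linarith
  have hL0 : 0 < L := by linarith
  have hq0 : (0 : ℝ) < q := by exact_mod_cast hq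
  obtain ⟨φ, hφ⟩ : ∃ φ : ℝ, φ = (Nat.totient q : ℝ) := ⟨_, rfl⟩
  have hφ0 : 0 < φ := by
    rw [hφ]
    exact_mod_cast Nat.totient_pos.2 hq
  have hφq : φ ≤ q := by
    rw [hφ]
    exact_mod_cast Nat.totient_le q
  have hss : √(N : ℝ) * √(N : ℝ) = N := Real.mul_self_sqrt hN0.le
  have hs0 : 0 < √(N : ℝ) := Real.sqrt_pos.2 hN0
  have hLκ : L ^ κ ≤ √(N : ℝ) := by
    have : L ^ κ ≤ L ^ (κ + b) := pow_le_pow_right₀ hL1 (by omega)
    have : 0 ≤ L ^ (κ + b) := by positivity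
    linarith
  have hLb : 3 * L ^ b ≤ √(N : ℝ) := by
    have : L ^ b ≤ L ^ (κ + b) := pow_le_pow_right₀ hL1 (by omega)
    linarith
  have hsq : √(N : ℝ) ≤ q := by
    have e1 : √(N : ℝ) * √(N : ℝ) ≤ q * √(N : ℝ) := by
      rw [hss]
      exact hNq.trans (mul_le_mul_of_nonneg_left hLκ hq0.le)
    exact le_of_mul_le_mul_right e1 hs0
  have hlogq : ∀ x : ℝ, (q : ℝ) ≤ x → L / 2 ≤ Real.log x := by
    intro x hx
    have e1 := Real.log_le_log hs0 (hsq.trans hx)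
    rw [Real.log_sqrt hN0.le, ← hL] at e1
    exact e1
  obtain ⟨δ, hδ⟩ : ∃ δ, δ = η / L ^ D := ⟨_, rfl⟩
  have hLD1 : 1 ≤ L ^ D := one_le_pow₀ hL1
  have hδ0 : 0 < δ := by rw [hδ]; positivity
  have hδη : δ ≤ η := by rw [hδ]; exact div_le_self hη0.le hLD1
  obtain ⟨J, hJ⟩ : ∃ J, J = ⌈2 * (K * L) / δ⌉₊ := ⟨_, rfl⟩
  have hJ1 : 2 * (K * L) / δ ≤ J := by rw [hJ]; exact Nat.le_ceil _
  have hJ2 : (J : ℝ) < 2 * (K * L) / δ + 1 := by rw [hJ]; exact Nat.ceil_lt_add_one (by positivity)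
  rw [div_le_iff₀ hδ0] at hJ1
  have hNK : (N : ℝ) ^ K = Real.exp (K * L) := by
    rw [mul_comm, Real.exp_mul, hL, Real.exp_log hN0, Real.rpow_natCast]
  have hJN : (N : ℝ) ^ K ≤ (1 + δ) ^ J := by
    have e1 := exp_le δ hδ0.le (by linarith)
    calc (N : ℝ) ^ K = Real.exp (K * L) := hNK
      _ ≤ Real.exp (J * (δ / 2)) := Real.exp_le_exp.2 (by linarith)
      _ = Real.exp (δ / 2) ^ J := by rw [Real.exp_nat_mul]
      _ ≤ (1 + δ) ^ J := pow_le_pow_left₀ (Real.exp_pos _).le e1 _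
  have hJU : L ^ b * (1 + δ) ^ J ≤ (N : ℝ) ^ (2 * K + 1) := by
    have e1 : (1 + δ) ^ J ≤ 3 * (N : ℝ) ^ (2 * K) := by
      have e2 : 1 + δ ≤ Real.exp δ := by
        have := Real.add_one_le_exp δ
        linarith
      have e3 : (J : ℝ) * δ ≤ 2 * (K * L) + 1 := by
        have : (J : ℝ) * δ ≤ (2 * (K * L) / δ + 1) * δ := mul_le_mul_of_nonneg_right hJ2.le hδ0.le
        have e4 : (2 * (K * L) / δ + 1) * δ = 2 * (K * L) + δ := by field_simp
        linarith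
      calc (1 + δ) ^ J ≤ Real.exp δ ^ J := pow_le_pow_left₀ (by linarith) e2 _
        _ = Real.exp (J * δ) := by rw [Real.exp_nat_mul]
        _ ≤ Real.exp (2 * (K * L) + 1) := Real.exp_le_exp.2 e3
        _ = (N : ℝ) ^ (2 * K) * Real.exp 1 := by
            rw [Real.exp_add]
            congr 1
            rw [mul_comm 2 K, pow_mul, hNK, ← Real.exp_nat_mul]
            push_cast
            rfl
        _ ≤ (N : ℝ) ^ (2 * K) * 3 := by
            apply mul_le_mul_of_nonneg_left _ (by positivity)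
            have := Real.exp_one_lt_d9
            linarith
        _ = _ := mul_comm _ _
    have e5 : 0 ≤ (N : ℝ) ^ (2 * K) := by positivity
    have hsN : √(N : ℝ) ≤ N := by
      rw [Real.sqrt_le_left (by linarith)]
      nlinarith
    calc L ^ b * (1 + δ) ^ J ≤ L ^ b * (3 * (N : ℝ) ^ (2 * K)) := mul_le_mul_of_nonneg_left e1 (by positivity)
      _ = (3 * L ^ b) * (N : ℝ) ^ (2 * K) := by ring
      _ ≤ N * (N : ℝ) ^ (2 * K) := mul_le_mul_of_nonneg_right (hLb.trans hsN) e5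
      _ = _ := by ring
  obtain ⟨xk, hxk⟩ : ∃ xk : ℕ → ℝ, ∀ k, xk k = q * L ^ b * (1 + δ) ^ k := ⟨_, fun _ => rfl⟩
  obtain ⟨Tk, hTk⟩ : ∃ Tk : ℕ → Finset ℕ, ∀ k, Tk k = (range q).filter (fun a => Nat.Coprime a q ∧
    δ * (xk k / φ) < |psiAP (xk k) q a - xk k / φ|) := ⟨_, fun _ => rfl⟩
  have hLb1 : 1 ≤ L ^ b := one_le_pow₀ hL1
  have hTc : ∀ k ∈ range (J + 1), ((Tk k).card : ℝ) ≤ φ * (5 * L ^ (2 * D) / (η ^ 2 * L ^ (3 * D + U + 2))) := by
    intro k hk
    rw [mem_range] at hk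
    have h1δ : 1 ≤ (1 + δ) ^ k := one_le_pow₀ (by linarith)
    have hxq : q * L ^ b ≤ xk k := by
      rw [hxk]
      exact le_mul_of_one_le_right (by positivity) h1δ
    have hxq' : (q : ℝ) ≤ xk k := le_trans (le_mul_of_one_le_right hq0.le hLb1) hxq
    have hx0 : 0 < xk k := by linarith
    have hxU : xk k ≤ q * (N : ℝ) ^ (2 * K + 1) := by
      rw [hxk, mul_assoc]
      apply mul_le_mul_of_nonneg_left _ hq0.le
      refine le_trans ?_ hJU
      apply mul_le_mul_of_nonneg_left _ (by positivity)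
      exact pow_le_pow_right₀ (by linarith) (by omega)
    have e1 := hV (xk k) hxq' hxU
    have e2 := cheb q (xk k) (δ * (xk k / φ)) (by positivity)
    have e3 : Pool.Agent.Results.MP_5d318d_nt.ThinFamilyModuli.G (xk k) q = G (xk k) q := rfl
    rw [e3, ← hφ] at e2
    have e4 : ((Tk k).card : ℝ) * (δ * (xk k / φ)) ^ 2 ≤ 4 * (xk k * L) + xk k ^ 2 / (q * L ^ (3 * D + U + 2)) := by
      refine le_trans (le_of_eq ?_) (e2.trans e1)
      rw [hTk]
    have e5 : 4 * (xk k * L) + xk k ^ 2 / (q * L ^ (3 * D + U + 2)) ≤ 5 * (xk k ^ 2 / (q * L ^ (3 * D + U + 2))) := by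
      have e6 : xk k * L ≤ xk k ^ 2 / (q * L ^ (3 * D + U + 2)) := by
        rw [le_div_iff₀ (by positivity)]
        calc xk k * L * (q * L ^ (3 * D + U + 2)) = xk k * (q * L ^ b) := by
              rw [hb, show 3 * D + U + 3 = 3 * D + U + 2 + 1 by ring, pow_succ L (3 * D + U + 2)]
              ring
          _ ≤ xk k * xk k := mul_le_mul_of_nonneg_left hxq hx0.le
          _ = _ := by ring
      linarith
    have e7 : ((Tk k).card : ℝ) * (δ ^ 2 / φ ^ 2) ≤ 5 / (q * L ^ (3 * D + U + 2)) := by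
      have e8 : xk k ^ 2 * (((Tk k).card : ℝ) * (δ ^ 2 / φ ^ 2)) ≤ xk k ^ 2 * (5 / (q * L ^ (3 * D + U + 2))) := by
        calc xk k ^ 2 * (((Tk k).card : ℝ) * (δ ^ 2 / φ ^ 2)) = ((Tk k).card : ℝ) * (δ * (xk k / φ)) ^ 2 := by
              field_simp
          _ ≤ _ := e4.trans e5
          _ = _ := by ring
      exact le_of_mul_le_mul_left e8 (by positivity)
    have e9 : ((Tk k).card : ℝ) ≤ 5 / (q * L ^ (3 * D + U + 2)) * (φ ^ 2 / δ ^ 2) := by
      calc ((Tk k).card : ℝ) = ((Tk k).card : ℝ) * (δ ^ 2 / φ ^ 2) * (φ ^ 2 / δ ^ 2) := by field_simp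
        _ ≤ _ := mul_le_mul_of_nonneg_right e7 (by positivity)
    refine e9.trans ?_
    have e10 : 5 / (q * L ^ (3 * D + U + 2)) * (φ ^ 2 / δ ^ 2) = (φ / q) * (φ * (5 * L ^ (2 * D) / (η ^ 2 * L ^ (3 * D + U + 2)))) := by
      rw [hδ, div_pow, ← pow_mul, mul_comm D 2]
      field_simp
    rw [e10]
    apply mul_le_of_le_one_left (by positivity)
    rw [div_le_one hq0]
    exact hφq
  -- the exceptional classes
  have hsub : (range q).filter (fun a => Nat.Coprime a q ∧ ∃ x y : ℝ, q * L ^ (4 * D + U + 6) ≤ y ∧ y ≤ x ∧ x ≤ y * L ^ D ∧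
      x ≤ q * (N : ℝ) ^ K ∧ (1 + ε) * (y / (Nat.totient q * Real.log x)) < cnt x y q a) ⊆ (range (J + 1)).biUnion Tk := by
    intro a ha
    rw [mem_filter] at ha
    obtain ⟨haq, hac, x, y, hy, hyx, hxy, hx, hlt⟩ := ha
    by_contra hcon
    rw [mem_biUnion] at hcon
    push Not at hcon
    have hgood : ∀ k ≤ J, |psiAP (q * L ^ b * (1 + η / L ^ D) ^ k) q a - (q * L ^ b * (1 + η / L ^ D) ^ k) / φ| ≤
        η / L ^ D * ((q * L ^ b * (1 + η / L ^ D) ^ k) / φ) := by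
      intro k hk
      have e1 := hcon k (mem_range.2 (by omega))
      rw [hTk, mem_filter] at e1
      push Not at e1
      have e2 := e1 haq hac
      rw [hxk, hδ] at e2
      exact e2
    have key := class_good' q a hq η L φ b D J K N hη0 hη1 hL1 hφ0 hφq (by
      have e1 : ((K : ℝ) + 2) / η ≤ L := by linarith
      rw [div_le_iff₀ hη0] at e1
      linarith) (by omega) (fun x hx => by
      have e1 := hlogq x hx
      have e2 : η * (L / 2) ≤ η * Real.log x := mul_le_mul_of_nonneg_left e1 hη0.le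
      linarith) (fun x hx1 hx2 => by
      have e1 : x ≤ (N : ℝ) ^ (K + 2) := by
        calc x ≤ q * (N : ℝ) ^ K := hx2
          _ ≤ (N : ℝ) ^ 2 * (N : ℝ) ^ K := mul_le_mul_of_nonneg_right hqN (by positivity)
          _ = _ := by ring
      have e2 := Real.log_le_log (by linarith) e1
      rw [Real.log_pow, ← hL] at e2
      push_cast at e2
      exact e2) (fun x hx => by
      have e1 : (q : ℝ) ≤ x := le_trans (le_mul_of_one_le_right hq0.le hL1) hx
      have e2 := hlogq x e1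
      linarith) (by
      rw [← hδ]
      exact hJN.trans (le_mul_of_one_le_left (by positivity) hLb1)) hgood x y (by
      have : b + D + 3 = 4 * D + U + 6 := by omega
      rw [this]
      exact hy) hyx hxy hx
    rw [hφ] at key
    have e1 : 1 + 10 * η = 1 + ε := by rw [hη]; ring
    rw [e1] at key
    linarith
  have hJ3 : ((J + 1 : ℕ) : ℝ) ≤ (2 * K + 2) * L ^ (D + 1) / η := by
    have e1 : 2 * ((K : ℝ) * L) / δ = 2 * K * L ^ (D + 1) / η := by
      rw [hδ, pow_succ]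
      field_simp
    have e2 : 2 ≤ 2 * L ^ (D + 1) / η := by
      rw [le_div_iff₀ hη0]
      have : 1 ≤ L ^ (D + 1) := one_le_pow₀ hL1
      nlinarith
    push_cast
    rw [e1] at hJ2
    have e3 : (2 * (K : ℝ) + 2) * L ^ (D + 1) / η = 2 * K * L ^ (D + 1) / η + 2 * L ^ (D + 1) / η := by ring
    linarith
  conv_rhs => rw [← hφ]
  calc (((range q).filter (fun a => Nat.Coprime a q ∧ ∃ x y : ℝ, q * L ^ (4 * D + U + 6) ≤ y ∧ y ≤ x ∧ x ≤ y * L ^ D ∧
      x ≤ q * (N : ℝ) ^ K ∧ (1 + ε) * (y / (Nat.totient q * Real.log x)) < cnt x y q a)).card : ℝ) ≤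
        (((range (J + 1)).biUnion Tk).card : ℝ) := by exact_mod_cast card_le_card hsub
    _ ≤ ∑ k ∈ range (J + 1), ((Tk k).card : ℝ) := by exact_mod_cast card_biUnion_le
    _ ≤ ∑ _k ∈ range (J + 1), φ * (5 * L ^ (2 * D) / (η ^ 2 * L ^ (3 * D + U + 2))) := sum_le_sum hTc
    _ = ((J + 1 : ℕ) : ℝ) * (φ * (5 * L ^ (2 * D) / (η ^ 2 * L ^ (3 * D + U + 2)))) := by
        rw [sum_const, card_range, nsmul_eq_mul]
    _ ≤ ((2 * K + 2) * L ^ (D + 1) / η) * (φ * (5 * L ^ (2 * D) / (η ^ 2 * L ^ (3 * D + U + 2)))) :=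
        mul_le_mul_of_nonneg_right hJ3 (by positivity)
    _ = φ / L ^ U * ((5 * (2 * K + 2) / η ^ 3) / L) := by
        rw [show 3 * D + U + 2 = (D + 1) + 2 * D + U + 1 by ring, pow_succ L (D + 1 + 2 * D + U), pow_add L (D + 1 + 2 * D), pow_add L (D + 1) (2 * D)]
        field_simp
    _ ≤ φ / L ^ U * 1 := by
        apply mul_le_mul_of_nonneg_left _ (by positivity)
        rw [div_le_one hL0]
        linarith
    _ = _ := mul_one _

end Pool.Agent.T9h51.PE
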