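import Mathlib

/-!
# Multiples of a real number in few short intervals
-/

set_option autoImplicit false

namespace Pool.Agent.T9h51.PE

open Finset

/-- a set of integers with bounded differences is small -/
lemma card_of_diff (s : Finset ℕ) (D : ℝ) (hD : 0 ≤ D) (h : ∀ a ∈ s, ∀ b ∈ s, ((b : ℝ) - a) ≤ D) : (s.card : ℝ) ≤ D + 1 := by
  rcases s.eq_empty_or_nonempty with rfl | hne
  · rw [card_empty, Nat.cast_zero]
    linarith
  · have h1 : s ⊆ Icc (s.min' hne) (s.min' hne + ⌊D⌋₊) := by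
      intro b hb
      rw [mem_Icc]
      refine ⟨s.min'_le b hb, ?_⟩
      have h2 := h _ (s.min'_mem hne) b hb
      have h3 : s.min' hne ≤ b := s.min'_le b hb
      have h4 : ((b - s.min' hne : ℕ) : ℝ) ≤ D := by
        rw [Nat.cast_sub h3]
        exact h2
      have h5 : b - s.min' hne ≤ ⌊D⌋₊ := Nat.le_floor h4
      omega
    have h6 := card_le_card h1
    rw [Nat.card_Icc] at h6
    have h7 : s.card ≤ ⌊D⌋₊ + 1 := by omega
    have h8 : ((⌊D⌋₊ : ℕ) : ℝ) ≤ D := Nat.floor_le hD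
    have h9 : (s.card : ℝ) ≤ (⌊D⌋₊ : ℕ) + 1 := by exact_mod_cast h7
    linarith

/-- the fractional parts of two real numbers in the same cell -/
lemma fract_cell (x y : ℝ) (J : ℕ) (hJ : 1 ≤ J) (h : ⌊Int.fract x * J⌋₊ = ⌊Int.fract y * J⌋₊) :
    |Int.fract x - Int.fract y| < 1 / J := by
  have hJr : (0 : ℝ) < J := by exact_mod_cast hJ
  have hx0 : 0 ≤ Int.fract x * J := mul_nonneg (Int.fract_nonneg x) hJr.le
  have hy0 : 0 ≤ Int.fract y * J := mul_nonneg (Int.fract_nonneg y) hJr.le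
  have a1 := Nat.floor_le hx0
  have a2 := Nat.lt_floor_add_one (Int.fract x * J)
  have b1 := Nat.floor_le hy0
  have b2 := Nat.lt_floor_add_one (Int.fract y * J)
  rw [h] at a1 a2
  have h1 : |Int.fract x - Int.fract y| * J < 1 := by
    have e : |Int.fract x - Int.fract y| * J = |(Int.fract x - Int.fract y) * J| := by rw [abs_mul, abs_of_pos hJr]
    rw [e, sub_mul, abs_lt]
    constructor <;> linarith
  rw [lt_div_iff₀ hJr]
  exact h1

/-- an arithmetic progression meets a cell in few points -/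
lemma prog_cell (x₀ δ : ℝ) (J c Λ : ℕ) (hJ : 1 ≤ J) (hδ : δ ≠ 0) (s : Finset ℕ)
    (hs : ∀ l ∈ s, l ≤ Λ ∧ ⌊Int.fract (x₀ + l * δ) * J⌋₊ = c) :
    (s.card : ℝ) ≤ (Λ * |δ| + 2) * (1 / (J * |δ|) + 1) := by
  classical
  have hJr : (0 : ℝ) < J := by exact_mod_cast hJ
  have hδ0 : 0 < |δ| := abs_pos.2 hδ
  obtain ⟨f, hf⟩ : ∃ f : ℕ → ℤ, ∀ l, f l = ⌊x₀ + l * δ⌋ := ⟨_, fun _ => rfl⟩
  obtain ⟨D, hD⟩ : ∃ D : ℝ, D = 1 / (J * |δ|) := ⟨_, rfl⟩
  have hD0 : 0 ≤ D := by rw [hD]; positivity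
  have hfib : ∀ a ∈ s.image f, (s.filter (fun l => f l = a)).card ≤ ⌊D + 1⌋₊ := by
    intro a _
    apply Nat.le_floor
    apply card_of_diff _ D hD0
    intro l hl l' hl'
    rw [mem_filter] at hl hl'
    have h1 : ⌊Int.fract (x₀ + l' * δ) * J⌋₊ = ⌊Int.fract (x₀ + l * δ) * J⌋₊ := by
      rw [(hs l' hl'.1).2, (hs l hl.1).2]
    have h2 := fract_cell _ _ J hJ h1
    have h3 : Int.fract (x₀ + l' * δ) - Int.fract (x₀ + l * δ) = ((l' : ℝ) - l) * δ := by
      have e1 : (⌊x₀ + l' * δ⌋ : ℤ) = ⌊x₀ + l * δ⌋ := by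
        rw [← hf l', ← hf l, hl'.2, hl.2]
      unfold Int.fract
      rw [e1]
      ring
    rw [h3, abs_mul, lt_div_iff₀ hJr] at h2
    have h4 : |(l' : ℝ) - l| * (J * |δ|) < 1 := by
      calc |(l' : ℝ) - l| * (J * |δ|) = |(l' : ℝ) - l| * |δ| * J := by ring
        _ < 1 := h2
    have h5 : |(l' : ℝ) - l| ≤ D := by
      rw [hD, le_div_iff₀ (by positivity)]
      exact h4.le
    exact (le_abs_self _).trans h5
  have h6 := card_le_mul_card_image (f := f) s ⌊D + 1⌋₊ hfib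
  obtain ⟨lo, hlo⟩ : ∃ lo, lo = min x₀ (x₀ + Λ * δ) := ⟨_, rfl⟩
  have himg : s.image f ⊆ Icc ⌊lo⌋ ⌊lo + Λ * |δ|⌋ := by
    intro z hz
    rw [mem_image] at hz
    obtain ⟨l, hl, rfl⟩ := hz
    have hl1 : (l : ℝ) ≤ Λ := by exact_mod_cast (hs l hl).1
    have hl0 : (0 : ℝ) ≤ l := Nat.cast_nonneg l
    rw [hf, mem_Icc]
    rcases lt_or_gt_of_ne hδ with hneg | hpos
    · have e1 : lo = x₀ + Λ * δ := by
        rw [hlo]
        apply min_eq_right
        nlinarith [Nat.cast_nonneg (α := ℝ) Λ]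
      rw [abs_of_neg hneg, e1]
      constructor
      · apply Int.floor_le_floor
        nlinarith
      · apply Int.floor_le_floor
        nlinarith
    · have e1 : lo = x₀ := by
        rw [hlo]
        apply min_eq_left
        nlinarith [Nat.cast_nonneg (α := ℝ) Λ]
      rw [abs_of_pos hpos, e1]
      constructor
      · apply Int.floor_le_floor
        nlinarith
      · apply Int.floor_le_floor
        nlinarith
  have h7 : ((s.image f).card : ℝ) ≤ Λ * |δ| + 2 := by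
    have h8 := card_le_card himg
    rw [Int.card_Icc] at h8
    have h9 : ⌊lo⌋ ≤ ⌊lo + Λ * |δ|⌋ := by
      apply Int.floor_le_floor
      have : 0 ≤ (Λ : ℝ) * |δ| := by positivity
      linarith
    have h10 : (((⌊lo + Λ * |δ|⌋ + 1 - ⌊lo⌋).toNat : ℕ) : ℤ) = ⌊lo + Λ * |δ|⌋ + 1 - ⌊lo⌋ := Int.toNat_of_nonneg (by omega)
    have h11 : ((s.image f).card : ℤ) ≤ ⌊lo + Λ * |δ|⌋ + 1 - ⌊lo⌋ := by
      rw [← h10]
      exact_mod_cast h8
    have h12 : ((s.image f).card : ℝ) ≤ (⌊lo + Λ * |δ|⌋ : ℝ) + 1 - ⌊lo⌋ := by exact_mod_cast h11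
    have h13 := Int.floor_le (lo + Λ * |δ|)
    have h14 := Int.lt_floor_add_one lo
    linarith
  have h15 : (s.card : ℝ) ≤ (⌊D + 1⌋₊ : ℝ) * (s.image f).card := by exact_mod_cast h6
  calc (s.card : ℝ) ≤ (⌊D + 1⌋₊ : ℝ) * (s.image f).card := h15
    _ ≤ (D + 1) * (Λ * |δ| + 2) :=
        mul_le_mul (Nat.floor_le (by linarith)) h7 (Nat.cast_nonneg _) (by linarith)
    _ = _ := by rw [hD]; ring

/-- **The multiples of a real number in few cells.** If many of the first `M` multiples of `α` lie in few cells then `α` is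
very close to a rational number with a small denominator. -/
theorem near_rational (α : ℝ) (J R K M H : ℕ) (hR : 1 ≤ R) (hK : 1 ≤ K) (hM : 1 ≤ M) (hH : H = 4 * K * (R + 1))
    (hM2 : 16 * K * H * R ≤ M) (hJ2 : 16 * K * R ≤ J) (C : Finset ℕ) (hC : C.card ≤ R) (S : Finset ℕ)
    (hS : ∀ m ∈ S, 1 ≤ m ∧ m ≤ M ∧ ⌊Int.fract ((m : ℝ) * α) * J⌋₊ ∈ C) (hcard : M ≤ 2 * K * S.card) :
    ∃ (r : ℕ) (b : ℤ), 1 ≤ r ∧ r ≤ H ∧ |(r : ℝ) * α - b| * (J * M) ≤ 32 * K * R * r := by
  classical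
  have hJ : 1 ≤ J := le_trans (Nat.mul_pos (Nat.mul_pos (by norm_num) hK) hR) hJ2
  have hH1 : 1 ≤ H := by rw [hH]; exact Nat.mul_pos (Nat.mul_pos (by norm_num) hK) (by omega)
  have hJr : (0 : ℝ) < J := by exact_mod_cast hJ
  have hMr : (0 : ℝ) < M := by exact_mod_cast hM
  have hKr : (0 : ℝ) < K := by exact_mod_cast hK
  have hRr : (0 : ℝ) < R := by exact_mod_cast hR
  have hKR : 1 ≤ K * R := Nat.mul_pos hK hR
  -- the denominator
  have hpig : ((range (M / H + 1)) ×ˢ C).card < S.card := by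
    rw [card_product, card_range]
    have h1 : (M / H + 1) * C.card ≤ (M / H + 1) * R := Nat.mul_le_mul_left _ hC
    refine lt_of_le_of_lt h1 ?_
    have h2 : H * (M / H) ≤ M := Nat.mul_div_le M H
    have h3 : 4 * K * R * (M / H) ≤ M := by
      refine le_trans (Nat.mul_le_mul_right _ ?_) h2
      rw [hH]
      exact Nat.mul_le_mul_left _ (by omega)
    have h4 : 4 * K * R < M := by
      refine lt_of_lt_of_le ?_ hM2
      have : 16 * K * H * R = (4 * K * R) * (4 * H) := by ring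
      rw [this]
      have h5 : 0 < 4 * K * R := by positivity
      nlinarith
    have h6 : 2 * K * ((M / H + 1) * R) < 2 * K * S.card := by
      refine lt_of_lt_of_le ?_ hcard
      have : 2 * (2 * K * ((M / H + 1) * R)) = 4 * K * R * (M / H) + 4 * K * R := by ring
      omega
    exact lt_of_mul_lt_mul_left h6 (Nat.zero_le _)
  obtain ⟨m₁, hm₁, m₂, hm₂, hne, heq⟩ := exists_ne_map_eq_of_card_lt_of_maps_to hpig
    (f := fun m => (m / H, ⌊Int.fract ((m : ℝ) * α) * J⌋₊)) (by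
      intro m hm
      obtain ⟨h1, h2, h3⟩ := hS m hm
      rw [mem_coe, mem_product, mem_range]
      exact ⟨Nat.lt_succ_of_le (Nat.div_le_div_right h2), h3⟩)
  rw [Prod.mk.injEq] at heq
  have hrb : ∃ (r : ℕ) (b : ℤ), 1 ≤ r ∧ r ≤ H ∧ |(r : ℝ) * α - b| < 1 / J := by
    have key : ∀ a b : ℕ, a < b → a / H = b / H → ⌊Int.fract ((a : ℝ) * α) * J⌋₊ = ⌊Int.fract ((b : ℝ) * α) * J⌋₊ →
        ∃ (r : ℕ) (b : ℤ), 1 ≤ r ∧ r ≤ H ∧ |(r : ℝ) * α - b| < 1 / J := by
      intro a b hab h1 h2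
      refine ⟨b - a, ⌊(b : ℝ) * α⌋ - ⌊(a : ℝ) * α⌋, by omega, ?_, ?_⟩
      · have e1 := Nat.div_add_mod a H
        have e2 := Nat.div_add_mod b H
        have e3 := Nat.mod_lt b hH1
        rw [h1] at e1
        omega
      · have h3 := fract_cell _ _ J hJ h2.symm
        rw [Nat.cast_sub hab.le]
        push_cast
        have e : ((b : ℝ) - a) * α - (⌊(b : ℝ) * α⌋ - ⌊(a : ℝ) * α⌋) = Int.fract ((b : ℝ) * α) - Int.fract ((a : ℝ) * α) := by
          unfold Int.fract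
          ring
        rw [e]
        exact h3
    rcases lt_or_gt_of_ne hne with h | h
    · exact key m₁ m₂ h heq.1 heq.2
    · exact key m₂ m₁ h heq.1.symm heq.2.symm
  obtain ⟨r, b, hr1, hr2, hrb⟩ := hrb
  refine ⟨r, b, hr1, hr2, ?_⟩
  obtain ⟨δ, hδ⟩ : ∃ δ, δ = (r : ℝ) * α - b := ⟨_, rfl⟩
  rw [← hδ] at hrb ⊢
  have hrr : (0 : ℝ) < r := by exact_mod_cast hr1
  rcases eq_or_ne δ 0 with h0 | hne0
  · rw [h0, abs_zero, zero_mul]
    positivity
  have hδ0 : 0 < |δ| := abs_pos.2 hne0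
  -- many multiples in one class and one cell
  obtain ⟨n, hn⟩ : ∃ n, n = M / (4 * K * r * R) := ⟨_, rfl⟩
  have hden : 0 < 4 * K * r * R := by positivity
  have hpig2 : ((range r) ×ˢ C).card * n < S.card := by
    rw [card_product, card_range]
    have h1 : r * C.card * n ≤ r * R * n := Nat.mul_le_mul_right _ (Nat.mul_le_mul_left _ hC)
    refine lt_of_le_of_lt h1 ?_
    have h2 : (4 * K * r * R) * n ≤ M := by rw [hn]; exact Nat.mul_div_le _ _
    have h3 : 2 * K * (2 * (r * R * n)) ≤ 2 * K * S.card := by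
      refine le_trans (le_of_eq ?_) (h2.trans hcard)
      ring
    have h4 : 2 * (r * R * n) ≤ S.card := Nat.le_of_mul_le_mul_left h3 (by positivity)
    have h5 : 0 < S.card := by
      rcases Nat.eq_zero_or_pos S.card with h | h
      · rw [h] at hcard; omega
      · exact h
    omega
  obtain ⟨⟨s, c⟩, _, hfib⟩ := exists_lt_card_fiber_of_mul_lt_card_of_maps_to
    (f := fun m : ℕ => (m % r, ⌊Int.fract ((m : ℝ) * α) * J⌋₊)) (s := S) (t := (range r) ×ˢ C) (n := n) (by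
      intro m hm
      rw [mem_product, mem_range]
      exact ⟨Nat.mod_lt _ hr1, (hS m hm).2.2⟩) hpig2
  obtain ⟨F, hF⟩ : ∃ F, F = S.filter (fun m : ℕ => (m % r, ⌊Int.fract ((m : ℝ) * α) * J⌋₊) = (s, c)) := ⟨_, rfl⟩
  rw [← hF] at hfib
  have hinj : Set.InjOn (fun m : ℕ => m / r) F := by
    intro m hm m' hm' h
    rw [hF, mem_coe, mem_filter, Prod.mk.injEq] at hm hm'
    simp only at h
    have e1 := Nat.div_add_mod m r
    have e2 := Nat.div_add_mod m' r
    rw [hm.2.1] at e1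
    rw [hm'.2.1, ← h] at e2
    omega
  have hprog := prog_cell ((s : ℝ) * α) δ J c (M / r) hJ hne0 (F.image (fun m : ℕ => m / r)) (by
    intro l hl
    rw [mem_image] at hl
    obtain ⟨m, hm, rfl⟩ := hl
    rw [hF, mem_filter, Prod.mk.injEq] at hm
    refine ⟨Nat.div_le_div_right (hS m hm.1).2.1, ?_⟩
    rw [← hm.2.2]
    congr 2
    have e0 := Nat.div_add_mod m r
    rw [hm.2.1] at e0
    obtain ⟨l, hl⟩ : ∃ l, l = m / r := ⟨_, rfl⟩
    rw [← hl] at e0 ⊢
    have e1 : (m : ℝ) = r * (l : ℝ) + s := by exact_mod_cast e0.symm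
    have e2 : (m : ℝ) * α = (s : ℝ) * α + (l : ℝ) * δ + (((l : ℤ) * b : ℤ) : ℝ) := by
      rw [hδ, e1]
      push_cast
      ring
    rw [e2, Int.fract_add_intCast])
  rw [card_image_of_injOn hinj] at hprog
  -- conclusion
  have hn1 : (M : ℝ) / (4 * K * r * R) ≤ F.card := by
    have h1 : M < (4 * K * r * R) * (n + 1) := by rw [hn]; exact Nat.lt_mul_div_succ M hden
    have h2 : (M : ℝ) ≤ (4 * K * r * R) * F.card := by
      have h3 : (4 * K * r * R) * (n + 1) ≤ (4 * K * r * R) * F.card := Nat.mul_le_mul_left _ hfib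
      exact_mod_cast h1.le.trans h3
    rw [div_le_iff₀ (by positivity)]
    linarith
  have hJδ : 1 ≤ 1 / (J * |δ|) := by
    rw [le_div_iff₀ (by positivity), one_mul]
    rw [lt_div_iff₀ hJr] at hrb
    linarith
  have hΛ : ((M / r : ℕ) : ℝ) ≤ M / r := Nat.cast_div_le
  have h1 : (M : ℝ) / (4 * K * r * R) ≤ (M / r * |δ| + 2) * (2 / (J * |δ|)) := by
    refine hn1.trans (hprog.trans ?_)
    apply mul_le_mul
    · have := mul_le_mul_of_nonneg_right hΛ hδ0.le
      linarith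
    · have : 2 / (J * |δ|) = 1 / (J * |δ|) + 1 / (J * |δ|) := by ring
      rw [this]
      linarith
    · positivity
    · positivity
  have h2 : (M / r * |δ| + 2) * (2 / (J * |δ|)) = 2 * M / (r * J) + 4 / (J * |δ|) := by
    rw [add_mul]
    congr 1
    · field_simp
    · ring
  have h3 : 2 * (M : ℝ) / (r * J) ≤ (M : ℝ) / (8 * K * r * R) := by
    rw [div_le_div_iff₀ (by positivity) (by positivity)]
    have h4 : (16 : ℝ) * K * R ≤ J := by exact_mod_cast hJ2
    calc 2 * (M : ℝ) * (8 * K * r * R) = M * r * (16 * K * R) := by ring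
      _ ≤ M * r * J := mul_le_mul_of_nonneg_left h4 (by positivity)
      _ = _ := by ring
  have h5 : (M : ℝ) / (4 * K * r * R) = M / (8 * K * r * R) + M / (8 * K * r * R) := by
    field_simp
    ring
  have h6 : (M : ℝ) / (8 * K * r * R) ≤ 4 / (J * |δ|) := by
    rw [h2, h5] at h1
    linarith
  rw [div_le_div_iff₀ (by positivity) (by positivity)] at h6
  calc |δ| * (J * M) = M * (J * |δ|) := by ring
    _ ≤ 4 * (8 * K * r * R) := h6
    _ = _ := by ring

end Pool.Agent.T9h51.PE
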