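import Pool.Agent.T9h51.PE.Mult2
import Pool.Agent.TH935.HM1

/-!
# The correlations of the primes with the primes minus a sieve model, for almost all members of families of nearly minimal
# energy
-/

set_option autoImplicit false

namespace Pool.Agent.T9h51.PE

open Finset
open Pool.Agent.H373R2.T7
open Pool.Agent.TH212.EH (En enum)
open Pool.Agent.TH894.PA (cz)

/-- small correlations with the shift `n` at all heights up to `Y log ^ κ Y` -/
def Pc (B₁ κ V : ℕ) (Y n : ℕ) : Prop := ∀ N₁ : ℕ, (N₁ : ℝ) ≤ Y * Real.log Y ^ κ →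
  |cz ⌈Real.log Y ^ B₁⌉₊ N₁ n| ≤ Y / Real.log Y ^ V

theorem corr_en (h B C κ V U : ℕ) : ∃ B₀ : ℕ, ∀ B₁ : ℕ, B₀ ≤ B₁ → HoldsEn (Pc B₁ κ V) h B C U := by
  classical
  obtain ⟨b₀, hb₀⟩ := Pool.Agent.TH935.HM.mult_fam h (C + 1) κ (V + 1) U
  refine ⟨b₀ + 1, fun B₁ hB₁ => ?_⟩
  obtain ⟨N₁, h1⟩ := hb₀ (B₁ + 1)
  obtain ⟨B', hB'⟩ : ∃ B', B' = B + 1 := ⟨_, rfl⟩
  obtain ⟨N₂, h2⟩ := ev_L' (2 ^ b₀ + B' + 2)
  refine ⟨N₁ + N₂ + B' + 3, fun N hN ι _ v hv hE => ?_⟩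
  rcases isEmpty_or_nonempty ι with hem | hne
  · have e1 : (univ.filter (fun i : ι => ∃ n : ℕ, 0 < n ∧ (n : ℤ) = v i ∧ ¬ Pc B₁ κ V N n)).card = 0 := by
      rw [card_eq_zero]
      exact eq_empty_of_isEmpty _
    rw [e1, Nat.cast_zero]
    exact div_nonneg (Nat.cast_nonneg _) (pow_nonneg (Real.log_natCast_nonneg _) _)
  have c2 := h2 N (by omega)
  obtain ⟨N', hN'⟩ : ∃ N', N' = B' * N := ⟨_, rfl⟩
  have hNN' : N ≤ N' := by
    rw [hN']
    exact Nat.le_mul_of_pos_left _ (by omega)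
  have c1 := h1 N' (by omega)
  obtain ⟨L, hL⟩ : ∃ L, L = Real.log (N : ℝ) := ⟨_, rfl⟩
  obtain ⟨l, hl⟩ : ∃ l, l = Real.log (N' : ℝ) := ⟨_, rfl⟩
  have hN0 : (0 : ℝ) < N := by exact_mod_cast (by omega : 0 < N)
  have hLl : L ≤ l := by
    rw [hL, hl]
    exact Real.log_le_log hN0 (by exact_mod_cast hNN')
  have hB'0 : (0 : ℝ) < B' := by rw [hB']; positivity
  have hl2 : l ≤ 2 * L := by
    have e1 : (N' : ℝ) ≤ N * N := by
      rw [hN']
      push_cast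
      exact mul_le_mul_of_nonneg_right (by exact_mod_cast (by omega : B' ≤ N)) hN0.le
    rw [hl, hL]
    calc Real.log (N' : ℝ) ≤ Real.log ((N : ℝ) * N) := Real.log_le_log (by exact_mod_cast (by omega : 0 < N')) e1
      _ = 2 * Real.log (N : ℝ) := by rw [Real.log_mul hN0.ne' hN0.ne']; ring
  rw [← hL] at c2 hE ⊢
  rw [← hl] at c1
  have hp : (0 : ℝ) ≤ 2 ^ b₀ := by positivity
  have hL1 : 1 ≤ L := by linarith
  have hL0 : 0 < L := by linarith
  have hl0 : 0 < l := by linarith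
  obtain ⟨z, hz⟩ : ∃ z, z = ⌈L ^ B₁⌉₊ := ⟨_, rfl⟩
  have hz1 : L ^ B₁ ≤ z := by rw [hz]; exact Nat.le_ceil _
  have hz2 : (z : ℝ) ≤ L ^ (B₁ + 1) := by
    have h6 : (z : ℝ) < L ^ B₁ + 1 := by rw [hz]; exact Nat.ceil_lt_add_one (by positivity)
    have h7 : 1 ≤ L ^ B₁ := one_le_pow₀ hL1
    rw [pow_succ]
    nlinarith
  have c3 := c1 z (by
    calc l ^ b₀ ≤ (2 * L) ^ b₀ := pow_le_pow_left₀ hl0.le hl2 _
      _ = 2 ^ b₀ * L ^ b₀ := mul_pow _ _ _
      _ ≤ L * L ^ b₀ := mul_le_mul_of_nonneg_right (by linarith) (by positivity)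
      _ = L ^ (b₀ + 1) := by rw [pow_succ]; ring
      _ ≤ L ^ B₁ := pow_le_pow_right₀ hL1 hB₁
      _ ≤ z := hz1) (hz2.trans (pow_le_pow_left₀ hL0.le hLl _))
  obtain ⟨f, hinj, hsurj⟩ := enum ι
  obtain ⟨n, hn⟩ : ∃ n, n = Fintype.card ι := ⟨_, rfl⟩
  rw [← hn] at hinj hsurj hE ⊢
  have hen := Pool.Agent.TH212.EH.energy_enum h v f 0 (by rw [← hn]; exact hinj)
  simp only [sub_zero] at hen
  rw [← hn] at hen
  obtain ⟨S, hS⟩ : ∃ S : Finset ℕ, S = (Icc 1 n).filter (fun m => ∃ k : ℕ, 0 < k ∧ (k : ℤ) = v (f m) ∧ ¬ Pc B₁ κ V N k) := ⟨_, rfl⟩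
  have key := c3 n (fun m => v (f m)) (fun m _ => by
    have := hv (f m)
    rw [hN']
    refine this.trans ?_
    push_cast
    apply mul_le_mul_of_nonneg_right _ (Nat.cast_nonneg _)
    rw [hB']
    push_cast
    linarith) (by
    have e0 : (energy h n (fun m => v (f m)) : ℝ) ≤ En h v := by exact_mod_cast hen
    calc (energy h n (fun m => v (f m)) : ℝ) * N' ≤ (En h v : ℝ) * N' := mul_le_mul_of_nonneg_right e0 (Nat.cast_nonneg _)
      _ = B' * ((En h v : ℝ) * N) := by rw [hN']; push_cast; ring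
      _ ≤ L * (L ^ C * (n : ℝ) ^ (2 * h)) := mul_le_mul (by linarith) hE (by positivity) hL0.le
      _ = L ^ (C + 1) * (n : ℝ) ^ (2 * h) := by ring
      _ ≤ l ^ (C + 1) * (n : ℝ) ^ (2 * h) := mul_le_mul_of_nonneg_right (pow_le_pow_left₀ hL0.le hLl _) (by positivity))
    S (by rw [hS]; exact filter_subset _ _) (by
    intro m hm
    rw [hS, mem_filter] at hm
    obtain ⟨_, k, hk0, hk, hP⟩ := hm
    have hv0 : 0 < v (f m) := by rw [← hk]; exact_mod_cast hk0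
    refine ⟨hv0, 1, le_rfl, ?_, ?_⟩
    · rw [Nat.cast_one]
      exact one_le_pow₀ (by linarith)
    · unfold Pc at hP
      push Not at hP
      obtain ⟨M, hM1, hM2⟩ := hP
      rw [← hL] at hM1 hM2
      refine ⟨M, hM1.trans ?_, ?_⟩
      · apply mul_le_mul (by exact_mod_cast hNN') (pow_le_pow_left₀ hL0.le hLl _) (by positivity) (Nat.cast_nonneg _)
      · have e1 : (v (f m)).toNat = k := by rw [← hk]; exact Int.toNat_natCast k
        rw [one_mul, e1, hz]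
        refine lt_of_le_of_lt ?_ hM2
        rw [div_le_div_iff₀ (by positivity) (by positivity), hN']
        push_cast
        have e2 : (B' : ℝ) * L ^ V ≤ l ^ (V + 1) := by
          rw [pow_succ, mul_comm]
          exact mul_le_mul (pow_le_pow_left₀ hL0.le hLl _) (by linarith) hB'0.le (by positivity)
        calc (B' : ℝ) * N * L ^ V = N * (B' * L ^ V) := by ring
          _ ≤ N * l ^ (V + 1) := mul_le_mul_of_nonneg_left e2 hN0.le)
  have hcard : (univ.filter (fun i : ι => ∃ n : ℕ, 0 < n ∧ (n : ℤ) = v i ∧ ¬ Pc B₁ κ V N n)).card ≤ S.card := by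
    have e1 : univ.filter (fun i : ι => ∃ n : ℕ, 0 < n ∧ (n : ℤ) = v i ∧ ¬ Pc B₁ κ V N n) ⊆ S.image f := by
      intro i hi
      rw [mem_filter] at hi
      obtain ⟨m, hm, rfl⟩ := hsurj i
      rw [mem_image]
      refine ⟨m, ?_, rfl⟩
      rw [hS, mem_filter]
      exact ⟨hm, hi.2⟩
    exact (card_le_card e1).trans card_image_le
  calc ((univ.filter (fun i : ι => ∃ n : ℕ, 0 < n ∧ (n : ℤ) = v i ∧ ¬ Pc B₁ κ V N n)).card : ℝ) ≤ S.card := by exact_mod_cast hcard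
    _ ≤ n / l ^ U := key
    _ ≤ n / L ^ U := by
        apply div_le_div_of_nonneg_left (Nat.cast_nonneg _) (by positivity)
        exact pow_le_pow_left₀ hL0.le hLl _

end Pool.Agent.T9h51.PE
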