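import Pool.Agent.T9h51.PE.Cells
import Pool.Agent.T9h51.ME.Cls
import Pool.Agent.TH872.GQ.En

/-!
# The large values of the exponential sum over the products of a family with integers
-/

set_option autoImplicit false

namespace Pool.Agent.T9h51.PE

open Finset
open Pool.Agent.H807R2.Dav
open Pool.Agent.TH212.EH (En enum)

/-- the absolute value of the exponential sum of a family -/
noncomputable def F {ι : Type} [Fintype ι] (v : ι → ℤ) (α : ℝ) : ℝ := ‖∑ i, ee ((v i : ℝ) * α)‖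

lemma F_nonneg {ι : Type} [Fintype ι] (v : ι → ℤ) (α : ℝ) : 0 ≤ F v α := norm_nonneg _

lemma F_le {ι : Type} [Fintype ι] (v : ι → ℤ) (α : ℝ) : F v α ≤ Fintype.card ι := by
  unfold F
  refine (norm_sum_le _ _).trans ?_
  simp only [norm_ee, sum_const, card_univ, nsmul_eq_mul, mul_one]
  exact le_rfl

lemma F_fract {ι : Type} [Fintype ι] (v : ι → ℤ) (α : ℝ) : F v (Int.fract α) = F v α := by
  unfold F
  congr 1
  apply sum_congr rfl
  intro i _
  have h : (v i : ℝ) * α = (v i : ℝ) * Int.fract α + ((v i * ⌊α⌋ : ℤ) : ℝ) := by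
    unfold Int.fract
    push_cast
    ring
  rw [h, ee_add_int]

lemma ee_lip (x y : ℝ) : ‖ee x - ee y‖ ≤ 2 * Real.pi * |x - y| := by
  have h1 : ee x - ee y = ee y * (ee (x - y) - 1) := by
    have h2 : ee x = ee y * ee (x - y) := by
      rw [← ee_add]
      congr 1
      ring
    rw [h2]
    ring
  rw [h1, norm_mul, norm_ee, one_mul, ee_eq]
  have h3 := Real.norm_exp_I_mul_ofReal_sub_one_le (x := 2 * Real.pi * (x - y))
  rw [mul_comm] at h3
  refine h3.trans (le_of_eq ?_)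
  rw [Real.norm_eq_abs, abs_mul, abs_of_pos Real.two_pi_pos]

lemma F_lip {ι : Type} [Fintype ι] (v : ι → ℤ) (R : ℝ) (hv : ∀ i, |(v i : ℝ)| ≤ R) (α β : ℝ) :
    F v α - F v β ≤ Fintype.card ι * (2 * Real.pi * R * |α - β|) := by
  unfold F
  refine (norm_sub_norm_le _ _).trans ?_
  rw [← sum_sub_distrib]
  refine (norm_sum_le _ _).trans ?_
  rw [← card_univ, ← nsmul_eq_mul, ← sum_const]
  apply sum_le_sum
  intro i _
  refine (ee_lip _ _).trans ?_
  rw [← mul_sub, abs_mul, ← mul_assoc]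
  apply mul_le_mul_of_nonneg_right _ (abs_nonneg _)
  exact mul_le_mul_of_nonneg_left (hv i) Real.two_pi_pos.le

/-- the moment is at most the energy -/
lemma moment_le {ι : Type} [Fintype ι] [Nonempty ι] (h : ℕ) (v : ι → ℤ) (R Z : ℕ) (hZ : 1 ≤ Z) (hR : ∀ i, |v i| ≤ R)
    (hRZ : 2 * h * R < Z) : ∑ t ∈ range Z, F v ((t : ℝ) / Z) ^ (2 * h) ≤ Z * En h v := by
  classical
  obtain ⟨f, hinj, hsurj⟩ := enum ι
  have hsum : ∀ G : ι → ℂ, ∑ m ∈ Icc 1 (Fintype.card ι), G (f m) = ∑ i, G i := by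
    intro G
    apply sum_bij (fun m _ => f m)
    · intro m _; exact mem_univ _
    · intro m hm m' hm' h; exact hinj (by exact_mod_cast hm) (by exact_mod_cast hm') h
    · intro i _
      obtain ⟨m, hm, h⟩ := hsurj i
      exact ⟨m, hm, h⟩
    · intro m _; rfl
  have h1 := Pool.Agent.H373R2.T7.moment_energy h (Fintype.card ι) (fun m => v (f m)) Z R hZ (fun m _ => hR _) hRZ
  have h2 := Pool.Agent.TH212.EH.energy_enum h v f 0 hinj
  simp only [sub_zero] at h2
  have h3 : ∑ t ∈ range Z, F v ((t : ℝ) / Z) ^ (2 * h) = (Z : ℝ) *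
      ((Pool.Agent.H373R2.T7.energy h (Fintype.card ι) (fun m => v (f m)) : ℕ) : ℝ) := by
    rw [← h1]
    apply sum_congr rfl
    intro t _
    unfold F
    rw [hsum (fun i => ee ((t : ℝ) * ((v i : ℝ) / Z)))]
    congr 2
    apply sum_congr rfl
    intro i _
    congr 1
    ring
  rw [h3]
  apply mul_le_mul_of_nonneg_left _ (Nat.cast_nonneg _)
  exact_mod_cast h2

lemma En_le_moment {ι : Type} [Fintype ι] [Nonempty ι] (h : ℕ) (v : ι → ℤ) (Z : ℕ) (hZ : 1 ≤ Z) :
    (Z : ℝ) * En h v ≤ ∑ t ∈ range Z, F v ((t : ℝ) / Z) ^ (2 * h) := by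
  refine (Pool.Agent.TH872.GQ.En_le h v Z hZ).trans (le_of_eq ?_)
  apply sum_congr rfl
  intro t _
  unfold F
  congr 2
  apply sum_congr rfl
  intro i _
  congr 1
  ring

lemma sum_blocks {β : Type} [AddCommMonoid β] (m n : ℕ) (f : ℕ → β) :
    ∑ u ∈ range (m * n), f u = ∑ a ∈ range m, ∑ w ∈ range n, f (a * n + w) := by
  induction m with
  | zero => simp
  | succ m ih => rw [Nat.succ_mul, sum_range_add, ih, sum_range_succ]

open Classical in
/-- the cells with large values are few -/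
lemma bad_cells {ι : Type} [Fintype ι] [Nonempty ι] (h : ℕ) (v : ι → ℤ) (B N K J Y : ℕ) (hB : 1 ≤ B) (hN : 1 ≤ N) (hK : 1 ≤ K)
    (hY : 1 ≤ Y) (hv : ∀ i, |v i| ≤ (B * N : ℕ)) (hJ : J = 26 * B * N * K) (hZ : 2 * h * (B * N) < J * Y) :
    (((range J).filter (fun c => ∃ α : ℝ, ⌊Int.fract α * J⌋₊ = c ∧ (Fintype.card ι : ℝ) / (2 * K) < F v α)).card : ℝ) *
      ((Fintype.card ι : ℝ) / (4 * K)) ^ (2 * h) ≤ J * En h v := by
  obtain ⟨C, hC⟩ : ∃ C, C = (range J).filter (fun c => ∃ α : ℝ, ⌊Int.fract α * J⌋₊ = c ∧ (Fintype.card ι : ℝ) / (2 * K) < F v α) := ⟨_, rfl⟩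
  rw [← hC]
  have hJ1 : 1 ≤ J := by rw [hJ]; exact Nat.mul_pos (Nat.mul_pos (Nat.mul_pos (by norm_num) hB) hN) hK
  have hJr : (0 : ℝ) < J := by exact_mod_cast hJ1
  have hYr : (0 : ℝ) < Y := by exact_mod_cast hY
  have hKr : (0 : ℝ) < K := by exact_mod_cast hK
  have hBN : (0 : ℝ) < B * N := by exact_mod_cast Nat.mul_pos hB hN
  have hcr : (0 : ℝ) < Fintype.card ι := by exact_mod_cast Fintype.card_pos
  have hZ1 : 1 ≤ J * Y := Nat.mul_pos hJ1 hY
  have hvr : ∀ i, |(v i : ℝ)| ≤ B * N := by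
    intro i
    have := hv i
    have h1 : ((|v i| : ℤ) : ℝ) ≤ ((B * N : ℕ) : ℝ) := by exact_mod_cast this
    push_cast at h1
    exact h1
  have hmom := moment_le h v (B * N) (J * Y) hZ1 hv hZ
  have hblk : ∑ t ∈ range (J * Y), F v ((t : ℝ) / ((J * Y : ℕ) : ℝ)) ^ (2 * h) =
      ∑ c ∈ range J, ∑ w ∈ range Y, F v (((c * Y + w : ℕ) : ℝ) / ((J * Y : ℕ) : ℝ)) ^ (2 * h) :=
    sum_blocks J Y (fun t => F v ((t : ℝ) / ((J * Y : ℕ) : ℝ)) ^ (2 * h))
  rw [hblk] at hmom
  have hlow : ∀ c ∈ C, (Y : ℝ) * ((Fintype.card ι : ℝ) / (4 * K)) ^ (2 * h) ≤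
      ∑ w ∈ range Y, F v (((c * Y + w : ℕ) : ℝ) / ((J * Y : ℕ) : ℝ)) ^ (2 * h) := by
    intro c hc
    rw [hC, mem_filter, mem_range] at hc
    obtain ⟨hcJ, α, hα, hbig⟩ := hc
    have e0 : (Y : ℝ) * ((Fintype.card ι : ℝ) / (4 * K)) ^ (2 * h) = ∑ _w ∈ range Y, ((Fintype.card ι : ℝ) / (4 * K)) ^ (2 * h) := by
      rw [sum_const, card_range, nsmul_eq_mul]
    rw [e0]
    apply sum_le_sum
    intro w hw
    rw [mem_range] at hw
    apply pow_le_pow_left₀ (by positivity)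
    obtain ⟨β, hβ⟩ : ∃ β : ℝ, β = ((c * Y + w : ℕ) : ℝ) / ((J * Y : ℕ) : ℝ) := ⟨_, rfl⟩
    rw [← hβ]
    have hwr : (w : ℝ) < Y := by exact_mod_cast hw
    have hcr' : (c : ℝ) + 1 ≤ J := by exact_mod_cast hcJ
    have hβJ : β * J = c + w / Y := by
      rw [hβ]
      push_cast
      field_simp
    have hwY : (w : ℝ) / Y < 1 := by rw [div_lt_one hYr]; exact hwr
    have hwY0 : 0 ≤ (w : ℝ) / Y := by positivity
    have hβ0 : 0 ≤ β := by rw [hβ]; positivity
    have hβ1 : β < 1 := by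
      by_contra hcon
      push Not at hcon
      have : (J : ℝ) ≤ β * J := by nlinarith
      linarith
    have hfr : Int.fract β = β := Int.fract_eq_self.2 ⟨hβ0, hβ1⟩
    have hcell : ⌊Int.fract β * J⌋₊ = ⌊Int.fract α * J⌋₊ := by
      rw [hα, hfr, hβJ, Nat.floor_eq_iff (by positivity)]
      constructor
      · linarith
      · linarith
    have hdist := fract_cell α β J hJ1 hcell.symm
    have hlip := F_lip v (B * N) hvr (Int.fract α) (Int.fract β)
    rw [F_fract, F_fract] at hlip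
    have h1 : (Fintype.card ι : ℝ) * (2 * Real.pi * (B * N) * |Int.fract α - Int.fract β|) ≤ (Fintype.card ι : ℝ) / (4 * K) := by
      rw [div_eq_mul_one_div]
      apply mul_le_mul_of_nonneg_left _ hcr.le
      have hpi : Real.pi < 3.15 := Real.pi_lt_d2
      have h2 : (J : ℝ) = 26 * B * N * K := by rw [hJ]; push_cast; ring
      calc 2 * Real.pi * (B * N) * |Int.fract α - Int.fract β| ≤ 2 * Real.pi * (B * N) * (1 / J) := by
            apply mul_le_mul_of_nonneg_left hdist.le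
            have := Real.pi_pos
            positivity
        _ = (2 * Real.pi / 26) * (1 / K) := by
            rw [h2]
            field_simp
        _ ≤ (1 / 4) * (1 / K) := by
            apply mul_le_mul_of_nonneg_right _ (by positivity)
            linarith
        _ = 1 / (4 * K) := by rw [one_div_mul_one_div]
    have h3 : (Fintype.card ι : ℝ) / (2 * K) = (Fintype.card ι : ℝ) / (4 * K) + (Fintype.card ι : ℝ) / (4 * K) := by
      field_simp
      norm_num
    linarith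
  have h4 : (C.card : ℝ) * ((Y : ℝ) * ((Fintype.card ι : ℝ) / (4 * K)) ^ (2 * h)) ≤ ((J * Y : ℕ) : ℝ) * En h v := by
    refine le_trans ?_ hmom
    rw [← nsmul_eq_mul, ← sum_const]
    refine (sum_le_sum hlow).trans ?_
    apply sum_le_sum_of_subset_of_nonneg
    · rw [hC]; exact filter_subset _ _
    · intro c _ _
      exact sum_nonneg fun w _ => pow_nonneg (F_nonneg _ _) _
  have h5 : (Y : ℝ) * ((C.card : ℝ) * ((Fintype.card ι : ℝ) / (4 * K)) ^ (2 * h)) ≤ Y * (J * En h v) := by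
    push_cast at h4
    calc (Y : ℝ) * ((C.card : ℝ) * ((Fintype.card ι : ℝ) / (4 * K)) ^ (2 * h)) =
        (C.card : ℝ) * ((Y : ℝ) * ((Fintype.card ι : ℝ) / (4 * K)) ^ (2 * h)) := by ring
      _ ≤ J * Y * En h v := h4
      _ = _ := by ring
  exact le_of_mul_le_mul_left h5 hYr

/-- the products with the integers up to `M` -/
def prod {ι : Type} (v : ι → ℤ) (M : ℕ) : ι × Fin M → ℤ := fun p => ((p.2 : ℕ) + 1 : ℤ) * v p.1

lemma F_prod_le {ι : Type} [Fintype ι] (v : ι → ℤ) (M : ℕ) (α : ℝ) : F (prod v M) α ≤ ∑ m ∈ Icc 1 M, F v ((m : ℝ) * α) := by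
  have h1 : ∑ p : ι × Fin M, ee ((prod v M p : ℝ) * α) = ∑ m : Fin M, ∑ i, ee ((v i : ℝ) * ((((m : ℕ) + 1 : ℕ) : ℝ) * α)) := by
    rw [Fintype.sum_prod_type_right]
    apply sum_congr rfl
    intro m _
    apply sum_congr rfl
    intro i _
    congr 1
    unfold prod
    push_cast
    ring
  unfold F
  rw [h1]
  refine (norm_sum_le _ _).trans (le_of_eq ?_)
  rw [Fin.sum_univ_eq_sum_range (fun m => ‖∑ i, ee ((v i : ℝ) * (((m + 1 : ℕ) : ℝ) * α))‖) M, range_eq_Ico,
    sum_Ico_add' (fun m : ℕ => ‖∑ i, ee ((v i : ℝ) * ((m : ℝ) * α))‖) 0 M 1]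
  apply sum_congr _ (fun _ _ => rfl)
  ext m
  simp only [mem_Ico, mem_Icc]
  omega

open Classical in
/-- **few frequencies with a large sum over the products** -/
theorem count {ι : Type} [Fintype ι] [Nonempty ι] (h : ℕ) (v : ι → ℤ) (B N K J Y R M H : ℕ) (hB : 1 ≤ B) (hN : 1 ≤ N)
    (hK : 1 ≤ K) (hY : 1 ≤ Y) (hv : ∀ i, |v i| ≤ (B * N : ℕ)) (hJ : J = 26 * B * N * K) (hZ : 2 * h * (B * N) < J * Y)
    (hR : 1 ≤ R) (hM : 1 ≤ M) (hRE : J * (En h v : ℝ) ≤ R * ((Fintype.card ι : ℝ) / (4 * K)) ^ (2 * h))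
    (hH : H = 4 * K * (R + 1)) (hM2 : 16 * K * H * R ≤ M) (hJ2 : 16 * K * R ≤ J) :
    (((range (J * Y)).filter (fun t : ℕ => (M : ℝ) * Fintype.card ι / K < F (prod v M) ((t : ℝ) / ((J * Y : ℕ) : ℝ)))).card : ℝ) ≤
      H * (H + 1) * (64 * K * R * Y / M + 1) := by
  have hJ1 : 1 ≤ J := by rw [hJ]; exact Nat.mul_pos (Nat.mul_pos (Nat.mul_pos (by norm_num) hB) hN) hK
  have hJr : (0 : ℝ) < J := by exact_mod_cast hJ1
  have hYr : (0 : ℝ) < Y := by exact_mod_cast hY
  have hKr : (0 : ℝ) < K := by exact_mod_cast hK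
  have hMr : (0 : ℝ) < M := by exact_mod_cast hM
  have hRr : (0 : ℝ) < R := by exact_mod_cast hR
  have hcr : (0 : ℝ) < Fintype.card ι := by exact_mod_cast Fintype.card_pos
  obtain ⟨C, hC⟩ : ∃ C, C = (range J).filter (fun c => ∃ α : ℝ, ⌊Int.fract α * J⌋₊ = c ∧ (Fintype.card ι : ℝ) / (2 * K) < F v α) := ⟨_, rfl⟩
  have hCR : C.card ≤ R := by
    have h1 := bad_cells h v B N K J Y hB hN hK hY hv hJ hZ
    rw [← hC] at h1
    have h2 := h1.trans hRE
    have h3 : (0 : ℝ) < ((Fintype.card ι : ℝ) / (4 * K)) ^ (2 * h) := by positivity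
    exact_mod_cast le_of_mul_le_mul_right h2 h3
  obtain ⟨Z, hZd⟩ : ∃ Z, Z = J * Y := ⟨_, rfl⟩
  have hZr : (Z : ℝ) = J * Y := by rw [hZd]; push_cast; ring
  have hZ0 : (0 : ℝ) < Z := by rw [hZr]; positivity
  rw [← hZd]
  -- the neighbourhoods of the rational numbers
  obtain ⟨T, hT⟩ : ∃ T : ℕ → ℤ → Finset ℕ, ∀ r b, T r b = (range Z).filter (fun t : ℕ =>
    |(r : ℝ) * ((t : ℝ) / Z) - b| * (J * M) ≤ 32 * K * R * r) := ⟨_, fun _ _ => rfl⟩
  have hTc : ∀ r ∈ Icc 1 H, ∀ b : ℤ, ((T r b).card : ℝ) ≤ 64 * K * R * Y / M + 1 := by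
    intro r hr b
    rw [mem_Icc] at hr
    have hrr : (0 : ℝ) < r := by exact_mod_cast hr.1
    apply card_of_diff _ _ (by positivity)
    intro t ht t' ht'
    rw [hT, mem_filter] at ht ht'
    have h1 := ht.2
    have h2 := ht'.2
    have h3 : |(r : ℝ) * ((t' : ℝ) / Z) - (r : ℝ) * ((t : ℝ) / Z)| * (J * M) ≤ 64 * K * R * r := by
      have e : (r : ℝ) * ((t' : ℝ) / Z) - (r : ℝ) * ((t : ℝ) / Z) = ((r : ℝ) * ((t' : ℝ) / Z) - b) - ((r : ℝ) * ((t : ℝ) / Z) - b) := by ring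
      rw [e]
      calc _ ≤ (|(r : ℝ) * ((t' : ℝ) / Z) - b| + |(r : ℝ) * ((t : ℝ) / Z) - b|) * (J * M) :=
            mul_le_mul_of_nonneg_right (abs_sub _ _) (by positivity)
        _ ≤ _ := by rw [add_mul]; linarith
    have h4 : ((t' : ℝ) - t) * ((r : ℝ) / Z * (J * M)) ≤ 64 * K * R * r := by
      refine le_trans ?_ h3
      have e : ((t' : ℝ) - t) * ((r : ℝ) / Z * (J * M)) = ((r : ℝ) * ((t' : ℝ) / Z) - (r : ℝ) * ((t : ℝ) / Z)) * (J * M) := by ring
      rw [e]
      exact mul_le_mul_of_nonneg_right (le_abs_self _) (by positivity)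
    have h5 : (r : ℝ) / Z * (J * M) = r * (M / Y) := by
      rw [hZr]
      field_simp
    rw [h5] at h4
    rw [le_div_iff₀ hMr]
    have h6 : ((t' : ℝ) - t) * M * (r / Y) ≤ (64 * K * R * Y) * (r / Y) := by
      calc ((t' : ℝ) - t) * M * (r / Y) = ((t' : ℝ) - t) * (r * (M / Y)) := by ring
        _ ≤ 64 * K * R * r := h4
        _ = (64 * K * R * Y) * (r / Y) := by field_simp
    exact le_of_mul_le_mul_right h6 (by positivity)
  have hsub : (range Z).filter (fun t : ℕ => (M : ℝ) * Fintype.card ι / K < F (prod v M) ((t : ℝ) / (Z : ℝ))) ⊆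
      (Icc 1 H).biUnion (fun r => (range (H + 1)).biUnion (fun b => T r (b : ℤ))) := by
    intro t ht
    rw [mem_filter, mem_range] at ht
    obtain ⟨htZ, hbig⟩ := ht
    obtain ⟨α, hα⟩ : ∃ α : ℝ, α = (t : ℝ) / Z := ⟨_, rfl⟩
    rw [← hα] at hbig
    have hα0 : 0 ≤ α := by rw [hα]; positivity
    have hα1 : α < 1 := by
      rw [hα, div_lt_one hZ0]
      exact_mod_cast htZ
    obtain ⟨S, hS⟩ : ∃ S, S = (Icc 1 M).filter (fun m : ℕ => (Fintype.card ι : ℝ) / (2 * K) < F v ((m : ℝ) * α)) := ⟨_, rfl⟩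
    have hScard : M ≤ 2 * K * S.card := by
      have h1 := hbig.trans_le (F_prod_le v M α)
      have h2 : ∑ m ∈ Icc 1 M, F v ((m : ℝ) * α) ≤ ∑ m ∈ Icc 1 M, ((if m ∈ S then (Fintype.card ι : ℝ) else 0) +
          (Fintype.card ι : ℝ) / (2 * K)) := by
        apply sum_le_sum
        intro m hm
        by_cases hmS : m ∈ S
        · rw [if_pos hmS]
          have := F_le v ((m : ℝ) * α)
          have : 0 ≤ (Fintype.card ι : ℝ) / (2 * K) := by positivity
          linarith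
        · rw [if_neg hmS, zero_add]
          rw [hS, mem_filter] at hmS
          by_contra hcon
          push Not at hcon
          exact hmS ⟨hm, hcon⟩
      rw [sum_add_distrib, sum_const, Nat.card_Icc, Nat.add_sub_cancel, nsmul_eq_mul, ← sum_filter] at h2
      have h3 : (Icc 1 M).filter (fun m => m ∈ S) = S := by
        ext m
        rw [mem_filter]
        constructor
        · exact fun h => h.2
        · intro h
          refine ⟨?_, h⟩
          rw [hS, mem_filter] at h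
          exact h.1
      rw [h3, sum_const, nsmul_eq_mul] at h2
      have h4 := h1.trans_le h2
      have h5 : (M : ℝ) * Fintype.card ι / K = (M : ℝ) * ((Fintype.card ι : ℝ) / (2 * K)) + (M : ℝ) * ((Fintype.card ι : ℝ) / (2 * K)) := by
        field_simp
        norm_num
      rw [h5] at h4
      have h6 : (M : ℝ) * ((Fintype.card ι : ℝ) / (2 * K)) < (S.card : ℝ) * Fintype.card ι := by linarith
      have h7 : (M : ℝ) * Fintype.card ι < (2 * K * S.card) * Fintype.card ι := by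
        have e : (M : ℝ) * Fintype.card ι = ((M : ℝ) * ((Fintype.card ι : ℝ) / (2 * K))) * (2 * K) := by field_simp
        rw [e]
        calc _ < ((S.card : ℝ) * Fintype.card ι) * (2 * K) := mul_lt_mul_of_pos_right h6 (by positivity)
          _ = _ := by ring
      have h8 : (M : ℝ) < 2 * K * S.card := lt_of_mul_lt_mul_right h7 hcr.le
      exact_mod_cast h8.le
    obtain ⟨r, b, hr1, hr2, hrb⟩ := near_rational α J R K M H hR hK hM hH hM2 hJ2 C hCR S (by
      intro m hm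
      rw [hS, mem_filter, mem_Icc] at hm
      refine ⟨hm.1.1, hm.1.2, ?_⟩
      rw [hC, mem_filter, mem_range]
      refine ⟨?_, (m : ℝ) * α, rfl, hm.2⟩
      rw [Nat.floor_lt (mul_nonneg (Int.fract_nonneg _) hJr.le)]
      have := Int.fract_lt_one ((m : ℝ) * α)
      nlinarith) hScard
    have hrr : (1 : ℝ) ≤ r := by exact_mod_cast hr1
    -- the numerator
    have herr : |(r : ℝ) * α - b| < 1 := by
      have h1 : (16 : ℝ) * K * H * R ≤ M := by exact_mod_cast hM2
      have h2 : (r : ℝ) ≤ H := by exact_mod_cast hr2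
      have h3 : (16 : ℝ) ≤ J := by
        have : 16 ≤ 16 * K * R := by
          rw [mul_assoc]
          exact Nat.le_mul_of_pos_right _ (Nat.mul_pos hK hR)
        exact_mod_cast this.trans hJ2
      have h4 : (32 : ℝ) * K * R * r ≤ 2 * M := by
        calc (32 : ℝ) * K * R * r ≤ 32 * K * R * H := mul_le_mul_of_nonneg_left h2 (by positivity)
          _ = 2 * (16 * K * H * R) := by ring
          _ ≤ 2 * M := by linarith
      have h5 : |(r : ℝ) * α - b| * (J * M) ≤ 2 * M := hrb.trans h4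
      by_contra hcon
      push Not at hcon
      have h6 : (J : ℝ) * M ≤ |(r : ℝ) * α - b| * (J * M) := le_mul_of_one_le_left (by positivity) hcon
      have h7 : (16 : ℝ) * M ≤ J * M := mul_le_mul_of_nonneg_right h3 hMr.le
      linarith
    rw [abs_lt] at herr
    have hb0 : 0 ≤ b := by
      by_contra hcon
      push Not at hcon
      have h1 : (b : ℝ) ≤ -1 := by exact_mod_cast (by omega : b ≤ -1)
      have h2 : 0 ≤ (r : ℝ) * α := by positivity
      linarith [herr.2]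
    have hbr : b ≤ r := by
      by_contra hcon
      push Not at hcon
      have h1 : (r : ℝ) + 1 ≤ b := by exact_mod_cast (by omega : (r : ℤ) + 1 ≤ b)
      have h2 : (r : ℝ) * α ≤ r := mul_le_of_le_one_right (by linarith) hα1.le
      linarith [herr.1]
    obtain ⟨b', rfl⟩ := Int.eq_ofNat_of_zero_le hb0
    have hb' : b' ≤ r := by exact_mod_cast hbr
    rw [mem_biUnion]
    refine ⟨r, mem_Icc.2 ⟨hr1, hr2⟩, ?_⟩
    rw [mem_biUnion]
    refine ⟨b', mem_range.2 (by omega), ?_⟩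
    rw [hT, mem_filter, mem_range, ← hα]
    exact ⟨htZ, hrb⟩
  have h1 := card_le_card hsub
  have h2 : (((range Z).filter (fun t : ℕ => (M : ℝ) * Fintype.card ι / K < F (prod v M) ((t : ℝ) / (Z : ℝ)))).card : ℝ) ≤
      ∑ r ∈ Icc 1 H, ∑ b ∈ range (H + 1), ((T r (b : ℤ)).card : ℝ) := by
    refine le_trans (Nat.cast_le.2 (h1.trans card_biUnion_le)) ?_
    rw [Nat.cast_sum]
    apply sum_le_sum
    intro r _
    refine le_trans (Nat.cast_le.2 card_biUnion_le) ?_
    rw [Nat.cast_sum]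
  refine h2.trans ?_
  have h3 : ∑ r ∈ Icc 1 H, ∑ b ∈ range (H + 1), ((T r (b : ℤ)).card : ℝ) ≤ ∑ r ∈ Icc 1 H, ∑ b ∈ range (H + 1), (64 * K * R * Y / M + 1 : ℝ) :=
    sum_le_sum fun r hr => sum_le_sum fun b _ => hTc r hr b
  refine h3.trans (le_of_eq ?_)
  rw [sum_const, sum_const, Nat.card_Icc, card_range, Nat.add_sub_cancel, nsmul_eq_mul, nsmul_eq_mul]
  push_cast
  ring

end Pool.Agent.T9h51.PE
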