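import Pool.Agent.T9h51.PE.Mult

/-!
# Members of a family of nearly minimal energy divisible by an integer
-/

set_option autoImplicit false

namespace Pool.Agent.T9h51.PE

open Finset
open Pool.Agent.TH212.EH (En)

lemma card_mult (R d h : ℕ) (hd : 1 ≤ d) (hdR : d ≤ R) (T : Finset ℤ) (hT : ∀ n ∈ T, (d : ℤ) ∣ n ∧ |n| ≤ h * R) :
    (T.card : ℝ) * d ≤ ((2 * h + 1) * R : ℕ) := by
  classical
  obtain ⟨m, hm⟩ : ∃ m : ℤ, m = (h * R : ℤ) / d := ⟨_, rfl⟩
  have hd0 : (0 : ℤ) < d := by exact_mod_cast hd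
  have hm0 : 0 ≤ m := by rw [hm]; positivity
  have hcard : T.card ≤ (Icc (-m) m).card := by
    apply card_le_card_of_injOn (fun n => n / (d : ℤ))
    · intro n hn
      obtain ⟨⟨k, rfl⟩, h2⟩ := hT n hn
      simp only [coe_Icc, Set.mem_Icc]
      rw [Int.mul_ediv_cancel_left _ hd0.ne']
      rw [abs_mul, abs_of_pos hd0] at h2
      have h3 : |k| ≤ m := by
        rw [hm]
        apply Int.le_ediv_of_mul_le hd0
        linarith
      exact ⟨(abs_le.1 h3).1, (abs_le.1 h3).2⟩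
    · intro a ha b hb hab
      obtain ⟨⟨k, rfl⟩, _⟩ := hT a ha
      obtain ⟨⟨l, rfl⟩, _⟩ := hT b hb
      simp only [Int.mul_ediv_cancel_left _ hd0.ne'] at hab
      rw [hab]
  rw [Int.card_Icc] at hcard
  have h1 : ((m + 1 - -m).toNat : ℤ) = 2 * m + 1 := by
    rw [Int.toNat_of_nonneg (by omega)]
    ring
  have h2 : (T.card : ℤ) ≤ 2 * m + 1 := by
    rw [← h1]
    exact_mod_cast hcard
  have h3 : m * d ≤ h * R := by
    rw [hm]
    exact Int.ediv_mul_le _ hd0.ne'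
  have h4 : (T.card : ℤ) * d ≤ (2 * h + 1) * R := by
    have h5 : (d : ℤ) ≤ R := by exact_mod_cast hdR
    calc (T.card : ℤ) * d ≤ (2 * m + 1) * d := mul_le_mul_of_nonneg_right h2 hd0.le
      _ = 2 * (m * d) + d := by ring
      _ ≤ 2 * (h * R) + R := by linarith
      _ = _ := by ring
  exact_mod_cast h4

/-- the number of the members divisible by `d` -/
theorem div_count {ι : Type} [Fintype ι] (h : ℕ) (v : ι → ℤ) (R d : ℕ) (hd : 1 ≤ d) (hdR : d ≤ R)
    (hR : ∀ i, |v i| ≤ R) (S : Finset ι) (hS : ∀ i ∈ S, (d : ℤ) ∣ v i) :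
    (S.card : ℝ) ^ (2 * h) * d ≤ (((2 * h + 1) * R : ℕ) : ℝ) * En h v := by
  classical
  obtain ⟨X, hX⟩ : ∃ X : Finset (Fin h → ι), X = Fintype.piFinset (fun _ => S) := ⟨_, rfl⟩
  have hXc : X.card = S.card ^ h := by
    rw [hX, Fintype.card_piFinset_const]
  obtain ⟨φ, hφ⟩ : ∃ φ : (Fin h → ι) → ℤ, ∀ x, φ x = ∑ j, v (x j) := ⟨_, fun _ => rfl⟩
  obtain ⟨T, hT⟩ : ∃ T, T = X.image φ := ⟨_, rfl⟩
  have hTc : (T.card : ℝ) * d ≤ ((2 * h + 1) * R : ℕ) := by
    apply card_mult R d h hd hdR T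
    intro n hn
    rw [hT, mem_image] at hn
    obtain ⟨x, hx, rfl⟩ := hn
    rw [hX, Fintype.mem_piFinset] at hx
    rw [hφ]
    refine ⟨dvd_sum fun j _ => hS _ (hx j), ?_⟩
    refine (abs_sum_le_sum_abs _ _).trans ?_
    calc ∑ j : Fin h, |v (x j)| ≤ ∑ _j : Fin h, (R : ℤ) := sum_le_sum fun j _ => hR _
      _ = h * R := by rw [sum_const, card_univ, Fintype.card_fin, nsmul_eq_mul]
  have h1 : X.card = ∑ n ∈ T, (X.filter (fun x => φ x = n)).card :=
    card_eq_sum_card_fiberwise fun x hx => by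
      rw [hT]
      exact mem_coe.2 (mem_image_of_mem _ hx)
  obtain ⟨Y, hY⟩ : ∃ Y, Y = (X ×ˢ X).filter (fun p => φ p.1 = φ p.2) := ⟨_, rfl⟩
  have h2 : Y.card = ∑ n ∈ T, (X.filter (fun x => φ x = n)).card ^ 2 := by
    rw [card_eq_sum_card_fiberwise (f := fun p => φ p.1) (t := T) (fun p hp => by
      rw [hT]
      rw [hY] at hp
      exact mem_coe.2 (mem_image_of_mem _ (mem_product.1 (mem_filter.1 (mem_coe.1 hp)).1).1))]
    apply sum_congr rfl
    intro n _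
    rw [pow_two, ← card_product]
    congr 1
    ext p
    rw [hY]
    simp only [mem_filter, mem_product]
    constructor
    · rintro ⟨⟨⟨a, b⟩, c⟩, e⟩
      exact ⟨⟨a, e⟩, b, by rw [← c, e]⟩
    · rintro ⟨⟨a, e⟩, b, c⟩
      exact ⟨⟨⟨a, b⟩, by rw [e, c]⟩, e⟩
  have h3 : Y.card ≤ En h v := by
    unfold En
    rw [Nat.card_eq_fintype_card, Fintype.card_subtype]
    apply card_le_card
    intro p hp
    rw [hY, mem_filter] at hp
    rw [mem_filter]
    refine ⟨mem_univ _, ?_⟩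
    rw [← hφ, ← hφ]
    exact hp.2
  have h4 : (X.card : ℝ) ^ 2 ≤ T.card * Y.card := by
    have h5 := sq_sum_le_card_mul_sum_sq (s := T) (f := fun n => ((X.filter (fun x => φ x = n)).card : ℝ))
    rw [h1, h2]
    push_cast
    exact h5
  have hY0 : (Y.card : ℝ) ≤ En h v := by exact_mod_cast h3
  have hd0 : (0 : ℝ) ≤ d := Nat.cast_nonneg _
  calc (S.card : ℝ) ^ (2 * h) * d = (X.card : ℝ) ^ 2 * d := by
        rw [hXc, Nat.cast_pow, ← pow_mul, mul_comm h 2]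
    _ ≤ (T.card * Y.card) * d := mul_le_mul_of_nonneg_right h4 hd0
    _ = (T.card * d) * Y.card := by ring
    _ ≤ (((2 * h + 1) * R : ℕ) : ℝ) * En h v := mul_le_mul hTc hY0 (Nat.cast_nonneg _) (Nat.cast_nonneg _)

end Pool.Agent.T9h51.PE
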