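import Pool.Agent.T9h51.PE.Main

/-!
# The energy of the products: conclusion
-/

set_option autoImplicit false

namespace Pool.Agent.T9h51.PE

open Finset
open Pool.Agent.H807R2.Dav
open Pool.Agent.TH212.EH (En)

lemma geom_half (n : ℕ) : ∑ k ∈ range n, (1 / 2 : ℝ) ^ k ≤ 2 := by
  have h1 : ∑ k ∈ range n, (1 / 2 : ℝ) ^ k ≤ ∑' k : ℕ, (1 / 2 : ℝ) ^ k :=
    (summable_geometric_of_lt_one (by norm_num) (by norm_num)).sum_le_tsum _ (fun _ _ => by positivity)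
  rw [tsum_geometric_of_lt_one (by norm_num) (by norm_num)] at h1
  norm_num at h1
  exact h1

/-- the choice of the number of the levels -/
lemma choose_level (a K₀ : ℕ) (ha : 1 ≤ a) (hK₀ : 1 ≤ K₀) (N M : ℕ) (hN : 1 ≤ N) (hM : 1 ≤ M) (hMN : M ≤ N ^ K₀) (D : ℝ) (hD : 1 ≤ D) :
    ∃ n : ℕ, (1 ≤ n → (2 : ℝ) ^ (a * n) * D ≤ N ∧ (2 : ℝ) ^ (a * n) * D ≤ M) ∧ (M : ℝ) ≤ ((2 : ℝ) ^ (a * (n + 1)) * D) ^ K₀ := by
  have hD0 : 0 < D := by linarith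
  have hNr : (1 : ℝ) ≤ N := by exact_mod_cast hN
  have hMr : (1 : ℝ) ≤ M := by exact_mod_cast hM
  obtain ⟨P, hP⟩ : ∃ P : ℝ, P = min (N : ℝ) (M : ℝ) := ⟨_, rfl⟩
  have hP1 : 1 ≤ P := by rw [hP]; exact le_min hNr hMr
  obtain ⟨y, hy⟩ : ∃ y : ℝ, y = P / D := ⟨_, rfl⟩
  have hy0 : 0 < y := by rw [hy]; positivity
  have hPy : P = y * D := by rw [hy]; field_simp
  refine ⟨Nat.log 2 ⌊y⌋₊ / a, fun hn => ?_, ?_⟩
  · have h1 : ⌊y⌋₊ ≠ 0 := by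
      intro h0
      rw [h0, Nat.log_zero_right, Nat.zero_div] at hn
      omega
    have h2 : 2 ^ (a * (Nat.log 2 ⌊y⌋₊ / a)) ≤ ⌊y⌋₊ :=
      (Nat.pow_le_pow_right (by norm_num) (Nat.mul_div_le _ _)).trans (Nat.pow_log_le_self 2 h1)
    have h3 : (2 : ℝ) ^ (a * (Nat.log 2 ⌊y⌋₊ / a)) ≤ y := by
      have h4 : ((2 ^ (a * (Nat.log 2 ⌊y⌋₊ / a)) : ℕ) : ℝ) ≤ (⌊y⌋₊ : ℝ) := by exact_mod_cast h2
      push_cast at h4
      exact h4.trans (Nat.floor_le hy0.le)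
    have h5 : (2 : ℝ) ^ (a * (Nat.log 2 ⌊y⌋₊ / a)) * D ≤ P := by
      rw [hPy]
      exact mul_le_mul_of_nonneg_right h3 hD0.le
    exact ⟨h5.trans (by rw [hP]; exact min_le_left _ _), h5.trans (by rw [hP]; exact min_le_right _ _)⟩
  · have h1 : ⌊y⌋₊ < 2 ^ (Nat.log 2 ⌊y⌋₊ + 1) := Nat.lt_pow_succ_log_self (by norm_num) _
    have h2 : Nat.log 2 ⌊y⌋₊ + 1 ≤ a * (Nat.log 2 ⌊y⌋₊ / a + 1) := Nat.lt_mul_div_succ _ ha
    have h3 : ⌊y⌋₊ + 1 ≤ 2 ^ (a * (Nat.log 2 ⌊y⌋₊ / a + 1)) := h1.trans_le (Nat.pow_le_pow_right (by norm_num) h2)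
    have h4 : y ≤ (2 : ℝ) ^ (a * (Nat.log 2 ⌊y⌋₊ / a + 1)) := by
      have h5 : ((⌊y⌋₊ + 1 : ℕ) : ℝ) ≤ ((2 ^ (a * (Nat.log 2 ⌊y⌋₊ / a + 1)) : ℕ) : ℝ) := by exact_mod_cast h3
      push_cast at h5
      exact (Nat.lt_floor_add_one y).le.trans h5
    have h6 : P ≤ (2 : ℝ) ^ (a * (Nat.log 2 ⌊y⌋₊ / a + 1)) * D := by
      rw [hPy]
      exact mul_le_mul_of_nonneg_right h4 hD0.le
    refine le_trans ?_ (pow_le_pow_left₀ (by linarith) h6 K₀)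
    rcases le_total (N : ℝ) M with h | h
    · rw [hP, min_eq_left h]
      exact_mod_cast hMN
    · rw [hP, min_eq_right h]
      exact le_self_pow₀ hMr (by omega)

/-- **The products of the members of a family of nearly minimal energy with the integers up to `M` have nearly minimal
energy.** -/
theorem prod_energy (h B C K₀ : ℕ) (hh : 1 ≤ h) (hB : 1 ≤ B) (hK₀ : 1 ≤ K₀) : ∃ h' C' N₀ : ℕ, 1 ≤ h' ∧ ∀ N : ℕ, N₀ ≤ N →
    ∀ M : ℕ, 1 ≤ M → M ≤ N ^ K₀ → ∀ (ι : Type) [Fintype ι] [Nonempty ι] (v : ι → ℤ), (∀ i, |v i| ≤ (B * N : ℕ)) →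
    (En h v : ℝ) * N ≤ Real.log N ^ C * (Fintype.card ι : ℝ) ^ (2 * h) →
    (En h' (prod v M) : ℝ) * ((N * M : ℕ) : ℝ) ≤ Real.log N ^ C' * (Fintype.card (ι × Fin M) : ℝ) ^ (2 * h') := by
  classical
  obtain ⟨c₁, L₀, hc₁, hL₀, hlev⟩ := level h B C hB
  obtain ⟨a, ha⟩ : ∃ a, a = 4 * h + 4 := ⟨_, rfl⟩
  obtain ⟨A, hA⟩ : ∃ A, A = 6 * h + 5 := ⟨_, rfl⟩
  rw [← ha, ← hA] at hlev
  obtain ⟨h', hh'⟩ : ∃ h', h' = h + a * K₀ + A := ⟨_, rfl⟩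
  obtain ⟨n1, hn1⟩ := Pool.Agent.H373R2.T7.ev_L' (L₀ + (2 ^ (A + 1) * c₁ + 2 ^ (a * K₀)))
  refine ⟨h', 3 * C + (2 * C + 1) * K₀ + C + 1, n1 + 1, by omega, fun N hN M hM hMN ι _ _ v hv hE => ?_⟩
  obtain ⟨L, hL⟩ : ∃ L, L = Real.log (N : ℝ) := ⟨_, rfl⟩
  have hLbig := hn1 N (by omega)
  rw [← hL] at hLbig hE ⊢
  have hN1 : 1 ≤ N := by omega
  have hNr : (1 : ℝ) ≤ N := by exact_mod_cast hN1
  have hMr : (1 : ℝ) ≤ M := by exact_mod_cast hM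
  have hc2 : (0 : ℝ) < 2 ^ (A + 1) * c₁ + 2 ^ (a * K₀) := by positivity
  have hLL : L₀ ≤ L := by linarith
  have hLc : 2 ^ (A + 1) * c₁ + 2 ^ (a * K₀) ≤ L := by linarith
  have hL1 : 1 ≤ L := by linarith
  have hD1 : 1 ≤ L ^ (2 * C + 1) := one_le_pow₀ hL1
  have hcr : (0 : ℝ) < Fintype.card ι := by exact_mod_cast Fintype.card_pos
  obtain ⟨n, hlow, hup⟩ := choose_level a K₀ (by omega) hK₀ N M hN1 hM hMN (L ^ (2 * C + 1)) hD1
  obtain ⟨Y₀, hY₀⟩ : ∃ Y₀, Y₀ = 4 * (h + 1) * M := ⟨_, rfl⟩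
  have hY₀1 : 1 ≤ Y₀ := by rw [hY₀]; exact Nat.mul_pos (by omega) hM
  obtain ⟨Z, hZ⟩ : ∃ Z, Z = 26 * B * N * 2 ^ n * Y₀ := ⟨_, rfl⟩
  have hpow : 1 ≤ 2 ^ n := Nat.one_le_pow _ _ (by norm_num)
  have hZ1 : 1 ≤ Z := by
    rw [hZ]
    exact Nat.mul_pos (Nat.mul_pos (Nat.mul_pos (Nat.mul_pos (by norm_num) hB) hN1) hpow) hY₀1
  have hZr : (1 : ℝ) ≤ Z := by exact_mod_cast hZ1
  have hZbig : 2 * h * (M * (B * N)) < Z := by
    have h1 : B * N * M * (2 * h) < B * N * M * (104 * (h + 1)) :=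
      Nat.mul_lt_mul_of_pos_left (by omega) (Nat.mul_pos (Nat.mul_pos hB hN1) hM)
    calc 2 * h * (M * (B * N)) = B * N * M * (2 * h) := by ring
      _ < B * N * M * (104 * (h + 1)) := h1
      _ = 26 * B * N * 1 * (4 * (h + 1) * M) := by ring
      _ ≤ Z := by
          rw [hZ, hY₀]
          exact Nat.mul_le_mul_right _ (Nat.mul_le_mul_left _ hpow)
  have hZNM : N * M ≤ Z := by
    calc N * M = 1 * N * 1 * (1 * M) := by ring
      _ ≤ 26 * B * N * 2 ^ n * (4 * (h + 1) * M) := by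
          apply Nat.mul_le_mul
          · apply Nat.mul_le_mul _ hpow
            exact Nat.mul_le_mul_right _ (Nat.mul_pos (by norm_num) hB)
          · exact Nat.mul_le_mul_right _ (by omega)
      _ = Z := by rw [hZ, hY₀]
  obtain ⟨q, hq⟩ : ∃ q : ℝ, q = (Z : ℝ) / (N * M) := ⟨_, rfl⟩
  have hq0 : 0 < q := by rw [hq]; positivity
  obtain ⟨c, hc⟩ : ∃ c : ℝ, c = (Fintype.card ι : ℝ) * M := ⟨_, rfl⟩
  have hc0 : 0 < c := by rw [hc]; positivity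
  have hcard : (Fintype.card (ι × Fin M) : ℝ) = c := by
    rw [Fintype.card_prod, Fintype.card_fin, hc]
    push_cast
    ring
  have hneM : Nonempty (Fin M) := ⟨⟨0, by omega⟩⟩
  obtain ⟨f, hf⟩ : ∃ f : ℕ → ℝ, ∀ t, f t = F (prod v M) ((t : ℝ) / Z) / c := ⟨_, fun _ => rfl⟩
  have hf0 : ∀ t, 0 ≤ f t := fun t => by rw [hf]; exact div_nonneg (F_nonneg _ _) hc0.le
  have hf1 : ∀ t, f t ≤ 1 := by
    intro t
    rw [hf, div_le_one hc0, ← hcard]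
    exact F_le _ _
  have hFf : ∀ t : ℕ, F (prod v M) ((t : ℝ) / Z) = c * f t := by
    intro t
    rw [hf]
    field_simp
  -- the counts
  obtain ⟨cnt, hcnt⟩ : ∃ cnt : ℕ → ℕ, ∀ k, cnt k = ((range Z).filter (fun t => (1 / 2 : ℝ) ^ (k + 1) < f t)).card := ⟨_, fun _ => rfl⟩
  have hcb : ∀ k ∈ range n, (cnt k : ℝ) ≤ c₁ * ((2 : ℝ) ^ (k + 1)) ^ A * L ^ (3 * C) * q := by
    intro k hk
    rw [mem_range] at hk
    obtain ⟨hl1, hl2⟩ := hlow (by omega)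
    have hKa : (((2 ^ (k + 1) : ℕ) : ℝ)) ^ a ≤ (2 : ℝ) ^ (a * n) := by
      push_cast
      rw [← pow_mul, mul_comm (k + 1) a]
      exact pow_le_pow_right₀ (by norm_num) (Nat.mul_le_mul_left _ (by omega))
    have e1 : 26 * B * N * 2 ^ (k + 1) * (2 ^ (n - (k + 1)) * Y₀) = Z := by
      rw [hZ]
      have : 2 ^ n = 2 ^ (k + 1) * 2 ^ (n - (k + 1)) := by rw [← pow_add]; congr 1; omega
      rw [this]
      ring
    have key := hlev N M (2 ^ (k + 1)) (2 ^ (n - (k + 1)) * Y₀) (26 * B * N * 2 ^ (k + 1)) L hLL hN1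
      (Nat.one_le_pow _ _ (by norm_num)) (Nat.mul_pos (by positivity) hY₀1) hM
      ((mul_le_mul_of_nonneg_right hKa (by linarith)).trans hl1) ((mul_le_mul_of_nonneg_right hKa (by linarith)).trans hl2) rfl
      (by
        rw [e1]
        refine lt_of_le_of_lt ?_ hZbig
        apply Nat.mul_le_mul_left
        exact Nat.le_mul_of_pos_left _ hM) (by rw [e1]; exact hZNM) ι v hv hE
    rw [e1, ← hq] at key
    push_cast at key
    refine le_trans ?_ key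
    rw [hcnt]
    apply Nat.cast_le.2
    apply card_le_card
    intro t ht
    rw [mem_filter] at ht ⊢
    refine ⟨ht.1, ?_⟩
    rw [hFf]
    have e2 : (M : ℝ) * Fintype.card ι / 2 ^ (k + 1) = c * (1 / 2 : ℝ) ^ (k + 1) := by
      rw [hc, one_div_pow]
      ring
    rw [e2]
    exact mul_lt_mul_of_pos_left ht.2 hc0
  -- the low moment
  have hlowm : ∑ t ∈ range Z, f t ^ (2 * h) ≤ M * L ^ C * q := by
    have h1 := low_moment h hh v (B * N) Z M hZ1 hM hv hZbig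
    have h2 : ∑ t ∈ range Z, F (prod v M) ((t : ℝ) / Z) ^ (2 * h) = c ^ (2 * h) * ∑ t ∈ range Z, f t ^ (2 * h) := by
      rw [mul_sum]
      apply sum_congr rfl
      intro t _
      rw [hFf, mul_pow]
    rw [h2] at h1
    have h3 : (Z : ℝ) * En h v ≤ (Fintype.card ι : ℝ) ^ (2 * h) * (M * L ^ C * q) := by
      have h4 : (M : ℝ) * q = Z / N := by
        rw [hq]
        field_simp
      have h5 : (En h v : ℝ) ≤ L ^ C * (Fintype.card ι : ℝ) ^ (2 * h) / N := by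
        rw [le_div_iff₀ (by linarith)]
        exact hE
      calc (Z : ℝ) * En h v ≤ Z * (L ^ C * (Fintype.card ι : ℝ) ^ (2 * h) / N) := mul_le_mul_of_nonneg_left h5 (by linarith)
        _ = (Fintype.card ι : ℝ) ^ (2 * h) * (L ^ C * (Z / N)) := by ring
        _ = _ := by rw [← h4]; ring
    have h6 : c ^ (2 * h) * ∑ t ∈ range Z, f t ^ (2 * h) ≤ c ^ (2 * h) * (M * L ^ C * q) := by
      refine h1.trans ?_
      calc (M : ℝ) ^ (2 * h) * ((Z : ℝ) * En h v) ≤ (M : ℝ) ^ (2 * h) * ((Fintype.card ι : ℝ) ^ (2 * h) * (M * L ^ C * q)) :=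
            mul_le_mul_of_nonneg_left h3 (by positivity)
        _ = _ := by rw [hc, mul_pow]; ring
    exact le_of_mul_le_mul_left h6 (by positivity)
  -- the moment
  have hmom : ∑ t ∈ range Z, f t ^ (2 * h') ≤ L ^ (3 * C + (2 * C + 1) * K₀ + C + 1) * q := by
    have h1 : ∑ t ∈ range Z, f t ^ (2 * h') ≤ ∑ t ∈ range Z, (∑ k ∈ range n, ((1 / 2 : ℝ) ^ k) ^ (2 * h') *
        (if (1 / 2 : ℝ) ^ (k + 1) < f t then 1 else 0) + ((1 / 2 : ℝ) ^ n) ^ (2 * h' - 2 * h) * f t ^ (2 * h)) :=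
      sum_le_sum fun t _ => layers (f t) (hf0 t) (hf1 t) (2 * h') (2 * h) n (by omega)
    rw [sum_add_distrib, sum_comm, ← mul_sum] at h1
    have h2 : ∑ k ∈ range n, ∑ t ∈ range Z, ((1 / 2 : ℝ) ^ k) ^ (2 * h') * (if (1 / 2 : ℝ) ^ (k + 1) < f t then 1 else 0) ≤
        ∑ k ∈ range n, (2 ^ A * c₁ * L ^ (3 * C) * q) * (1 / 2 : ℝ) ^ k := by
      apply sum_le_sum
      intro k hk
      rw [← mul_sum]
      have e1 : ∑ t ∈ range Z, (if (1 / 2 : ℝ) ^ (k + 1) < f t then (1 : ℝ) else 0) = cnt k := by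
        rw [hcnt, card_filter]
        push_cast
        rfl
      rw [e1]
      have e2 := mul_le_mul_of_nonneg_left (hcb k hk) (by positivity : (0 : ℝ) ≤ ((1 / 2 : ℝ) ^ k) ^ (2 * h'))
      refine e2.trans ?_
      have e3 : ((1 / 2 : ℝ) ^ k) ^ (2 * h') * ((2 : ℝ) ^ (k + 1)) ^ A ≤ 2 ^ A * (1 / 2 : ℝ) ^ k := by
        have e4 : (2 : ℝ) ^ (k + 1) = 2 * 2 ^ k := by rw [pow_succ]; ring
        have e5 : ((1 / 2 : ℝ) ^ k) ^ (2 * h') = ((1 / 2 : ℝ) ^ k) ^ A * ((1 / 2 : ℝ) ^ k) ^ (2 * h' - A) := by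
          rw [← pow_add]
          congr 1
          omega
        have e6 : ((1 / 2 : ℝ) ^ k) ^ A * ((2 : ℝ) ^ k) ^ A = 1 := by
          rw [← mul_pow, ← mul_pow]
          norm_num
        have e7 : ((1 / 2 : ℝ) ^ k) ^ (2 * h' - A) ≤ (1 / 2 : ℝ) ^ k := by
          have h8 : (1 / 2 : ℝ) ^ k ≤ 1 := pow_le_one₀ (by norm_num) (by norm_num)
          exact pow_le_of_le_one (by positivity) h8 (by omega)
        calc ((1 / 2 : ℝ) ^ k) ^ (2 * h') * ((2 : ℝ) ^ (k + 1)) ^ A =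
            2 ^ A * (((1 / 2 : ℝ) ^ k) ^ A * ((2 : ℝ) ^ k) ^ A) * ((1 / 2 : ℝ) ^ k) ^ (2 * h' - A) := by
              rw [e4, mul_pow, e5]
              ring
          _ = 2 ^ A * ((1 / 2 : ℝ) ^ k) ^ (2 * h' - A) := by rw [e6, mul_one]
          _ ≤ _ := mul_le_mul_of_nonneg_left e7 (by positivity)
      calc ((1 / 2 : ℝ) ^ k) ^ (2 * h') * (c₁ * ((2 : ℝ) ^ (k + 1)) ^ A * L ^ (3 * C) * q) =
          (((1 / 2 : ℝ) ^ k) ^ (2 * h') * ((2 : ℝ) ^ (k + 1)) ^ A) * (c₁ * L ^ (3 * C) * q) := by ring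
        _ ≤ (2 ^ A * (1 / 2 : ℝ) ^ k) * (c₁ * L ^ (3 * C) * q) := mul_le_mul_of_nonneg_right e3 (by positivity)
        _ = _ := by ring
    rw [← mul_sum] at h2
    have h3 : (2 ^ A * c₁ * L ^ (3 * C) * q) * ∑ k ∈ range n, (1 / 2 : ℝ) ^ k ≤ (2 ^ A * c₁ * L ^ (3 * C) * q) * 2 :=
      mul_le_mul_of_nonneg_left (geom_half n) (by positivity)
    have h4 : ((1 / 2 : ℝ) ^ n) ^ (2 * h' - 2 * h) * M ≤ 2 ^ (a * K₀) * L ^ ((2 * C + 1) * K₀) := by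
      have e1 : (M : ℝ) ≤ (2 ^ n) ^ (a * K₀) * (2 ^ (a * K₀) * L ^ ((2 * C + 1) * K₀)) := by
        refine hup.trans (le_of_eq ?_)
        rw [mul_pow, ← pow_mul, ← pow_mul, ← pow_mul, ← mul_assoc, ← pow_add]
        congr 2
        ring
      have e2 : ((1 / 2 : ℝ) ^ n) ^ (2 * h' - 2 * h) ≤ ((1 / 2 : ℝ) ^ n) ^ (a * K₀) :=
        pow_le_pow_of_le_one (by positivity) (pow_le_one₀ (by norm_num) (by norm_num)) (by omega)
      have e3 : ((1 / 2 : ℝ) ^ n) ^ (a * K₀) * (2 ^ n) ^ (a * K₀) = 1 := by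
        rw [← mul_pow, ← mul_pow]
        norm_num
      calc ((1 / 2 : ℝ) ^ n) ^ (2 * h' - 2 * h) * M ≤
          ((1 / 2 : ℝ) ^ n) ^ (a * K₀) * ((2 ^ n) ^ (a * K₀) * (2 ^ (a * K₀) * L ^ ((2 * C + 1) * K₀))) :=
            mul_le_mul e2 e1 (by linarith) (by positivity)
        _ = (((1 / 2 : ℝ) ^ n) ^ (a * K₀) * (2 ^ n) ^ (a * K₀)) * (2 ^ (a * K₀) * L ^ ((2 * C + 1) * K₀)) := by ring
        _ = _ := by rw [e3, one_mul]
    have h5 : ((1 / 2 : ℝ) ^ n) ^ (2 * h' - 2 * h) * ∑ t ∈ range Z, f t ^ (2 * h) ≤ 2 ^ (a * K₀) * L ^ ((2 * C + 1) * K₀) * (L ^ C * q) := by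
      calc ((1 / 2 : ℝ) ^ n) ^ (2 * h' - 2 * h) * ∑ t ∈ range Z, f t ^ (2 * h) ≤
          ((1 / 2 : ℝ) ^ n) ^ (2 * h' - 2 * h) * (M * L ^ C * q) := mul_le_mul_of_nonneg_left hlowm (by positivity)
        _ = (((1 / 2 : ℝ) ^ n) ^ (2 * h' - 2 * h) * M) * (L ^ C * q) := by ring
        _ ≤ _ := mul_le_mul_of_nonneg_right h4 (by positivity)
    have e8 : L ^ (3 * C) ≤ L ^ (3 * C + (2 * C + 1) * K₀ + C) := pow_le_pow_right₀ hL1 (by omega)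
    have e9 : L ^ ((2 * C + 1) * K₀) * L ^ C ≤ L ^ (3 * C + (2 * C + 1) * K₀ + C) := by
      rw [← pow_add]
      exact pow_le_pow_right₀ hL1 (by omega)
    calc ∑ t ∈ range Z, f t ^ (2 * h') ≤ (2 ^ A * c₁ * L ^ (3 * C) * q) * 2 +
        2 ^ (a * K₀) * L ^ ((2 * C + 1) * K₀) * (L ^ C * q) := by
          refine h1.trans (add_le_add ?_ h5)
          exact h2.trans h3
      _ = (2 ^ (A + 1) * c₁ * L ^ (3 * C) + 2 ^ (a * K₀) * (L ^ ((2 * C + 1) * K₀) * L ^ C)) * q := by ring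
      _ ≤ (2 ^ (A + 1) * c₁ * L ^ (3 * C + (2 * C + 1) * K₀ + C) + 2 ^ (a * K₀) * L ^ (3 * C + (2 * C + 1) * K₀ + C)) * q := by
          apply mul_le_mul_of_nonneg_right _ hq0.le
          exact add_le_add (mul_le_mul_of_nonneg_left e8 (by positivity)) (mul_le_mul_of_nonneg_left e9 (by positivity))
      _ = (2 ^ (A + 1) * c₁ + 2 ^ (a * K₀)) * L ^ (3 * C + (2 * C + 1) * K₀ + C) * q := by ring
      _ ≤ L * L ^ (3 * C + (2 * C + 1) * K₀ + C) * q := by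
          apply mul_le_mul_of_nonneg_right _ hq0.le
          exact mul_le_mul_of_nonneg_right hLc (by positivity)
      _ = _ := by rw [pow_succ (L) (3 * C + (2 * C + 1) * K₀ + C)]; ring
  have hfin := En_le_moment h' (prod v M) Z hZ1
  have h2 : ∑ t ∈ range Z, F (prod v M) ((t : ℝ) / Z) ^ (2 * h') = c ^ (2 * h') * ∑ t ∈ range Z, f t ^ (2 * h') := by
    rw [mul_sum]
    apply sum_congr rfl
    intro t _
    rw [hFf, mul_pow]
  rw [h2] at hfin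
  rw [hcard]
  have h3 : (Z : ℝ) * En h' (prod v M) ≤ c ^ (2 * h') * (L ^ (3 * C + (2 * C + 1) * K₀ + C + 1) * q) :=
    hfin.trans (mul_le_mul_of_nonneg_left hmom (by positivity))
  have h4 : (Z : ℝ) * ((En h' (prod v M) : ℝ) * ((N * M : ℕ) : ℝ)) ≤ Z * (L ^ (3 * C + (2 * C + 1) * K₀ + C + 1) * c ^ (2 * h')) := by
    have e1 : q * (N * M) = Z := by rw [hq]; field_simp
    calc (Z : ℝ) * ((En h' (prod v M) : ℝ) * ((N * M : ℕ) : ℝ)) = ((Z : ℝ) * En h' (prod v M)) * (N * M) := by push_cast; ring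
      _ ≤ (c ^ (2 * h') * (L ^ (3 * C + (2 * C + 1) * K₀ + C + 1) * q)) * (N * M) := mul_le_mul_of_nonneg_right h3 (by positivity)
      _ = c ^ (2 * h') * L ^ (3 * C + (2 * C + 1) * K₀ + C + 1) * (q * (N * M)) := by ring
      _ = _ := by rw [e1]; ring
  exact le_of_mul_le_mul_left h4 (by linarith)

end Pool.Agent.T9h51.PE
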