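import Pool.Agent.T9h51.PE.NoDiv
import Pool.Agent.T9h51.ME.Gen
import Pool.Agent.T9h57.GL.B3
import Pool.Agent.R459.Nbhd

/-!
# Goldbach representations of the multiples of the integers near almost all members of a family of nearly minimal energy,
# at all heights
-/

set_option autoImplicit false

namespace Pool.Agent.T9h51.PE.Gold

open Finset
open Pool.Agent.TH212.EH (En)

/-- the even multiples of `q` up to `x` without the property `R` -/
def exc (R : ℕ → Prop) (x : ℝ) (q : ℕ) : Set ℕ := {n : ℕ | 0 < n ∧ (n : ℝ) ≤ x ∧ 2 ∣ n ∧ q ∣ n ∧ ¬ R n}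

lemma exc_finite (R : ℕ → Prop) (x : ℝ) (q : ℕ) : (exc R x q).Finite := by
  apply (Set.finite_Iic ⌊x⌋₊).subset
  rintro n ⟨h1, h2, _⟩
  exact Nat.le_floor h2

/-- few exceptional even multiples at all heights, for all the integers `q` near `v` -/
def Good (R : ℕ → Prop) (A W : ℕ) (L : ℝ) (v : ℤ) : Prop := ∀ q : ℕ, 1 ≤ q → |(q : ℝ) - v| ≤ L ^ W → ∀ x : ℝ, 0 < x →
  ((exc R x q).ncard : ℝ) ≤ x / (q * L ^ A)

lemma Good.anti {R : ℕ → Prop} {A W : ℕ} (L L' : ℝ) (v : ℤ) (hL : 1 ≤ L) (hLL : L ≤ L') (h : Good R A W L' v) : Good R A W L v := by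
  intro q hq1 hq2 x hx
  have hq0 : (0 : ℝ) < q := by exact_mod_cast hq1
  refine (h q hq1 (hq2.trans (pow_le_pow_left₀ (by linarith) hLL _)) x hx).trans ?_
  apply div_le_div_of_nonneg_left hx.le (by positivity)
  exact mul_le_mul_of_nonneg_left (pow_le_pow_left₀ (by linarith) hLL _) hq0.le

lemma allEn (R : ℕ → Prop) (ε : ℝ) (hε : 0 < ε) (A₀ m₀ : ℕ)
    (hR : ∀ m : ℕ, m₀ ≤ m → 2 ∣ m → Pool.Agent.W93.PG.WinP ε A₀ m → R m) : AllEn (fun _ n => 2 ∣ n → R n) := by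
  classical
  intro h B C U hh
  obtain ⟨N₀, h0⟩ := Pool.Agent.R459.near_even h A₀ B C 0 U m₀ hh ε hε R hR
  refine ⟨N₀, fun N hN ι _ v hv hE => ?_⟩
  apply h0 N hN ι v (fun i => (le_abs_self _).trans (hv i)) hE
  intro i hi
  rw [mem_filter] at hi
  obtain ⟨_, n, hn1, hn2, hn3⟩ := hi
  push Not at hn3
  refine ⟨n, hn1, even_iff_two_dvd.2 hn3.1, ?_, hn3.2⟩
  rw [hn2, sub_self]
  simp

/-- the range of small heights -/
lemma low (R : ℕ → Prop) (A W N : ℕ) (v : ℤ) (hN : 2 ≤ N) (hL : 2 ≤ Real.log N)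
    (h : GoodM (fun _ n => 2 ∣ n → R n) (A + 1) 3 W N v) (q : ℕ) (hq1 : 1 ≤ q) (hq2 : |(q : ℝ) - v| ≤ Real.log N ^ W)
    (x : ℝ) (hx0 : 0 < x) (hx : x ≤ (N : ℝ) ^ 2) : ((exc R x q).ncard : ℝ) ≤ x / (q * Real.log N ^ A) := by
  classical
  obtain ⟨L, hLd⟩ : ∃ L, L = Real.log (N : ℝ) := ⟨_, rfl⟩
  have h' := h q hq1 hq2
  rw [← hLd] at hL h' ⊢
  have hq0 : (0 : ℝ) < q := by exact_mod_cast hq1
  have hL0 : 0 < L := by linarith
  rcases lt_or_ge x q with hxq | hxq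
  · have e : exc R x q = ∅ := by
      apply Set.eq_empty_of_forall_notMem
      rintro n ⟨h1, h2, _, h3, _⟩
      have h4 : (q : ℝ) ≤ n := by exact_mod_cast Nat.le_of_dvd h1 h3
      linarith
    rw [e, Set.ncard_empty, Nat.cast_zero]
    positivity
  obtain ⟨m, hm⟩ : ∃ m, m = ⌊x / q⌋₊ := ⟨_, rfl⟩
  have hxq1 : 1 ≤ x / q := by
    rw [le_div_iff₀ hq0]
    linarith
  have hm1 : 1 ≤ m := by
    rw [hm]
    exact Nat.le_floor (by exact_mod_cast hxq1)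
  have hmx : (m : ℝ) ≤ x / q := by
    rw [hm]
    exact Nat.floor_le (by positivity)
  obtain ⟨j, hj⟩ : ∃ j, j = Nat.clog 2 m := ⟨_, rfl⟩
  have hmj : m ≤ 2 ^ j := by
    rw [hj]
    exact Nat.le_pow_clog (by norm_num) m
  have hjm : 2 ^ j ≤ 2 * m := by
    rcases Nat.lt_or_ge 1 m with h1 | h1
    · have h2 := Nat.pow_pred_clog_lt_self (b := 2) (by norm_num) h1
      rw [← hj] at h2
      have h3 : 1 ≤ j := by
        rw [hj]
        exact Nat.clog_pos (by norm_num) h1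
      have h4 : 2 ^ j = 2 ^ (j.pred) * 2 := by
        rw [← pow_succ]
        congr 1
        exact (Nat.succ_pred_eq_of_pos h3).symm
      omega
    · have h2 : m = 1 := le_antisymm h1 hm1
      have h3 : j = 0 := by rw [hj, h2, Nat.clog_one_right]
      rw [h3]
      omega
  have hmN : m ≤ N ^ 2 := by
    have h1 : (m : ℝ) ≤ (N : ℝ) ^ 2 := by
      refine hmx.trans ((div_le_self hx0.le ?_).trans hx)
      exact_mod_cast hq1
    exact_mod_cast h1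
  have hjN : 2 ^ j ≤ N ^ 3 := by
    calc 2 ^ j ≤ 2 * m := hjm
      _ ≤ N * N ^ 2 := Nat.mul_le_mul hN hmN
      _ = N ^ 3 := by ring
  have key := h' j hjN
  have hsub : (exc R x q).ncard ≤ ((Icc 1 (2 ^ j)).filter (fun m => ¬ (2 ∣ m * q → R (m * q)))).card := by
    rw [← Set.ncard_coe_finset]
    have h1 : exc R x q ⊆ (fun m => m * q) '' (((Icc 1 (2 ^ j)).filter (fun m => ¬ (2 ∣ m * q → R (m * q))) : Finset ℕ) : Set ℕ) := by
      rintro n ⟨h1, h2, h3, ⟨a, rfl⟩, h5⟩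
      refine ⟨a, ?_, mul_comm _ _⟩
      have ha1 : 1 ≤ a := by
        rcases Nat.eq_zero_or_pos a with rfl | h0
        · simp at h1
        · exact h0
      have ha2 : a ≤ m := by
        rw [hm]
        apply Nat.le_floor
        rw [le_div_iff₀ hq0]
        push_cast at h2
        linarith
      rw [mem_coe, mem_filter, mem_Icc, mul_comm a q]
      refine ⟨⟨ha1, ha2.trans hmj⟩, ?_⟩
      push Not
      exact ⟨h3, h5⟩
    exact (Set.ncard_le_ncard h1 (Set.Finite.image _ (finite_toSet _))).trans (Set.ncard_image_le (finite_toSet _))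
  calc ((exc R x q).ncard : ℝ) ≤ (((Icc 1 (2 ^ j)).filter (fun m => ¬ (2 ∣ m * q → R (m * q)))).card : ℝ) := by exact_mod_cast hsub
    _ ≤ 2 ^ j / L ^ (A + 1) := by convert key
    _ ≤ (2 * (x / q)) / L ^ (A + 1) := by
        apply div_le_div_of_nonneg_right _ (by positivity)
        have h1 : (2 : ℝ) ^ j ≤ 2 * m := by exact_mod_cast hjm
        linarith
    _ = x / (q * L ^ A) * (2 / L) := by
        rw [pow_succ]
        field_simp
    _ ≤ x / (q * L ^ A) * 1 := by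
        apply mul_le_mul_of_nonneg_left _ (by positivity)
        rw [div_le_one hL0]
        exact hL
    _ = _ := mul_one _

/-- the range of large heights -/
lemma high (R : ℕ → Prop) (A B W N : ℕ) (v : ℤ) (D : ℕ → Finset ℕ) (hN : (B + 1) ^ 6 + 2 ≤ N) (hL : 2 ≤ Real.log N)
    (hv : |v| ≤ B * N) (hWN : Real.log N ^ W ≤ N)
    (hD : ∀ t : ℕ, N ≤ 2 ^ t → ∀ q : ℕ, 1 ≤ q → (q : ℝ) ≤ ((2 : ℝ) ^ t) ^ (2 / 3 - 1 / 12 : ℝ) → (∀ d ∈ D t, ¬ d ∣ q) →
      ((exc R (2 ^ t) q).ncard : ℝ) ≤ 2 ^ t / (q * Real.log (2 ^ t) ^ (A + 1)))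
    (q : ℕ) (hq1 : 1 ≤ q) (hq2 : |(q : ℝ) - v| ≤ Real.log N ^ W) (hq3 : ∀ t : ℕ, N ≤ 2 ^ t → ∀ d ∈ D t, ¬ d ∣ q)
    (x : ℝ) (hx : (N : ℝ) ^ 2 < x) : ((exc R x q).ncard : ℝ) ≤ x / (q * Real.log N ^ A) := by
  obtain ⟨L, hLd⟩ : ∃ L, L = Real.log (N : ℝ) := ⟨_, rfl⟩
  rw [← hLd] at hL hWN hq2 ⊢
  have hq0 : (0 : ℝ) < q := by exact_mod_cast hq1
  have hL0 : 0 < L := by linarith
  have hN2 : 2 ≤ N := by omega
  have hNr : (2 : ℝ) ≤ N := by exact_mod_cast hN2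
  have hN0 : (0 : ℝ) < N := by linarith
  have hx4 : 4 < x := by nlinarith
  obtain ⟨X, hX⟩ : ∃ X, X = ⌈x⌉₊ := ⟨_, rfl⟩
  have hxX : x ≤ X := by rw [hX]; exact Nat.le_ceil x
  have hXx : (X : ℝ) < x + 1 := by rw [hX]; exact Nat.ceil_lt_add_one (by linarith)
  have hX1 : 1 < X := by
    have : (1 : ℝ) < X := by linarith
    exact_mod_cast this
  obtain ⟨t, ht⟩ : ∃ t, t = Nat.clog 2 X := ⟨_, rfl⟩
  have hXt : X ≤ 2 ^ t := by
    rw [ht]
    exact Nat.le_pow_clog (by norm_num) X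
  have hxt : x ≤ 2 ^ t := hxX.trans (by exact_mod_cast hXt)
  have htx : (2 : ℝ) ^ t ≤ 2 * x := by
    have h2 := Nat.pow_pred_clog_lt_self (b := 2) (by norm_num) hX1
    rw [← ht] at h2
    have h3 : 1 ≤ t := by
      rw [ht]
      exact Nat.clog_pos (by norm_num) hX1
    have h4 : 2 ^ t = 2 ^ (t.pred) * 2 := by
      rw [← pow_succ]
      congr 1
      exact (Nat.succ_pred_eq_of_pos h3).symm
    have h5 : 2 ^ (t.pred) + 1 ≤ X := h2
    have h6 : ((2 ^ (t.pred) : ℕ) : ℝ) + 1 ≤ X := by exact_mod_cast h5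
    have h7 : (2 : ℝ) ^ t = ((2 ^ (t.pred) : ℕ) : ℝ) * 2 := by exact_mod_cast h4
    rw [h7]
    linarith
  have hNt : N ≤ 2 ^ t := by
    have h1 : (N : ℝ) ≤ ((2 ^ t : ℕ) : ℝ) := by
      push_cast
      nlinarith
    exact_mod_cast h1
  have hqN : (q : ℝ) ≤ (B + 1) * N := by
    have e1 := (abs_le.1 hq2).2
    have e2 : (v : ℝ) ≤ B * N := by
      have := (le_abs_self v).trans hv
      exact_mod_cast this
    linarith
  have hq4 : (q : ℝ) ≤ ((2 : ℝ) ^ t) ^ (2 / 3 - 1 / 12 : ℝ) := by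
    have h1 : ((N : ℝ) ^ 2) ^ (2 / 3 - 1 / 12 : ℝ) ≤ ((2 : ℝ) ^ t) ^ (2 / 3 - 1 / 12 : ℝ) :=
      Real.rpow_le_rpow (by positivity) (by linarith) (by norm_num)
    refine le_trans ?_ h1
    have h2 : ((N : ℝ) ^ 2) ^ (2 / 3 - 1 / 12 : ℝ) = (N : ℝ) ^ (1 / 6 : ℝ) * N := by
      rw [← Real.rpow_natCast, ← Real.rpow_mul hN0.le]
      nth_rewrite 3 [← Real.rpow_one (N : ℝ)]
      rw [← Real.rpow_add hN0]
      norm_num
    rw [h2]
    refine hqN.trans (mul_le_mul_of_nonneg_right ?_ hN0.le)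
    have h3 : ((B : ℝ) + 1) = (((B : ℝ) + 1) ^ 6) ^ (1 / 6 : ℝ) := by
      rw [← Real.rpow_natCast, ← Real.rpow_mul (by positivity)]
      norm_num
    rw [h3]
    apply Real.rpow_le_rpow (by positivity) _ (by norm_num)
    have h4 : (B + 1) ^ 6 ≤ N := by omega
    exact_mod_cast h4
  have key := hD t hNt q hq1 hq4 (hq3 t hNt)
  have hsub : exc R x q ⊆ exc R (2 ^ t) q := by
    rintro n ⟨h1, h2, h3⟩
    exact ⟨h1, h2.trans hxt, h3⟩
  have hlog : L ≤ Real.log (2 ^ t) := by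
    rw [hLd]
    apply Real.log_le_log hN0
    exact_mod_cast hNt
  calc ((exc R x q).ncard : ℝ) ≤ ((exc R (2 ^ t) q).ncard : ℝ) := by
        exact_mod_cast Set.ncard_le_ncard hsub (exc_finite _ _ _)
    _ ≤ 2 ^ t / (q * Real.log (2 ^ t) ^ (A + 1)) := key
    _ ≤ (2 * x) / (q * L ^ (A + 1)) := by
        apply div_le_div₀ (by linarith) htx (by positivity)
        exact mul_le_mul_of_nonneg_left (pow_le_pow_left₀ hL0.le hlog _) hq0.le
    _ = x / (q * L ^ A) * (2 / L) := by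
        rw [pow_succ]
        field_simp
    _ ≤ x / (q * L ^ A) * 1 := by
        apply mul_le_mul_of_nonneg_left _ (by positivity)
        rw [div_le_one hL0]
        exact hL
    _ = _ := mul_one _

open Classical in
/-- **All heights.** -/
theorem all_x (R : ℕ → Prop) (ε : ℝ) (hε : 0 < ε) (A₀ m₀ : ℕ)
    (hR : ∀ m : ℕ, m₀ ≤ m → 2 ∣ m → Pool.Agent.W93.PG.WinP ε A₀ m → R m) (A W U : ℕ) :
    Pool.Agent.T9h51.ME.Gen.AllG (Good R A W) U := by
  intro h B C hh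
  obtain ⟨N₁, h1⟩ := multiples _ (allEn R ε hε A₀ m₀ hR) h B C (A + 1) 3 (U + 1) W hh
  obtain ⟨c, hc⟩ := Pool.Agent.T9h57.GL.class_few_asymp R ε hε A₀ ⟨m₀, hR⟩ (1 / 12) (by norm_num) (A + 1)
  obtain ⟨T, hT⟩ := no_divisors h B C (U + 1) W c hh
  obtain ⟨x₀, hx⟩ := hc T
  choose D hD1 hD2 hD3 using hx
  obtain ⟨t₁, ht₁⟩ := pow_unbounded_of_one_lt x₀ (by norm_num : (1 : ℝ) < 2)
  obtain ⟨t₀, ht₀⟩ : ∃ t₀, t₀ = t₁ + 2 := ⟨_, rfl⟩
  have hge : ∀ t : ℕ, t₀ ≤ t → x₀ ≤ (2 : ℝ) ^ t := fun t ht =>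
    ht₁.le.trans (pow_le_pow_right₀ (by norm_num) (by omega))
  obtain ⟨D', hD'⟩ : ∃ D' : ℕ → Finset ℕ, ∀ t, D' t = if ht : x₀ ≤ (2 : ℝ) ^ t then D (2 ^ t) ht else ∅ := ⟨_, fun _ => rfl⟩
  obtain ⟨N₂, h2⟩ := hT t₀
  have hlt : ∀ t : ℕ, Real.log ((2 : ℝ) ^ t) = (t : ℝ) * Real.log 2 := fun t => Real.log_pow 2 t
  have h2' := h2 D' (fun t ht => by
    rw [hD', dif_pos (hge t ht), ← hlt]
    refine ⟨hD1 _ _, fun d hd => ?_⟩
    have e1 := hD2 _ _ d hd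
    refine e1.trans_le ?_
    have e2 : 1 ≤ Real.log ((2 : ℝ) ^ t) := by
      rw [hlt]
      have e3 := Real.log_two_gt_d9
      have e4 : (2 : ℝ) ≤ t := by exact_mod_cast (by omega : 2 ≤ t)
      nlinarith
    have e5 : d ≠ 0 := by
      rintro rfl
      have e6 : ((Pool.Agent.T9h57.PK.rad 0 : ℕ) : ℝ) = 1 := by
        unfold Pool.Agent.T9h57.PK.rad
        simp
      rw [e6] at e1
      exact absurd (one_le_pow₀ e2) (not_le.2 e1)
    have e7 : Pool.Agent.T9h57.PK.rad d ≤ d := Nat.le_of_dvd (Nat.pos_of_ne_zero e5) (Nat.prod_primeFactors_dvd d)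
    exact_mod_cast e7)
  obtain ⟨N₃, hlog⟩ := Pool.Agent.H373R2.T7.ev_L' 2
  obtain ⟨N₄, hpow⟩ := Pool.Agent.H373R2.T7.ev_log' W 1
  obtain ⟨P₀, hP₀⟩ : ∃ P₀ : ℕ, P₀ = 2 ^ t₀ := ⟨_, rfl⟩
  obtain ⟨B₀, hB₀⟩ : ∃ B₀ : ℕ, B₀ = (B + 1) ^ 6 := ⟨_, rfl⟩
  refine ⟨N₁ + N₂ + N₃ + N₄ + P₀ + B₀ + 2, fun N hN ι _ v hv hE => ?_⟩
  have hL := hlog N (by omega)
  have hWs := hpow N (by omega)
  rw [one_mul] at hWs
  have hNr : (2 : ℝ) ≤ N := by exact_mod_cast (by omega : 2 ≤ N)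
  have hWN : Real.log N ^ W ≤ N := by
    refine hWs.trans ?_
    rw [Real.sqrt_le_left (by linarith)]
    nlinarith
  have k1 := h1 N (by omega) ι v hv hE
  have k2 := h2' N (by omega) ι v hv hE
  have hL0 : 0 < Real.log (N : ℝ) := by linarith
  have hsub : univ.filter (fun i => ¬ Good R A W (Real.log N) (v i)) ⊆
      univ.filter (fun i => ¬ GoodM (fun _ n => 2 ∣ n → R n) (A + 1) 3 W N (v i)) ∪
      univ.filter (fun i => ∃ q : ℕ, 1 ≤ q ∧ |(q : ℝ) - v i| ≤ Real.log N ^ W ∧ ∃ t : ℕ, N ≤ 2 ^ t ∧ ∃ d ∈ D' t, d ∣ q) := by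
    intro i hi
    rw [mem_filter] at hi
    rw [mem_union, mem_filter, mem_filter]
    by_contra hcon
    push Not at hcon
    obtain ⟨c1, c2⟩ := hcon
    apply hi.2
    intro q hq1 hq2 x hx0
    rcases le_or_gt x ((N : ℝ) ^ 2) with hxN | hxN
    · exact low R A W N (v i) (by omega) hL (c1 (mem_univ _)) q hq1 hq2 x hx0 hxN
    · refine high R A B W N (v i) D' (by omega) hL (hv i) hWN ?_ q hq1 hq2 (fun t ht d hd =>
        c2 (mem_univ _) q hq1 hq2 t ht d hd) x hxN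
      intro t ht q hq1 hq2 hq3
      have htt : t₀ ≤ t := by
        have e1 : 2 ^ t₀ ≤ 2 ^ t := by
          rw [← hP₀]
          exact le_trans (by omega) ht
        exact (Nat.pow_le_pow_iff_right (by norm_num)).1 e1
      rw [hD', dif_pos (hge t htt)] at hq3
      have e1 := (hD3 _ (hge t htt) q hq1 hq2 hq3 0).2
      refine le_trans (le_of_eq ?_) e1
      congr 2
      ext n
      unfold exc
      simp only [Set.mem_ofPred_eq, Int.modEq_zero_iff_dvd, Int.natCast_dvd_natCast]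
  have hcr : (0 : ℝ) ≤ Fintype.card ι := Nat.cast_nonneg _
  calc ((univ.filter (fun i => ¬ Good R A W (Real.log N) (v i))).card : ℝ) ≤
        ((univ.filter (fun i => ¬ GoodM (fun _ n => 2 ∣ n → R n) (A + 1) 3 W N (v i))).card : ℝ) +
        ((univ.filter (fun i => ∃ q : ℕ, 1 ≤ q ∧ |(q : ℝ) - v i| ≤ Real.log N ^ W ∧ ∃ t : ℕ, N ≤ 2 ^ t ∧
          ∃ d ∈ D' t, d ∣ q)).card : ℝ) := by
        exact_mod_cast (card_le_card hsub).trans (card_union_le _ _)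
    _ ≤ Fintype.card ι / Real.log N ^ (U + 1) + Fintype.card ι / Real.log N ^ (U + 1) := add_le_add k1 k2
    _ = Fintype.card ι / Real.log N ^ U * (2 / Real.log N) := by
        rw [pow_succ]
        field_simp
        ring
    _ ≤ Fintype.card ι / Real.log N ^ U * 1 := by
        apply mul_le_mul_of_nonneg_left _ (by positivity)
        rw [div_le_one hL0]
        exact hL
    _ = _ := mul_one _

end Pool.Agent.T9h51.PE.Gold
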