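import Pool.Agent.T9h51.PE.Count
import Pool.Agent.T9h51.ME.Fam

/-!
# The products of the members of a family of nearly minimal energy with the integers have nearly minimal energy
-/

set_option autoImplicit false

namespace Pool.Agent.T9h51.PE

open Finset
open Pool.Agent.H807R2.Dav
open Pool.Agent.TH212.EH (En)

/-- the number of the frequencies with large values, for one level -/
lemma level (h B C : ℕ) (hB : 1 ≤ B) : ∃ c₁ L₀ : ℝ, 0 < c₁ ∧ 1 ≤ L₀ ∧ ∀ N M K Y J : ℕ, ∀ L : ℝ, L₀ ≤ L → 1 ≤ N → 1 ≤ K → 1 ≤ Y → 1 ≤ M →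
    (K : ℝ) ^ (4 * h + 4) * L ^ (2 * C + 1) ≤ N → (K : ℝ) ^ (4 * h + 4) * L ^ (2 * C + 1) ≤ M → J = 26 * B * N * K →
    2 * h * (B * N) < J * Y → N * M ≤ J * Y → ∀ (ι : Type) [Fintype ι] [Nonempty ι] (v : ι → ℤ), (∀ i, |v i| ≤ (B * N : ℕ)) →
    (En h v : ℝ) * N ≤ L ^ C * (Fintype.card ι : ℝ) ^ (2 * h) →
    (((range (J * Y)).filter (fun t : ℕ => (M : ℝ) * Fintype.card ι / K < F (prod v M) ((t : ℝ) / ((J * Y : ℕ) : ℝ)))).card : ℝ) ≤
      c₁ * (K : ℝ) ^ (6 * h + 5) * L ^ (3 * C) * (((J * Y : ℕ) : ℝ) / (N * M)) := by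
  classical
  have hBr : (1 : ℝ) ≤ B := by exact_mod_cast hB
  refine ⟨262144 * (B : ℝ) ^ 3 * 4 ^ (6 * h + 3), 8192 * (B : ℝ) ^ 2 * 4 ^ (4 * h + 2), by positivity, ?_, ?_⟩
  · have h1 : (1 : ℝ) ≤ (B : ℝ) ^ 2 := one_le_pow₀ hBr
    have h2 : (1 : ℝ) ≤ 4 ^ (4 * h + 2) := one_le_pow₀ (by norm_num)
    nlinarith
  intro N M K Y J L hL0 hN hK hY hM hKN hKM hJ hZ hNM ι _ _ v hv hE
  have hNr : (1 : ℝ) ≤ N := by exact_mod_cast hN
  have hKr : (1 : ℝ) ≤ K := by exact_mod_cast hK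
  have hMr : (1 : ℝ) ≤ M := by exact_mod_cast hM
  have hYr : (1 : ℝ) ≤ Y := by exact_mod_cast hY
  have h4 : (1 : ℝ) ≤ 4 ^ (4 * h + 2) := one_le_pow₀ (by norm_num)
  have hB2 : (1 : ℝ) ≤ (B : ℝ) ^ 2 := one_le_pow₀ hBr
  have hL1 : 1 ≤ L := by nlinarith
  have hc0 : (0 : ℝ) < Fintype.card ι := by exact_mod_cast Fintype.card_pos
  obtain ⟨x, hx⟩ : ∃ x : ℝ, x = B * (4 * K) ^ (2 * h + 1) * L ^ C := ⟨_, rfl⟩
  have hx1 : 1 ≤ x := by
    rw [hx]
    have e1 : (1 : ℝ) ≤ (4 * (K : ℝ)) ^ (2 * h + 1) := one_le_pow₀ (by linarith)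
    have e2 : (1 : ℝ) ≤ L ^ C := one_le_pow₀ hL1
    have e3 : (1 : ℝ) ≤ B * (4 * (K : ℝ)) ^ (2 * h + 1) := by nlinarith
    nlinarith
  obtain ⟨R, hR⟩ : ∃ R : ℕ, R = ⌈7 * x⌉₊ := ⟨_, rfl⟩
  have hR1 : 7 * x ≤ R := by rw [hR]; exact Nat.le_ceil _
  have hR2 : (R : ℝ) ≤ 8 * x := by
    have : (R : ℝ) < 7 * x + 1 := by rw [hR]; exact Nat.ceil_lt_add_one (by linarith)
    linarith
  have hRr : (1 : ℝ) ≤ R := by linarith
  have hRn : 1 ≤ R := by exact_mod_cast hRr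
  obtain ⟨H, hH⟩ : ∃ H, H = 4 * K * (R + 1) := ⟨_, rfl⟩
  have hHr : (H : ℝ) ≤ 64 * K * x := by
    rw [hH]
    push_cast
    nlinarith
  have hHr1 : (1 : ℝ) ≤ H := by
    rw [hH]
    push_cast
    nlinarith
  -- the conditions
  have hx2 : (K : ℝ) ^ 2 * x ^ 2 = (B : ℝ) ^ 2 * 4 ^ (4 * h + 2) * ((K : ℝ) ^ (4 * h + 4) * L ^ (2 * C)) := by
    rw [hx]
    ring
  have hx3 : (K : ℝ) ^ 2 * x ^ 3 = (B : ℝ) ^ 3 * 4 ^ (6 * h + 3) * ((K : ℝ) ^ (6 * h + 5) * L ^ (3 * C)) := by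
    rw [hx]
    ring
  have hcond1 : (16 : ℝ) * K * H * R ≤ M := by
    calc (16 : ℝ) * K * H * R ≤ 16 * K * (64 * K * x) * (8 * x) := by
          apply mul_le_mul _ hR2 (by linarith) (by positivity)
          exact mul_le_mul_of_nonneg_left hHr (by positivity)
      _ = 8192 * ((K : ℝ) ^ 2 * x ^ 2) := by ring
      _ = (8192 * (B : ℝ) ^ 2 * 4 ^ (4 * h + 2)) * ((K : ℝ) ^ (4 * h + 4) * L ^ (2 * C)) := by rw [hx2]; ring
      _ ≤ L * ((K : ℝ) ^ (4 * h + 4) * L ^ (2 * C)) := mul_le_mul_of_nonneg_right hL0 (by positivity)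
      _ = (K : ℝ) ^ (4 * h + 4) * L ^ (2 * C + 1) := by ring
      _ ≤ M := hKM
  have hcond2 : (16 : ℝ) * K * R ≤ J := by
    have e1 : (J : ℝ) = 26 * B * N * K := by rw [hJ]; push_cast; ring
    have e2 : (R : ℝ) ≤ B * N := by
      refine hR2.trans ?_
      have e3 : 8 * x ≤ B * ((K : ℝ) ^ (4 * h + 4) * L ^ (2 * C + 1)) := by
        rw [hx, mul_pow]
        have f1 : (K : ℝ) ^ (2 * h + 1) ≤ (K : ℝ) ^ (4 * h + 4) := pow_le_pow_right₀ hKr (by omega)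
        have f2 : L ^ C ≤ L ^ (2 * C) := pow_le_pow_right₀ hL1 (by omega)
        have f3 : (8 : ℝ) * 4 ^ (2 * h + 1) ≤ L := by
          refine le_trans ?_ hL0
          have f4 : (4 : ℝ) ^ (2 * h + 1) ≤ 4 ^ (4 * h + 2) := pow_le_pow_right₀ (by norm_num) (by omega)
          nlinarith
        calc 8 * ((B : ℝ) * (4 ^ (2 * h + 1) * (K : ℝ) ^ (2 * h + 1)) * L ^ C) =
            B * ((8 * 4 ^ (2 * h + 1)) * ((K : ℝ) ^ (2 * h + 1) * L ^ C)) := by ring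
          _ ≤ B * (L * ((K : ℝ) ^ (4 * h + 4) * L ^ (2 * C))) := by
              apply mul_le_mul_of_nonneg_left _ (by positivity)
              apply mul_le_mul f3 _ (by positivity) (by linarith)
              exact mul_le_mul f1 f2 (by positivity) (by positivity)
          _ = _ := by ring
      exact e3.trans (mul_le_mul_of_nonneg_left hKN (by positivity))
    rw [e1]
    calc (16 : ℝ) * K * R ≤ 16 * K * (B * N) := mul_le_mul_of_nonneg_left e2 (by positivity)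
      _ ≤ 26 * K * (B * N) := by
          apply mul_le_mul_of_nonneg_right _ (by positivity)
          linarith
      _ = _ := by ring
  have hRE : J * (En h v : ℝ) ≤ R * ((Fintype.card ι : ℝ) / (4 * K)) ^ (2 * h) := by
    have e1 : (J : ℝ) = 26 * B * N * K := by rw [hJ]; push_cast; ring
    rw [e1, div_pow]
    have e2 : (26 : ℝ) * B * N * K * En h v ≤ 26 * B * K * (L ^ C * (Fintype.card ι : ℝ) ^ (2 * h)) := by
      calc (26 : ℝ) * B * N * K * En h v = 26 * B * K * ((En h v : ℝ) * N) := by ring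
        _ ≤ _ := mul_le_mul_of_nonneg_left hE (by positivity)
    refine e2.trans ?_
    have e3 : (26 : ℝ) * B * K * L ^ C * (4 * K) ^ (2 * h) ≤ R := by
      refine le_trans ?_ hR1
      rw [hx, pow_succ]
      have : (0 : ℝ) ≤ B * (4 * K) ^ (2 * h) * K * L ^ C := by positivity
      nlinarith
    have e4 : (0 : ℝ) < (4 * (K : ℝ)) ^ (2 * h) := by positivity
    have e5 : (0 : ℝ) ≤ (Fintype.card ι : ℝ) ^ (2 * h) := by positivity
    rw [← mul_div_assoc, le_div_iff₀ e4]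
    calc 26 * (B : ℝ) * K * (L ^ C * (Fintype.card ι : ℝ) ^ (2 * h)) * (4 * K) ^ (2 * h) =
        (26 * B * K * L ^ C * (4 * K) ^ (2 * h)) * (Fintype.card ι : ℝ) ^ (2 * h) := by ring
      _ ≤ _ := mul_le_mul_of_nonneg_right e3 e5
  have key := count h v B N K J Y R M H hB hN hK hY hv hJ hZ hRn hM hRE hH (by exact_mod_cast hcond1) (by exact_mod_cast hcond2)
  refine key.trans ?_
  -- simplify
  obtain ⟨q, hq⟩ : ∃ q : ℝ, q = ((J * Y : ℕ) : ℝ) / (N * M) := ⟨_, rfl⟩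
  have hq1 : 1 ≤ q := by
    rw [hq, le_div_iff₀ (by positivity), one_mul]
    exact_mod_cast hNM
  rw [← hq]
  have e1 : 64 * (K : ℝ) * R * Y / M ≤ 3 * R * q := by
    have e2 : (Y : ℝ) / M = q / (26 * B * K) := by
      rw [hq, hJ]
      push_cast
      field_simp
    have e3 : 64 * (K : ℝ) * R * Y / M = 64 * K * R * (Y / M) := by ring
    rw [e3, e2]
    have e4 : 64 * (K : ℝ) * R * (q / (26 * B * K)) = (64 / 26) * R * q * (1 / B) := by
      field_simp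
    rw [e4]
    have e5 : 1 / (B : ℝ) ≤ 1 := by rw [div_le_one (by linarith)]; exact hBr
    calc (64 / 26) * (R : ℝ) * q * (1 / B) ≤ (64 / 26) * (R : ℝ) * q * 1 :=
          mul_le_mul_of_nonneg_left e5 (by positivity)
      _ ≤ 3 * R * q := by
          have : (0 : ℝ) ≤ R * q := by positivity
          nlinarith
  have e6 : 64 * (K : ℝ) * R * Y / M + 1 ≤ 4 * R * q := by
    have : 1 ≤ (R : ℝ) * q := by nlinarith
    nlinarith
  have e7 : (H : ℝ) * (H + 1) ≤ 2 * H ^ 2 := by nlinarith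
  calc (H : ℝ) * (H + 1) * (64 * K * R * Y / M + 1) ≤ (2 * H ^ 2) * (4 * R * q) :=
        mul_le_mul e7 e6 (by positivity) (by positivity)
    _ ≤ (2 * (64 * K * x) ^ 2) * (4 * (8 * x) * q) := by
        apply mul_le_mul
        · exact mul_le_mul_of_nonneg_left (pow_le_pow_left₀ (by linarith) hHr 2) (by norm_num)
        · apply mul_le_mul_of_nonneg_right _ (by linarith)
          linarith
        · positivity
        · positivity
    _ = 262144 * ((K : ℝ) ^ 2 * x ^ 3) * q := by ring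
    _ = _ := by rw [hx3]; ring

/-- the moment of the order of the energy -/
lemma low_moment {ι : Type} [Fintype ι] [Nonempty ι] (h : ℕ) (hh : 1 ≤ h) (v : ι → ℤ) (R Z M : ℕ) (hZ : 1 ≤ Z) (hM : 1 ≤ M)
    (hR : ∀ i, |v i| ≤ R) (hRZ : 2 * h * (M * R) < Z) :
    ∑ t ∈ range Z, F (prod v M) ((t : ℝ) / Z) ^ (2 * h) ≤ (M : ℝ) ^ (2 * h) * (Z * En h v) := by
  have hMr : (0 : ℝ) < M := by exact_mod_cast hM
  obtain ⟨n, hn⟩ : ∃ n, 2 * h = n + 1 := ⟨2 * h - 1, by omega⟩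
  have h1 : ∀ t ∈ range Z, F (prod v M) ((t : ℝ) / Z) ^ (2 * h) ≤ (M : ℝ) ^ n * ∑ m ∈ Icc 1 M, F v ((m : ℝ) * ((t : ℝ) / Z)) ^ (2 * h) := by
    intro t _
    have h2 := pow_sum_div_card_le_sum_pow (s := Icc 1 M) (f := fun m : ℕ => F v ((m : ℝ) * ((t : ℝ) / Z)))
      (fun m _ => F_nonneg _ _) n
    rw [Nat.card_Icc, Nat.add_sub_cancel, div_le_iff₀ (by positivity)] at h2
    rw [hn]
    calc F (prod v M) ((t : ℝ) / Z) ^ (n + 1) ≤ (∑ m ∈ Icc 1 M, F v ((m : ℝ) * ((t : ℝ) / Z))) ^ (n + 1) :=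
          pow_le_pow_left₀ (F_nonneg _ _) (F_prod_le v M _) _
      _ ≤ _ := h2
      _ = _ := by ring
  refine (sum_le_sum h1).trans ?_
  rw [← mul_sum, sum_comm]
  have h2 : ∀ m ∈ Icc 1 M, ∑ t ∈ range Z, F v ((m : ℝ) * ((t : ℝ) / Z)) ^ (2 * h) ≤ Z * En h v := by
    intro m hm
    rw [mem_Icc] at hm
    have h3 := moment_le h (fun i => (m : ℤ) * v i) (M * R) Z hZ (by
      intro i
      rw [abs_mul, Nat.abs_cast]
      push_cast
      exact mul_le_mul (by exact_mod_cast hm.2) (hR i) (abs_nonneg _) (by positivity)) hRZ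
    rw [Pool.Agent.T9h51.ME.En_mul h v (m : ℤ) (by exact_mod_cast (by omega : m ≠ 0))] at h3
    refine le_trans (le_of_eq ?_) h3
    apply sum_congr rfl
    intro t _
    congr 1
    unfold F
    congr 1
    apply sum_congr rfl
    intro i _
    congr 1
    push_cast
    ring
  calc (M : ℝ) ^ n * ∑ m ∈ Icc 1 M, ∑ t ∈ range Z, F v ((m : ℝ) * ((t : ℝ) / Z)) ^ (2 * h) ≤
      (M : ℝ) ^ n * ∑ _m ∈ Icc 1 M, ((Z : ℝ) * En h v) := mul_le_mul_of_nonneg_left (sum_le_sum h2) (by positivity)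
    _ = _ := by
        rw [sum_const, Nat.card_Icc, Nat.add_sub_cancel, nsmul_eq_mul, hn]
        ring

/-- the layers of a function with values in `[0, 1]` -/
lemma layers (f : ℝ) (h0 : 0 ≤ f) (h1 : f ≤ 1) (p q n : ℕ) (hpq : q ≤ p) :
    f ^ p ≤ ∑ k ∈ range n, ((1 / 2 : ℝ) ^ k) ^ p * (if (1 / 2 : ℝ) ^ (k + 1) < f then 1 else 0) + ((1 / 2 : ℝ) ^ n) ^ (p - q) * f ^ q := by
  have hs : 0 ≤ ∑ k ∈ range n, ((1 / 2 : ℝ) ^ k) ^ p * (if (1 / 2 : ℝ) ^ (k + 1) < f then 1 else 0) := by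
    apply sum_nonneg
    intro k _
    split_ifs <;> positivity
  rcases le_or_gt f ((1 / 2 : ℝ) ^ n) with h | h
  · have e1 : f ^ p = f ^ (p - q) * f ^ q := by rw [← pow_add]; congr 1; omega
    have e2 : f ^ (p - q) ≤ ((1 / 2 : ℝ) ^ n) ^ (p - q) := pow_le_pow_left₀ h0 h _
    have e3 : f ^ p ≤ ((1 / 2 : ℝ) ^ n) ^ (p - q) * f ^ q := by
      rw [e1]
      exact mul_le_mul_of_nonneg_right e2 (by positivity)
    linarith
  · -- the first level
    have hex : ∃ k, (1 / 2 : ℝ) ^ (k + 1) < f := ⟨n, lt_of_le_of_lt (pow_le_pow_of_le_one (by norm_num) (by norm_num) (by omega)) h⟩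
    classical
    obtain ⟨k, hk1, hk2⟩ : ∃ k, (1 / 2 : ℝ) ^ (k + 1) < f ∧ f ≤ (1 / 2 : ℝ) ^ k := by
      refine ⟨Nat.find hex, Nat.find_spec hex, ?_⟩
      rcases Nat.eq_zero_or_pos (Nat.find hex) with h2 | h2
      · rw [h2, pow_zero]
        exact h1
      · have h3 := Nat.find_min hex (m := Nat.find hex - 1) (by omega)
        push Not at h3
        have h4 : Nat.find hex - 1 + 1 = Nat.find hex := by omega
        rw [h4] at h3
        exact h3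
    have hkn : k < n := by
      by_contra hcon
      push Not at hcon
      have h2 : (1 / 2 : ℝ) ^ k ≤ (1 / 2 : ℝ) ^ n := pow_le_pow_of_le_one (by norm_num) (by norm_num) hcon
      linarith
    have e1 : ((1 / 2 : ℝ) ^ k) ^ p ≤ ∑ k ∈ range n, ((1 / 2 : ℝ) ^ k) ^ p * (if (1 / 2 : ℝ) ^ (k + 1) < f then 1 else 0) := by
      have e2 := single_le_sum (f := fun k => ((1 / 2 : ℝ) ^ k) ^ p * (if (1 / 2 : ℝ) ^ (k + 1) < f then 1 else 0))
        (s := range n) (fun k _ => by split_ifs <;> positivity) (mem_range.2 hkn)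
      rw [if_pos hk1, mul_one] at e2
      exact e2
    have e3 : f ^ p ≤ ((1 / 2 : ℝ) ^ k) ^ p := pow_le_pow_left₀ h0 hk2 _
    have e4 : 0 ≤ ((1 / 2 : ℝ) ^ n) ^ (p - q) * f ^ q := by positivity
    linarith

end Pool.Agent.T9h51.PE
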