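import Pool.Agent.T9h51.PE.Mult

/-!
# Almost all multiples: the property may depend on the parameters of the family
-/

set_option autoImplicit false

namespace Pool.Agent.T9h51.PE

open Finset
open Pool.Agent.TH212.EH (En)

open Classical in
/-- the property (which may depend on the scale) holds for almost all members of all families of nearly minimal energy, for
the given parameters -/
def HoldsEn (P : ℕ → ℕ → Prop) (h B C U : ℕ) : Prop := ∃ N₀ : ℕ, ∀ N : ℕ, N₀ ≤ N → ∀ (ι : Type) [Fintype ι] (v : ι → ℤ),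
    (∀ i, |v i| ≤ B * N) → (En h v : ℝ) * N ≤ Real.log N ^ C * (Fintype.card ι : ℝ) ^ (2 * h) →
    ((univ.filter (fun i => ∃ n : ℕ, 0 < n ∧ (n : ℤ) = v i ∧ ¬ P N n)).card : ℝ) ≤ Fintype.card ι / Real.log N ^ U

open Classical in
/-- **Almost all multiples.** -/
theorem multiples_core (h B C A K U W : ℕ) (hh : 1 ≤ h) : ∃ h' C' : ℕ, 1 ≤ h' ∧ ∀ P : ℕ → ℕ → Prop,
    HoldsEn P h' (B + 1) C' (A + (U + W + 4)) → ∃ N₀ : ℕ, ∀ N : ℕ, N₀ ≤ N →
    ∀ (ι : Type) [Fintype ι] (v : ι → ℤ), (∀ i, |v i| ≤ B * N) →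
    (En h v : ℝ) * N ≤ Real.log N ^ C * (Fintype.card ι : ℝ) ^ (2 * h) →
    ((univ.filter (fun i => ¬ GoodM P A K W N (v i))).card : ℝ) ≤ Fintype.card ι / Real.log N ^ U := by
  obtain ⟨h', C', N₁, hh', hprod⟩ := prod_energy h (B + 1) C (K + 1) hh (by omega) (by omega)
  refine ⟨h', C', hh', fun P hP => ?_⟩
  obtain ⟨N₂, hall⟩ := hP
  obtain ⟨N₃, hlog⟩ := Pool.Agent.H373R2.T7.ev_L' (4 * K + 4)
  obtain ⟨N₄, hpow⟩ := Pool.Agent.H373R2.T7.ev_log' W 1
  refine ⟨N₁ + N₂ + N₃ + N₄ + 16, fun N hN ι _ v hv hE => ?_⟩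
  rcases isEmpty_or_nonempty ι with hem | hne
  · have e1 : (univ.filter (fun i : ι => ¬ GoodM P A K W N (v i))).card = 0 := by
      rw [card_eq_zero]
      exact eq_empty_of_isEmpty _
    rw [e1, Nat.cast_zero]
    exact div_nonneg (Nat.cast_nonneg _) (pow_nonneg (Real.log_natCast_nonneg _) _)
  obtain ⟨L, hL⟩ : ∃ L, L = Real.log (N : ℝ) := ⟨_, rfl⟩
  have hLbig := hlog N (by omega)
  have hWs := hpow N (by omega)
  rw [one_mul] at hWs
  have hN1 : 1 ≤ N := by omega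
  have hNr : (16 : ℝ) ≤ N := by exact_mod_cast (by omega : 16 ≤ N)
  have hKr : (0 : ℝ) ≤ K := Nat.cast_nonneg K
  have hLW : L ^ W ≤ N := by
    rw [hL]
    refine hWs.trans ?_
    rw [Real.sqrt_le_left (by linarith)]
    nlinarith
  rw [← hL] at hLbig hE
  have hL1 : 1 ≤ L := by linarith
  have hL0 : 0 < L := by linarith
  have hcr : (0 : ℝ) < Fintype.card ι := by exact_mod_cast Fintype.card_pos
  -- the parameters
  obtain ⟨Js, hJs⟩ : ∃ Js : Finset ℕ, Js = (range (K * Nat.log 2 N + K + 1)).filter (fun j => 2 ^ j ≤ N ^ K) := ⟨_, rfl⟩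
  obtain ⟨Ss, hSs⟩ : ∃ Ss : Finset ℤ, Ss = Icc (-⌊L ^ W⌋) ⌊L ^ W⌋ := ⟨_, rfl⟩
  have hJcard : (Js.card : ℝ) ≤ L ^ 2 := by
    have e1 : Js.card ≤ K * Nat.log 2 N + K + 1 := by
      rw [hJs]
      exact (card_filter_le _ _).trans (by rw [card_range])
    have e2 : (Nat.log 2 N : ℝ) ≤ 2 * L := by
      have g1 : (2 : ℝ) ^ (Nat.log 2 N) ≤ N := by exact_mod_cast Nat.pow_log_le_self 2 (by omega)
      have g2 := Real.log_le_log (by positivity) g1
      rw [Real.log_pow, ← hL] at g2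
      have g3 := Real.log_two_gt_d9
      have g4 : (0 : ℝ) ≤ (Nat.log 2 N : ℝ) := Nat.cast_nonneg _
      nlinarith
    have e3 : (Js.card : ℝ) ≤ K * (Nat.log 2 N : ℝ) + K + 1 := by exact_mod_cast e1
    nlinarith
  have hLW1 : 1 ≤ L ^ W := one_le_pow₀ hL1
  have hScard : (Ss.card : ℝ) ≤ L ^ (W + 1) := by
    have e1 : (0 : ℤ) ≤ ⌊L ^ W⌋ := Int.floor_nonneg.2 (by positivity)
    have e2 : (Ss.card : ℤ) = 2 * ⌊L ^ W⌋ + 1 := by
      rw [hSs, Int.card_Icc, Int.toNat_of_nonneg (by omega)]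
      ring
    have e3 : (Ss.card : ℝ) = 2 * (⌊L ^ W⌋ : ℝ) + 1 := by exact_mod_cast e2
    have e4 := Int.floor_le (L ^ W)
    rw [e3, pow_succ]
    nlinarith
  obtain ⟨Bd, hBd⟩ : ∃ Bd : ℕ → ℤ → Finset ι, ∀ j s, Bd j s = univ.filter (fun i => (2 : ℝ) ^ j / L ^ A <
    (((Icc 1 (2 ^ j)).filter (fun m : ℕ => ∃ n : ℕ, 0 < n ∧ (n : ℤ) = (m : ℤ) * (v i + s) ∧ ¬ P (N * 2 ^ j) n)).card : ℝ)) := ⟨_, fun _ _ => rfl⟩
  have hBcard : ∀ j ∈ Js, ∀ s ∈ Ss, ((Bd j s).card : ℝ) ≤ Fintype.card ι / L ^ (U + W + 4) := by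
    intro j hj s hs
    rw [hJs, mem_filter] at hj
    rw [hSs, mem_Icc] at hs
    have hM1 : 1 ≤ 2 ^ j := Nat.one_le_pow _ _ (by norm_num)
    have hMN : 2 ^ j ≤ N ^ (K + 1) := hj.2.trans (Nat.pow_le_pow_right hN1 (by omega))
    have hs' : |s| ≤ (N : ℤ) := by
      have e1 : |s| ≤ ⌊L ^ W⌋ := abs_le.2 ⟨by omega, hs.2⟩
      have e2 : ⌊L ^ W⌋ ≤ (N : ℤ) := by
        have e3 : (⌊L ^ W⌋ : ℝ) ≤ N := (Int.floor_le _).trans hLW
        exact_mod_cast e3
      omega
    have hvs : ∀ i, |v i + s| ≤ (((B + 1) * N : ℕ) : ℤ) := by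
      intro i
      have e1 := abs_add_le (v i) s
      have e2 := hv i
      push_cast
      linarith
    have hEs : (En h (fun i => v i + s) : ℝ) * N ≤ L ^ C * (Fintype.card ι : ℝ) ^ (2 * h) := by
      rw [Pool.Agent.T9h51.ME.En_shift]
      exact hE
    have hpe := hprod N (by omega) (2 ^ j) hM1 hMN ι (fun i => v i + s) hvs (by rw [← hL]; exact hEs)
    have hNM : N ≤ N * 2 ^ j := Nat.le_mul_of_pos_right _ hM1
    have hlogNM : L ≤ Real.log ((N * 2 ^ j : ℕ) : ℝ) := by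
      rw [hL]
      apply Real.log_le_log (by linarith)
      exact_mod_cast hNM
    have key := hall (N * 2 ^ j) (by omega) (ι × Fin (2 ^ j)) (prod (fun i => v i + s) (2 ^ j)) (by
      rintro ⟨i, m⟩
      unfold prod
      simp only
      rw [abs_mul]
      have e1 : |((m : ℕ) : ℤ) + 1| ≤ 2 ^ j := by
        have := m.2
        rw [abs_of_nonneg (by positivity)]
        exact_mod_cast this
      have e2 := hvs i
      calc |((m : ℕ) : ℤ) + 1| * |v i + s| ≤ 2 ^ j * (((B + 1) * N : ℕ) : ℤ) := mul_le_mul e1 e2 (abs_nonneg _) (by positivity)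
        _ = _ := by push_cast; ring) (by
      refine hpe.trans ?_
      rw [← hL]
      exact mul_le_mul_of_nonneg_right (pow_le_pow_left₀ hL0.le hlogNM _) (by positivity))
    have hcard2 : (Fintype.card (ι × Fin (2 ^ j)) : ℝ) = (Fintype.card ι : ℝ) * 2 ^ j := by
      rw [Fintype.card_prod, Fintype.card_fin]
      push_cast
      ring
    rw [hcard2] at key
    have key2 : ((univ.filter (fun p : ι × Fin (2 ^ j) => ∃ n : ℕ, 0 < n ∧ (n : ℤ) = (((p.2 : ℕ) + 1 : ℕ) : ℤ) * (v p.1 + s) ∧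
        ¬ P (N * 2 ^ j) n)).card : ℝ) ≤ (Fintype.card ι : ℝ) * 2 ^ j / L ^ (A + (U + W + 4)) := by
      refine le_trans ?_ (key.trans ?_)
      · apply Nat.cast_le.2
        apply card_le_card
        intro p hp
        rw [mem_filter] at hp ⊢
        obtain ⟨_, n, hn1, hn2, hn3⟩ := hp
        refine ⟨mem_univ _, n, hn1, ?_, hn3⟩
        rw [hn2]
        unfold prod
        push_cast
        ring
      · apply div_le_div_of_nonneg_left (by positivity) (by positivity)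
        exact pow_le_pow_left₀ hL0.le hlogNM _
    have hm := markov (2 ^ j) (fun i m => ∃ n : ℕ, 0 < n ∧ (n : ℤ) = (m : ℤ) * (v i + s) ∧ ¬ P (N * 2 ^ j) n)
      ((Fintype.card ι : ℝ) * 2 ^ j / L ^ (A + (U + W + 4))) (2 ^ j / L ^ A) (by positivity) key2
    rw [hBd]
    refine hm.trans (le_of_eq ?_)
    rw [pow_add]
    field_simp
  have hsub : univ.filter (fun i => ¬ GoodM P A K W N (v i)) ⊆ Js.biUnion (fun j => Ss.biUnion (fun s => Bd j s)) := by
    intro i hi
    rw [mem_filter] at hi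
    have hi2 := hi.2
    unfold GoodM at hi2
    push Not at hi2
    obtain ⟨q, hq1, hq2, j, hj1, hj2⟩ := hi2
    rw [← hL] at hq2 hj2
    rw [mem_biUnion]
    refine ⟨j, ?_, ?_⟩
    · rw [hJs, mem_filter, mem_range]
      refine ⟨?_, hj1⟩
      have e1 : 2 ^ j ≤ (2 ^ (Nat.log 2 N + 1)) ^ K :=
        hj1.trans (Nat.pow_le_pow_left (Nat.lt_pow_succ_log_self (by norm_num) N).le K)
      rw [← pow_mul] at e1
      have e2 := (Nat.pow_le_pow_iff_right (by norm_num : 1 < 2)).1 e1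
      have e3 : (Nat.log 2 N + 1) * K = K * Nat.log 2 N + K := by ring
      omega
    · rw [mem_biUnion]
      refine ⟨(q : ℤ) - v i, ?_, ?_⟩
      · rw [hSs, mem_Icc]
        have e1 := abs_le.1 hq2
        constructor
        · have e2 : (-((q : ℤ) - v i) : ℤ) ≤ ⌊L ^ W⌋ := by
            apply Int.le_floor.2
            push_cast
            linarith [e1.1]
          omega
        · apply Int.le_floor.2
          push_cast
          linarith [e1.2]
      · rw [hBd, mem_filter]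
        refine ⟨mem_univ _, hj2.trans_le ?_⟩
        apply Nat.cast_le.2
        apply card_le_card
        intro m hm
        rw [mem_filter, mem_Icc] at hm ⊢
        refine ⟨hm.1, m * q, Nat.mul_pos hm.1.1 hq1, ?_, hm.2⟩
        push_cast
        ring
  have hfin : ((univ.filter (fun i => ¬ GoodM P A K W N (v i))).card : ℝ) ≤ ∑ j ∈ Js, ∑ s ∈ Ss, ((Bd j s).card : ℝ) := by
    refine le_trans (Nat.cast_le.2 ((card_le_card hsub).trans card_biUnion_le)) ?_
    rw [Nat.cast_sum]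
    apply sum_le_sum
    intro j _
    refine le_trans (Nat.cast_le.2 card_biUnion_le) ?_
    rw [Nat.cast_sum]
  rw [← hL]
  calc ((univ.filter (fun i => ¬ GoodM P A K W N (v i))).card : ℝ) ≤ ∑ j ∈ Js, ∑ s ∈ Ss, ((Bd j s).card : ℝ) := hfin
    _ ≤ ∑ _j ∈ Js, ∑ _s ∈ Ss, (Fintype.card ι / L ^ (U + W + 4) : ℝ) := sum_le_sum fun j hj => sum_le_sum fun s hs => hBcard j hj s hs
    _ = (Js.card : ℝ) * ((Ss.card : ℝ) * (Fintype.card ι / L ^ (U + W + 4))) := by
        rw [sum_const, sum_const, nsmul_eq_mul, nsmul_eq_mul]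
    _ ≤ L ^ 2 * (L ^ (W + 1) * (Fintype.card ι / L ^ (U + W + 4))) := by
        apply mul_le_mul hJcard _ (by positivity) (by positivity)
        exact mul_le_mul_of_nonneg_right hScard (by positivity)
    _ = Fintype.card ι / L ^ U * (1 / L) := by
        have : L ^ (U + W + 4) = L ^ U * L ^ (W + 1) * L ^ 2 * L := by ring
        rw [this]
        field_simp
    _ ≤ Fintype.card ι / L ^ U * 1 := by
        apply mul_le_mul_of_nonneg_left _ (by positivity)
        rw [div_le_one hL0]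
        exact hL1
    _ = _ := mul_one _

end Pool.Agent.T9h51.PE
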