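import Pool.Agent.T9h51.PE.NoDiv
import Pool.Agent.T9h51.LR.Sys

/-!
# Systems of linear polynomials: almost all multiples of the vectors of integers near almost all vectors of members of
# families of nearly minimal energy
-/

set_option autoImplicit false

namespace Pool.Agent.T9h51.PE

open Finset
open Pool.Agent.TH212.EH (En)
open Pool.Agent.TH935.TF (HW consA consB)

variable {k : ℕ}

open Classical in
/-- few vectors with many bad points -/
lemma markovV {ι : Fin k → Type} [∀ i, Fintype (ι i)] (M : ℕ) (Bad : (∀ i, ι i) → (Fin k → ℕ) → Prop) (T₁ T₂ : ℝ)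
    (hT₂ : 0 < T₂)
    (h : ((univ.filter (fun p : ∀ i, ι i × Fin M => Bad (fun i => (p i).1) (fun i => (p i).2 + 1))).card : ℝ) ≤ T₁) :
    ((univ.filter (fun t : ∀ i, ι i => T₂ < ((univ.filter (fun m : Fin k → Fin M => Bad t (fun i => m i + 1))).card : ℝ))).card : ℝ) ≤
      T₁ / T₂ := by
  have h1 : ((univ.filter (fun p : ∀ i, ι i × Fin M => Bad (fun i => (p i).1) (fun i => (p i).2 + 1))).card : ℝ) =
      ∑ t : ∀ i, ι i, ((univ.filter (fun m : Fin k → Fin M => Bad t (fun i => m i + 1))).card : ℝ) := by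
    obtain ⟨e, he⟩ : ∃ e : (∀ i, ι i × Fin M) ≃ (∀ i, ι i) × (Fin k → Fin M), ∀ p, e p = (fun i => (p i).1, fun i => (p i).2) :=
      ⟨⟨fun p => (fun i => (p i).1, fun i => (p i).2), fun x i => (x.1 i, x.2 i), fun _ => rfl, fun _ => rfl⟩, fun _ => rfl⟩
    rw [card_filter]
    push_cast
    have h2 : ∑ p : ∀ i, ι i × Fin M, (if Bad (fun i => (p i).1) (fun i => (p i).2 + 1) then (1 : ℝ) else 0) =
        ∑ x : (∀ i, ι i) × (Fin k → Fin M), (if Bad x.1 (fun i => x.2 i + 1) then (1 : ℝ) else 0) := by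
      apply Fintype.sum_equiv e
      intro p
      rw [he]
    rw [h2, Fintype.sum_prod_type]
    apply sum_congr rfl
    intro t _
    rw [card_filter]
    push_cast
    rfl
  rw [h1] at h
  rw [le_div_iff₀ hT₂, ← nsmul_eq_mul, ← sum_const]
  refine le_trans ?_ h
  calc ∑ _i ∈ univ.filter (fun t : ∀ i, ι i => T₂ < ((univ.filter (fun m : Fin k → Fin M => Bad t (fun i => m i + 1))).card : ℝ)), T₂ ≤
      ∑ t ∈ univ.filter (fun t : ∀ i, ι i => T₂ < ((univ.filter (fun m : Fin k → Fin M => Bad t (fun i => m i + 1))).card : ℝ)),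
        ((univ.filter (fun m : Fin k → Fin M => Bad t (fun i => m i + 1))).card : ℝ) := by
        apply sum_le_sum
        intro i hi
        exact (mem_filter.1 hi).2.le
    _ ≤ _ := sum_le_sum_of_subset_of_nonneg (filter_subset _ _) (fun _ _ _ => Nat.cast_nonneg _)

open Classical in
/-- all the vectors of integers near `v` have the property for almost all vectors of their multiples, at all dyadic
scales -/
def GoodS (ε : ℝ) (A B D E K W N : ℕ) (v : Fin k → ℤ) : Prop :=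
  ∀ q : Fin k → ℕ, (∀ i, 1 ≤ q i) → (∀ i, |(q i : ℝ) - v i| ≤ Real.log N ^ W) → ∀ j : ℕ, 2 ^ j ≤ N ^ K →
    ((univ.filter (fun m : Fin k → Fin (2 ^ j) => ¬ HW consA consB ε A B D (N * 2 ^ j)
      (fun i => ((((m i : ℕ) + 1) * q i : ℕ) : ℤ)))).card : ℝ) ≤ (2 ^ j) ^ k / Real.log N ^ E

open Classical in
/-- **Almost all vectors of multiples.** -/
theorem multiplesS (hk : 1 ≤ k) (ε : ℝ) (hε : 0 < ε) (h B C A D E K U W : ℕ) (hh : 1 ≤ h) : ∃ N₀ : ℕ, ∀ N : ℕ, N₀ ≤ N →
    ∀ (ι : Fin k → Type) [∀ i, Fintype (ι i)] (v : ∀ i, ι i → ℤ), (∀ i j, |v i j| ≤ B * N) →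
    (∀ i, (En h (v i) : ℝ) * N ≤ Real.log N ^ C * (Fintype.card (ι i) : ℝ) ^ (2 * h)) →
    ((univ.filter (fun t : ∀ i, ι i => ¬ GoodS ε A (B + 2) D E K W N (fun i => v i (t i)))).card : ℝ) ≤
      (∏ i, (Fintype.card (ι i) : ℝ)) / Real.log N ^ U := by
  obtain ⟨h', C', N₁, hh', hprod⟩ := prod_energy h (B + 1) C (K + 1) hh (by omega) (by omega)
  obtain ⟨N₂, hall⟩ := Pool.Agent.T9h51.LR.engine k h' A (B + 2) C' D (E + (U + (W + 1) * k + 3)) hk ε hε
  obtain ⟨N₃, hlog⟩ := Pool.Agent.H373R2.T7.ev_L' (4 * K + 4)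
  obtain ⟨N₄, hpow⟩ := Pool.Agent.H373R2.T7.ev_log' W 1
  refine ⟨N₁ + N₂ + N₃ + N₄ + 16, fun N hN ι _ v hv hE => ?_⟩
  rcases isEmpty_or_nonempty (∀ i, ι i) with hem | hne
  · have e1 : (univ.filter (fun t : ∀ i, ι i => ¬ GoodS ε A (B + 2) D E K W N (fun i => v i (t i)))).card = 0 := by
      rw [card_eq_zero]
      exact eq_empty_of_isEmpty _
    rw [e1, Nat.cast_zero]
    exact div_nonneg (prod_nonneg fun _ _ => Nat.cast_nonneg _) (pow_nonneg (Real.log_natCast_nonneg _) _)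
  have hnei : ∀ i, Nonempty (ι i) := fun i => ⟨hne.some i⟩
  obtain ⟨L, hL⟩ : ∃ L, L = Real.log (N : ℝ) := ⟨_, rfl⟩
  have hLbig := hlog N (by omega)
  have hWs := hpow N (by omega)
  rw [one_mul] at hWs
  have hN1 : 1 ≤ N := by omega
  have hNr : (16 : ℝ) ≤ N := by exact_mod_cast (by omega : 16 ≤ N)
  have hKr : (0 : ℝ) ≤ K := Nat.cast_nonneg K
  have hLW : L ^ W ≤ N := by
    rw [hL]
    refine hWs.trans ?_
    rw [Real.sqrt_le_left (by linarith)]
    nlinarith
  rw [← hL] at hLbig hE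
  have hL1 : 1 ≤ L := by linarith
  have hL0 : 0 < L := by linarith
  obtain ⟨Pr, hPr⟩ : ∃ Pr : ℝ, Pr = ∏ i, (Fintype.card (ι i) : ℝ) := ⟨_, rfl⟩
  have hPr0 : 0 ≤ Pr := by rw [hPr]; exact prod_nonneg fun _ _ => Nat.cast_nonneg _
  -- the parameters
  obtain ⟨Js, hJs⟩ : ∃ Js : Finset ℕ, Js = (range (K * Nat.log 2 N + K + 1)).filter (fun j => 2 ^ j ≤ N ^ K) := ⟨_, rfl⟩
  obtain ⟨Ss, hSs⟩ : ∃ Ss : Finset ℤ, Ss = Icc (-⌊L ^ W⌋) ⌊L ^ W⌋ := ⟨_, rfl⟩
  have hJcard : (Js.card : ℝ) ≤ L ^ 2 := by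
    have e1 : Js.card ≤ K * Nat.log 2 N + K + 1 := by
      rw [hJs]
      exact (card_filter_le _ _).trans (by rw [card_range])
    have e2 : (Nat.log 2 N : ℝ) ≤ 2 * L := by
      have g1 : (2 : ℝ) ^ (Nat.log 2 N) ≤ N := by exact_mod_cast Nat.pow_log_le_self 2 (by omega)
      have g2 := Real.log_le_log (by positivity) g1
      rw [Real.log_pow, ← hL] at g2
      have g3 := Real.log_two_gt_d9
      have g4 : (0 : ℝ) ≤ (Nat.log 2 N : ℝ) := Nat.cast_nonneg _
      nlinarith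
    have e3 : (Js.card : ℝ) ≤ K * (Nat.log 2 N : ℝ) + K + 1 := by exact_mod_cast e1
    nlinarith
  have hLW1 : 1 ≤ L ^ W := one_le_pow₀ hL1
  have hScard : (Ss.card : ℝ) ≤ L ^ (W + 1) := by
    have e1 : (0 : ℤ) ≤ ⌊L ^ W⌋ := Int.floor_nonneg.2 (by positivity)
    have e2 : (Ss.card : ℤ) = 2 * ⌊L ^ W⌋ + 1 := by
      rw [hSs, Int.card_Icc, Int.toNat_of_nonneg (by omega)]
      ring
    have e3 : (Ss.card : ℝ) = 2 * (⌊L ^ W⌋ : ℝ) + 1 := by exact_mod_cast e2
    have e4 := Int.floor_le (L ^ W)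
    rw [e3, pow_succ]
    nlinarith
  obtain ⟨Sv, hSv⟩ : ∃ Sv : Finset (Fin k → ℤ), Sv = Fintype.piFinset (fun _ => Ss) := ⟨_, rfl⟩
  have hSvcard : (Sv.card : ℝ) ≤ L ^ ((W + 1) * k) := by
    rw [hSv, Fintype.card_piFinset_const]
    push_cast
    rw [pow_mul]
    exact pow_le_pow_left₀ (Nat.cast_nonneg _) hScard k
  obtain ⟨Bd, hBd⟩ : ∃ Bd : ℕ → (Fin k → ℤ) → Finset (∀ i, ι i), ∀ j s, Bd j s = univ.filter (fun t : ∀ i, ι i =>
    ((2 : ℝ) ^ j) ^ k / L ^ E < ((univ.filter (fun m : Fin k → Fin (2 ^ j) => ¬ HW consA consB ε A (B + 2) D (N * 2 ^ j)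
      (fun i => ((m i : ℕ) + 1 : ℤ) * (v i (t i) + s i)))).card : ℝ)) := ⟨_, fun _ _ => rfl⟩
  have hBcard : ∀ j ∈ Js, ∀ s ∈ Sv, ((Bd j s).card : ℝ) ≤ Pr / L ^ (U + (W + 1) * k + 3) := by
    intro j hj s hs
    rw [hJs, mem_filter] at hj
    rw [hSv, Fintype.mem_piFinset] at hs
    have hM1 : 1 ≤ 2 ^ j := Nat.one_le_pow _ _ (by norm_num)
    have hMN : 2 ^ j ≤ N ^ (K + 1) := hj.2.trans (Nat.pow_le_pow_right hN1 (by omega))
    have hs' : ∀ i, |s i| ≤ (N : ℤ) := by
      intro i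
      have hsi := hs i
      rw [hSs, mem_Icc] at hsi
      have e1 : |s i| ≤ ⌊L ^ W⌋ := abs_le.2 ⟨by omega, hsi.2⟩
      have e2 : ⌊L ^ W⌋ ≤ (N : ℤ) := by
        have e3 : (⌊L ^ W⌋ : ℝ) ≤ N := (Int.floor_le _).trans hLW
        exact_mod_cast e3
      omega
    have hvs : ∀ i x, |v i x + s i| ≤ (((B + 1) * N : ℕ) : ℤ) := by
      intro i x
      have e1 := abs_add_le (v i x) (s i)
      have e2 := hv i x
      have e3 := hs' i
      push_cast
      linarith
    have hEs : ∀ i, (En h (fun x => v i x + s i) : ℝ) * N ≤ L ^ C * (Fintype.card (ι i) : ℝ) ^ (2 * h) := by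
      intro i
      rw [Pool.Agent.T9h51.ME.En_shift]
      exact hE i
    have hNM : N ≤ N * 2 ^ j := Nat.le_mul_of_pos_right _ hM1
    have hlogNM : L ≤ Real.log ((N * 2 ^ j : ℕ) : ℝ) := by
      rw [hL]
      apply Real.log_le_log (by linarith)
      exact_mod_cast hNM
    have hpe : ∀ i, (En h' (prod (fun x => v i x + s i) (2 ^ j)) : ℝ) * ((N * 2 ^ j : ℕ) : ℝ) ≤
        Real.log ((N * 2 ^ j : ℕ) : ℝ) ^ C' * (Fintype.card (ι i × Fin (2 ^ j)) : ℝ) ^ (2 * h') := by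
      intro i
      have hni := hnei i
      refine (hprod N (by omega) (2 ^ j) hM1 hMN (ι i) (fun x => v i x + s i) (hvs i) (by rw [← hL]; exact hEs i)).trans ?_
      rw [← hL]
      exact mul_le_mul_of_nonneg_right (pow_le_pow_left₀ hL0.le hlogNM _) (by positivity)
    have key := hall (N * 2 ^ j) (by omega) (fun i => ι i × Fin (2 ^ j)) (fun i => prod (fun x => v i x + s i) (2 ^ j)) (by
      rintro i ⟨x, m⟩
      unfold prod
      simp only
      rw [abs_mul]
      have e1 : |((m : ℕ) : ℤ) + 1| ≤ 2 ^ j := by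
        have := m.2
        rw [abs_of_nonneg (by positivity)]
        exact_mod_cast this
      have e2 := hvs i x
      calc |((m : ℕ) : ℤ) + 1| * |v i x + s i| ≤ 2 ^ j * (((B + 1) * N : ℕ) : ℤ) := mul_le_mul e1 e2 (abs_nonneg _) (by positivity)
        _ ≤ (((B + 2 : ℕ) : ℤ)) * ((N * 2 ^ j : ℕ) : ℤ) := by
            push_cast
            have : (0 : ℤ) ≤ N * 2 ^ j := by positivity
            nlinarith) hpe
      (univ.filter (fun p : ∀ i, ι i × Fin (2 ^ j) => ¬ HW consA consB ε A (B + 2) D (N * 2 ^ j)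
        (fun i => (((p i).2 : ℕ) + 1 : ℤ) * (v i (p i).1 + s i)))) (fun p hp => (mem_filter.1 hp).2)
    have hcard2 : ∏ i, (Fintype.card (ι i × Fin (2 ^ j)) : ℝ) = Pr * (2 ^ j) ^ k := by
      rw [hPr]
      have e1 : ∀ i, (Fintype.card (ι i × Fin (2 ^ j)) : ℝ) = (Fintype.card (ι i) : ℝ) * 2 ^ j := by
        intro i
        rw [Fintype.card_prod, Fintype.card_fin]
        push_cast
        ring
      rw [prod_congr rfl (fun i _ => e1 i), prod_mul_distrib, prod_const, card_univ, Fintype.card_fin]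
    rw [hcard2] at key
    have key2 : ((univ.filter (fun p : ∀ i, ι i × Fin (2 ^ j) => ¬ HW consA consB ε A (B + 2) D (N * 2 ^ j)
        (fun i => (((p i).2 : ℕ) + 1 : ℤ) * (v i (p i).1 + s i)))).card : ℝ) ≤
        Pr * (2 ^ j) ^ k / L ^ (E + (U + (W + 1) * k + 3)) := by
      refine key.trans ?_
      apply div_le_div_of_nonneg_left (by positivity) (by positivity)
      exact pow_le_pow_left₀ hL0.le hlogNM _
    have hm := markovV (2 ^ j) (fun (t : ∀ i, ι i) (m : Fin k → ℕ) => ¬ HW consA consB ε A (B + 2) D (N * 2 ^ j)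
      (fun i => (m i : ℤ) * (v i (t i) + s i)))
      (Pr * (2 ^ j) ^ k / L ^ (E + (U + (W + 1) * k + 3))) ((2 ^ j) ^ k / L ^ E) (by positivity) (by
        push_cast
        exact key2)
    rw [hBd]
    push_cast at hm
    refine hm.trans (le_of_eq ?_)
    rw [pow_add]
    field_simp
  have hsub : univ.filter (fun t : ∀ i, ι i => ¬ GoodS ε A (B + 2) D E K W N (fun i => v i (t i))) ⊆
      Js.biUnion (fun j => Sv.biUnion (fun s => Bd j s)) := by
    intro t ht
    rw [mem_filter] at ht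
    have hi2 := ht.2
    unfold GoodS at hi2
    push Not at hi2
    obtain ⟨q, hq1, hq2, j, hj1, hj2⟩ := hi2
    rw [← hL] at hq2 hj2
    rw [mem_biUnion]
    refine ⟨j, ?_, ?_⟩
    · rw [hJs, mem_filter, mem_range]
      refine ⟨?_, hj1⟩
      have e1 : 2 ^ j ≤ (2 ^ (Nat.log 2 N + 1)) ^ K :=
        hj1.trans (Nat.pow_le_pow_left (Nat.lt_pow_succ_log_self (by norm_num) N).le K)
      rw [← pow_mul] at e1
      have e2 := (Nat.pow_le_pow_iff_right (by norm_num : 1 < 2)).1 e1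
      have e3 : (Nat.log 2 N + 1) * K = K * Nat.log 2 N + K := by ring
      omega
    · rw [mem_biUnion]
      refine ⟨fun i => (q i : ℤ) - v i (t i), ?_, ?_⟩
      · rw [hSv, Fintype.mem_piFinset]
        intro i
        rw [hSs, mem_Icc]
        have e1 := abs_le.1 (hq2 i)
        constructor
        · have e2 : (-((q i : ℤ) - v i (t i)) : ℤ) ≤ ⌊L ^ W⌋ := by
            apply Int.le_floor.2
            push_cast
            linarith [e1.1]
          omega
        · apply Int.le_floor.2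
          push_cast
          linarith [e1.2]
      · rw [hBd, mem_filter]
        refine ⟨mem_univ _, hj2.trans_le (le_of_eq ?_)⟩
        congr 2
        apply filter_congr
        intro m _
        have e1 : (fun i => ((((m i : ℕ) + 1) * q i : ℕ) : ℤ)) =
            (fun i => (((m i : ℕ) : ℤ) + 1) * (v i (t i) + ((q i : ℤ) - v i (t i)))) := by
          funext i
          push_cast
          ring
        rw [e1]
  have hfin : ((univ.filter (fun t : ∀ i, ι i => ¬ GoodS ε A (B + 2) D E K W N (fun i => v i (t i)))).card : ℝ) ≤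
      ∑ j ∈ Js, ∑ s ∈ Sv, ((Bd j s).card : ℝ) := by
    refine le_trans (Nat.cast_le.2 ((card_le_card hsub).trans card_biUnion_le)) ?_
    rw [Nat.cast_sum]
    apply sum_le_sum
    intro j _
    refine le_trans (Nat.cast_le.2 card_biUnion_le) ?_
    rw [Nat.cast_sum]
  rw [← hL, ← hPr]
  calc ((univ.filter (fun t : ∀ i, ι i => ¬ GoodS ε A (B + 2) D E K W N (fun i => v i (t i)))).card : ℝ) ≤
        ∑ j ∈ Js, ∑ s ∈ Sv, ((Bd j s).card : ℝ) := hfin
    _ ≤ ∑ _j ∈ Js, ∑ _s ∈ Sv, (Pr / L ^ (U + (W + 1) * k + 3) : ℝ) := sum_le_sum fun j hj => sum_le_sum fun s hs => hBcard j hj s hs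
    _ = (Js.card : ℝ) * ((Sv.card : ℝ) * (Pr / L ^ (U + (W + 1) * k + 3))) := by
        rw [sum_const, sum_const, nsmul_eq_mul, nsmul_eq_mul]
    _ ≤ L ^ 2 * (L ^ ((W + 1) * k) * (Pr / L ^ (U + (W + 1) * k + 3))) := by
        apply mul_le_mul hJcard _ (by positivity) (by positivity)
        exact mul_le_mul_of_nonneg_right hSvcard (by positivity)
    _ = Pr / L ^ U * (1 / L) := by
        have : L ^ (U + (W + 1) * k + 3) = L ^ U * L ^ ((W + 1) * k) * L ^ 2 * L := by ring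
        rw [this]
        field_simp
    _ ≤ Pr / L ^ U * 1 := by
        apply mul_le_mul_of_nonneg_left _ (by positivity)
        rw [div_le_one hL0]
        exact hL1
    _ = _ := mul_one _

end Pool.Agent.T9h51.PE
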