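import Pool.Agent.T9h51.PE.Sys

/-!
# Systems of linear polynomials: the multiples of the vectors of integers near almost all vectors of members of families
# of nearly minimal energy, at all heights
-/

set_option autoImplicit false

namespace Pool.Agent.T9h51.PE

open Finset
open Pool.Agent.TH212.EH (En)
open Pool.Agent.TH935.TF (HW consA consB)

open Classical in
/-- few members are small -/
theorem small_members (h C U : ℕ) (hh : 1 ≤ h) : ∃ T N₀ : ℕ, 1 ≤ T ∧ ∀ N : ℕ, N₀ ≤ N → ∀ (ι : Type) [Fintype ι] (v : ι → ℤ),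
    (En h v : ℝ) * N ≤ Real.log N ^ C * (Fintype.card ι : ℝ) ^ (2 * h) →
    ((univ.filter (fun i => |(v i : ℝ)| * Real.log N ^ T < N)).card : ℝ) ≤ Fintype.card ι / Real.log N ^ U := by
  obtain ⟨T, hT⟩ : ∃ T, T = C + 1 + U * (2 * h) := ⟨_, rfl⟩
  obtain ⟨N₁, h1⟩ := Pool.Agent.H373R2.T7.ev_L' (2 * (2 * h + 1) + 1)
  obtain ⟨N₂, h2⟩ := Pool.Agent.H373R2.T7.ev_log' T 1
  refine ⟨T, N₁ + N₂ + 4, by omega, fun N hN ι _ v hE => ?_⟩
  have hL := h1 N (by omega)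
  have hs := h2 N (by omega)
  have hNr : (4 : ℝ) ≤ N := by exact_mod_cast (by omega : 4 ≤ N)
  obtain ⟨L, hLd⟩ : ∃ L, L = Real.log (N : ℝ) := ⟨_, rfl⟩
  rw [← hLd] at hL hs hE ⊢
  have hh0 : (0 : ℝ) ≤ 2 * (2 * h + 1) := by positivity
  have hL1 : 1 ≤ L := by linarith
  have hL0 : 0 < L := by linarith
  have hLT : L ^ T ≤ N := by
    rw [one_mul] at hs
    refine hs.trans ?_
    rw [Real.sqrt_le_left (by linarith)]
    nlinarith
  obtain ⟨S, hS⟩ : ∃ S : Finset ι, S = univ.filter (fun i => |(v i : ℝ)| * L ^ T < N) := ⟨_, rfl⟩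
  rw [← hS]
  have hmem : ∀ i, i ∈ S ↔ |(v i : ℝ)| * L ^ T < N := by
    intro i
    rw [hS, mem_filter]
    exact ⟨fun h => h.2, fun h => ⟨mem_univ _, h⟩⟩
  obtain ⟨R, hR⟩ : ∃ R, R = ⌊(N : ℝ) / L ^ T⌋₊ := ⟨_, rfl⟩
  have hR1 : 1 ≤ R := by
    rw [hR]
    apply Nat.le_floor
    rw [Nat.cast_one, le_div_iff₀ (by positivity), one_mul]
    exact hLT
  have hRle : (R : ℝ) ≤ N / L ^ T := by
    rw [hR]
    exact Nat.floor_le (by positivity)
  have hvR : ∀ i : {i // i ∈ S}, |v i.1| ≤ (R : ℤ) := by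
    rintro ⟨i, hi⟩
    rw [hmem] at hi
    have e1 : ((v i).natAbs : ℝ) ≤ N / L ^ T := by
      rw [le_div_iff₀ (by positivity), Nat.cast_natAbs, Int.cast_abs]
      exact hi.le
    have e2 : (v i).natAbs ≤ R := by
      rw [hR]
      exact Nat.le_floor e1
    rw [Int.abs_eq_natAbs]
    exact_mod_cast e2
  have key := div_count h (fun i : {i // i ∈ S} => v i.1) R 1 le_rfl hR1 hvR univ (fun i _ => one_dvd _)
  rw [card_univ, Fintype.card_coe, Nat.cast_one, mul_one] at key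
  have hEn : (En h (fun i : {i // i ∈ S} => v i.1) : ℝ) ≤ En h v := by
    apply Nat.cast_le.2
    unfold En
    rw [Nat.card_eq_fintype_card, Nat.card_eq_fintype_card]
    apply Fintype.card_le_of_injective
      (fun q : {q : (Fin h → {i // i ∈ S}) × (Fin h → {i // i ∈ S}) // ∑ j, v (q.1 j).1 = ∑ j, v (q.2 j).1} =>
        (⟨(fun j => (q.1.1 j).1, fun j => (q.1.2 j).1), q.2⟩ :
          {q : (Fin h → ι) × (Fin h → ι) // ∑ j, v (q.1 j) = ∑ j, v (q.2 j)}))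
    rintro ⟨⟨q1, q2⟩, hq⟩ ⟨⟨q1', q2'⟩, hq'⟩ hqq
    rw [Subtype.mk.injEq, Prod.mk.injEq] at hqq
    apply Subtype.ext
    apply Prod.ext
    · funext j
      exact Subtype.ext (congrFun hqq.1 j)
    · funext j
      exact Subtype.ext (congrFun hqq.2 j)
  obtain ⟨m, hm⟩ : ∃ m : ℝ, m = (S.card : ℝ) := ⟨_, rfl⟩
  obtain ⟨c, hc⟩ : ∃ c : ℝ, c = (Fintype.card ι : ℝ) := ⟨_, rfl⟩
  rw [← hm] at key ⊢
  rw [← hc] at hE ⊢
  have hm0 : 0 ≤ m := by rw [hm]; exact Nat.cast_nonneg _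
  have hc0 : 0 ≤ c := by rw [hc]; exact Nat.cast_nonneg _
  have hE0 : (0 : ℝ) ≤ En h v := Nat.cast_nonneg _
  have h3 : m ^ (2 * h) ≤ (2 * h + 1) * (N / L ^ T) * En h v := by
    refine key.trans ?_
    push_cast
    apply mul_le_mul _ hEn (Nat.cast_nonneg _) (by positivity)
    exact mul_le_mul_of_nonneg_left hRle (by positivity)
  have h4 : (m * L ^ U) ^ (2 * h) ≤ c ^ (2 * h) := by
    have h5 : L ^ (C + 1) * (m * L ^ U) ^ (2 * h) ≤ L ^ (C + 1) * c ^ (2 * h) := by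
      calc L ^ (C + 1) * (m * L ^ U) ^ (2 * h) = m ^ (2 * h) * L ^ T := by
            rw [mul_pow, ← pow_mul, hT, pow_add L (C + 1)]
            ring
        _ ≤ ((2 * h + 1) * (N / L ^ T) * En h v) * L ^ T := mul_le_mul_of_nonneg_right h3 (by positivity)
        _ = (2 * h + 1) * (En h v * N) := by
            field_simp
        _ ≤ L * (L ^ C * c ^ (2 * h)) := by
            apply mul_le_mul _ hE (by positivity) hL0.le
            linarith
        _ = _ := by ring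
    exact le_of_mul_le_mul_left h5 (by positivity)
  rw [le_div_iff₀ (by positivity)]
  exact (pow_le_pow_iff_left₀ (by positivity) hc0 (by omega)).1 h4

variable {k : ℕ}

open Classical in
/-- vectors with one bad coordinate -/
lemma card_coord {ι : Fin k → Type} [∀ i, Fintype (ι i)] (i₀ : Fin k) (P : ι i₀ → Prop) (u : ℝ)
    (h : ((univ.filter (fun x : ι i₀ => P x)).card : ℝ) ≤ Fintype.card (ι i₀) / u) :
    ((univ.filter (fun t : ∀ i, ι i => P (t i₀))).card : ℝ) ≤ (∏ i, (Fintype.card (ι i) : ℝ)) / u := by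
  have e1 : univ.filter (fun t : ∀ i, ι i => P (t i₀)) =
      Fintype.piFinset (Function.update (fun i => (univ : Finset (ι i))) i₀ (univ.filter (fun x : ι i₀ => P x))) := by
    ext t
    rw [mem_filter, Fintype.mem_piFinset]
    constructor
    · rintro ⟨-, h1⟩ i
      by_cases hi : i = i₀
      · subst hi
        rw [Function.update_self, mem_filter]
        exact ⟨mem_univ _, h1⟩
      · rw [Function.update_of_ne hi]
        exact mem_univ _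
    · intro h1
      have h2 := h1 i₀
      rw [Function.update_self, mem_filter] at h2
      exact ⟨mem_univ _, h2.2⟩
  rw [e1, Fintype.card_piFinset]
  push_cast
  rw [← mul_prod_erase univ _ (mem_univ i₀), ← mul_prod_erase univ (fun i => (Fintype.card (ι i) : ℝ)) (mem_univ i₀),
    Function.update_self]
  have e2 : ∏ i ∈ univ.erase i₀, (((Function.update (fun i => (univ : Finset (ι i))) i₀
      (univ.filter (fun x : ι i₀ => P x))) i).card : ℝ) = ∏ i ∈ univ.erase i₀, (Fintype.card (ι i) : ℝ) := by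
    apply prod_congr rfl
    intro i hi
    rw [Function.update_of_ne (ne_of_mem_erase hi), card_univ]
  rw [e2]
  have h3 : (0 : ℝ) ≤ ∏ i ∈ univ.erase i₀, (Fintype.card (ι i) : ℝ) := prod_nonneg fun _ _ => Nat.cast_nonneg _
  calc ((univ.filter (fun x : ι i₀ => P x)).card : ℝ) * ∏ i ∈ univ.erase i₀, (Fintype.card (ι i) : ℝ) ≤
      (Fintype.card (ι i₀) / u) * ∏ i ∈ univ.erase i₀, (Fintype.card (ι i) : ℝ) := mul_le_mul_of_nonneg_right h h3
    _ = _ := by ring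

/-- the vectors of multiples up to `x` without the property -/
def excS (R : ℝ → (Fin k → ℕ) → Prop) (x : ℝ) (q : Fin k → ℕ) : Set (Fin k → ℕ) :=
  {a : Fin k → ℕ | (∀ i, 1 ≤ a i ∧ (a i : ℝ) ≤ x ∧ q i ∣ a i) ∧ ¬ R x a}

lemma excS_finite (R : ℝ → (Fin k → ℕ) → Prop) (x : ℝ) (q : Fin k → ℕ) : (excS R x q).Finite := by
  apply Set.Finite.subset (Fintype.piFinset (fun _ : Fin k => Icc 1 ⌊x⌋₊)).finite_toSet
  rintro a ⟨h1, -⟩
  rw [mem_coe, Fintype.mem_piFinset]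
  intro i
  rw [mem_Icc]
  exact ⟨(h1 i).1, Nat.le_floor (h1 i).2.1⟩

/-- few exceptional vectors of multiples at all heights, for all the vectors `q` near `v` -/
def AllS (R : ℝ → (Fin k → ℕ) → Prop) (E W : ℕ) (L : ℝ) (v : Fin k → ℤ) : Prop :=
  ∀ q : Fin k → ℕ, (∀ i, 1 ≤ q i) → (∀ i, |(q i : ℝ) - v i| ≤ L ^ W) → ∀ x : ℝ, 0 < x →
    ((excS R x q).ncard : ℝ) ≤ (∏ i, x / q i) / L ^ E

lemma AllS.anti {R : ℝ → (Fin k → ℕ) → Prop} {E W : ℕ} (L L' : ℝ) (v : Fin k → ℤ) (hL : 1 ≤ L) (hLL : L ≤ L')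
    (h : AllS R E W L' v) : AllS R E W L v := by
  intro q hq1 hq2 x hx
  refine (h q hq1 (fun i => (hq2 i).trans (pow_le_pow_left₀ (by linarith) hLL _)) x hx).trans ?_
  apply div_le_div_of_nonneg_left (prod_nonneg fun i _ => by positivity) (by positivity)
  exact pow_le_pow_left₀ (by linarith) hLL _

/-- empty below the members -/
lemma excS_empty (R : ℝ → (Fin k → ℕ) → Prop) (x : ℝ) (q : Fin k → ℕ) (i : Fin k) (h : x < q i) : excS R x q = ∅ := by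
  apply Set.eq_empty_of_forall_notMem
  rintro a ⟨h1, -⟩
  obtain ⟨h2, h3, h4⟩ := h1 i
  have h5 : (q i : ℝ) ≤ a i := by exact_mod_cast Nat.le_of_dvd h2 h4
  linarith

/-- the range of small heights -/
lemma lowS (hk : 1 ≤ k) (R : ℝ → (Fin k → ℕ) → Prop) (ε : ℝ) (B E T W N M₀ : ℕ) (v : Fin k → ℤ) (hN : M₀ + 1 ≤ N)
    (hL : 4 * ((B : ℝ) + 1) ≤ Real.log N) (hLT : 4 * Real.log N ^ T ≤ N)
    (hR : ∀ M : ℕ, M₀ ≤ M → ∀ x : ℝ, x ≤ M → (M : ℝ) ≤ x * Real.log M ^ (T + 1) → ∀ a : Fin k → ℕ,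
      (∀ i, 1 ≤ a i ∧ (a i : ℝ) ≤ x) → HW consA consB ε (T + 2) (B + 2) (T + 2) M (fun i => (a i : ℤ)) → R x a)
    (h : GoodS ε (T + 2) (B + 2) (T + 2) (E + (T + 1) * k) 2 W N v) (q : Fin k → ℕ) (hq1 : ∀ i, 1 ≤ q i)
    (hq2 : ∀ i, |(q i : ℝ) - v i| ≤ Real.log N ^ W) (hq3 : ∀ i, (N : ℝ) ≤ q i * Real.log N ^ T)
    (hq4 : ∀ i, (q i : ℝ) ≤ (B + 1) * N)
    (x : ℝ) (hx0 : 0 < x) (hx : x ≤ (N : ℝ) ^ 2) : ((excS R x q).ncard : ℝ) ≤ (∏ i, x / q i) / Real.log N ^ E := by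
  classical
  obtain ⟨L, hLd⟩ : ∃ L, L = Real.log (N : ℝ) := ⟨_, rfl⟩
  have h' := h q hq1 hq2
  rw [← hLd] at hL hLT h' hq3 ⊢
  have hB0 : (0 : ℝ) ≤ B := Nat.cast_nonneg _
  have hL4 : 4 ≤ L := by linarith
  have hL0 : 0 < L := by linarith
  have hN1 : 1 ≤ N := by omega
  have hN0 : (0 : ℝ) < N := by exact_mod_cast hN1
  have hq0 : ∀ i, (0 : ℝ) < q i := fun i => by exact_mod_cast hq1 i
  by_cases hxq : ∃ i, x < q i
  · obtain ⟨i, hi⟩ := hxq
    rw [excS_empty R x q i hi, Set.ncard_empty, Nat.cast_zero]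
    exact div_nonneg (prod_nonneg fun i _ => div_nonneg hx0.le (hq0 i).le) (by positivity)
  push Not at hxq
  obtain ⟨y, hy⟩ : ∃ y : ℝ, y = x * L ^ T / N := ⟨_, rfl⟩
  have hy1 : 1 ≤ y := by
    rw [hy, le_div_iff₀ hN0, one_mul]
    refine (hq3 ⟨0, by omega⟩).trans ?_
    exact mul_le_mul_of_nonneg_right (hxq _) (by positivity)
  obtain ⟨m, hm⟩ : ∃ m, m = ⌈y⌉₊ := ⟨_, rfl⟩
  have hym : y ≤ m := by rw [hm]; exact Nat.le_ceil y
  have hmy : (m : ℝ) < y + 1 := by rw [hm]; exact Nat.ceil_lt_add_one (by linarith)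
  have hm1 : 1 ≤ m := by
    have : (1 : ℝ) ≤ m := hy1.trans hym
    exact_mod_cast this
  obtain ⟨j, hj⟩ : ∃ j, j = Nat.clog 2 m := ⟨_, rfl⟩
  have hmj : m ≤ 2 ^ j := by
    rw [hj]
    exact Nat.le_pow_clog (by norm_num) m
  have hjm : 2 ^ j ≤ 2 * m := by
    rcases Nat.lt_or_ge 1 m with h1 | h1
    · have h2 := Nat.pow_pred_clog_lt_self (b := 2) (by norm_num) h1
      rw [← hj] at h2
      have h3 : 1 ≤ j := by
        rw [hj]
        exact Nat.clog_pos (by norm_num) h1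
      have h4 : 2 ^ j = 2 ^ (j.pred) * 2 := by
        rw [← pow_succ]
        congr 1
        exact (Nat.succ_pred_eq_of_pos h3).symm
      omega
    · have h2 : m = 1 := le_antisymm h1 hm1
      have h3 : j = 0 := by rw [hj, h2, Nat.clog_one_right]
      rw [h3]
      omega
  have hyj : y ≤ (2 : ℝ) ^ j := hym.trans (by exact_mod_cast hmj)
  have hj4 : (2 : ℝ) ^ j ≤ 4 * y := by
    have h1 : (2 : ℝ) ^ j ≤ 2 * m := by exact_mod_cast hjm
    linarith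
  have hjN : 2 ^ j ≤ N ^ 2 := by
    have h1 : ((2 ^ j : ℕ) : ℝ) ≤ ((N ^ 2 : ℕ) : ℝ) := by
      push_cast
      refine hj4.trans ?_
      rw [hy]
      calc 4 * (x * L ^ T / N) = x / N * (4 * L ^ T) := by ring
        _ ≤ N * N := by
            apply mul_le_mul _ hLT (by positivity) hN0.le
            rw [div_le_iff₀ hN0]
            nlinarith
        _ = _ := by ring
    exact_mod_cast h1
  obtain ⟨M, hM⟩ : ∃ M, M = N * 2 ^ j := ⟨_, rfl⟩
  have hMr : (M : ℝ) = N * 2 ^ j := by rw [hM]; push_cast; ring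
  have hNM : N ≤ M := by rw [hM]; exact Nat.le_mul_of_pos_right _ (by positivity)
  have hLM : L ≤ Real.log M := by
    rw [hLd]
    exact Real.log_le_log hN0 (by exact_mod_cast hNM)
  have hL1T : 1 ≤ L ^ T := one_le_pow₀ (by linarith)
  have hxM : x ≤ M := by
    rw [hMr]
    have h1 : x ≤ N * y := by
      rw [hy]
      have : (N : ℝ) * (x * L ^ T / N) = x * L ^ T := by field_simp
      rw [this]
      nlinarith
    exact h1.trans (mul_le_mul_of_nonneg_left hyj hN0.le)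
  have hMx : (M : ℝ) ≤ x * Real.log M ^ (T + 1) := by
    calc (M : ℝ) = N * 2 ^ j := hMr
      _ ≤ N * (4 * y) := mul_le_mul_of_nonneg_left hj4 hN0.le
      _ = x * (4 * L ^ T) := by rw [hy]; field_simp
      _ ≤ x * L ^ (T + 1) := by
          apply mul_le_mul_of_nonneg_left _ hx0.le
          rw [pow_succ, mul_comm (L ^ T)]
          exact mul_le_mul_of_nonneg_right hL4 (by positivity)
      _ ≤ _ := mul_le_mul_of_nonneg_left (pow_le_pow_left₀ hL0.le hLM _) hx0.le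
  have key := h' j hjN
  rw [← hM] at key
  obtain ⟨Bad, hBad⟩ : ∃ Bad : Finset (Fin k → Fin (2 ^ j)), Bad = univ.filter (fun m : Fin k → Fin (2 ^ j) =>
    ¬ HW consA consB ε (T + 2) (B + 2) (T + 2) M (fun i => ((((m i : ℕ) + 1) * q i : ℕ) : ℤ))) := ⟨_, rfl⟩
  rw [← hBad] at key
  have hsub : excS R x q ⊆ (fun (m : Fin k → Fin (2 ^ j)) (i : Fin k) => ((m i : ℕ) + 1) * q i) '' (Bad : Set (Fin k → Fin (2 ^ j))) := by
    rintro a ⟨h1, h2⟩
    have h3 : ∀ i, ∃ b : ℕ, b < 2 ^ j ∧ (b + 1) * q i = a i := by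
      intro i
      obtain ⟨h4, h5, b, hb⟩ := h1 i
      have hb1 : 1 ≤ b := by
        rcases Nat.eq_zero_or_pos b with rfl | h0
        · rw [mul_zero] at hb
          omega
        · exact h0
      refine ⟨b - 1, ?_, ?_⟩
      · have h6 : (b : ℝ) ≤ y := by
          rw [hy, le_div_iff₀ hN0]
          calc (b : ℝ) * N ≤ b * (q i * L ^ T) := mul_le_mul_of_nonneg_left (hq3 i) (Nat.cast_nonneg _)
            _ = (a i : ℝ) * L ^ T := by rw [hb]; push_cast; ring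
            _ ≤ _ := mul_le_mul_of_nonneg_right h5 (by positivity)
        have h7 : b ≤ 2 ^ j := by
          have : (b : ℝ) ≤ ((2 ^ j : ℕ) : ℝ) := by
            push_cast
            exact h6.trans hyj
          exact_mod_cast this
        omega
      · rw [Nat.sub_add_cancel hb1, hb, mul_comm]
    choose b hb1 hb2 using h3
    refine ⟨fun i => ⟨b i, hb1 i⟩, ?_, ?_⟩
    · rw [mem_coe, hBad, mem_filter]
      refine ⟨mem_univ _, fun h4 => h2 ?_⟩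
      simp only [hb2] at h4
      exact hR M (by omega) x hxM hMx a (fun i => ⟨(h1 i).1, (h1 i).2.1⟩) h4
    · funext i
      exact hb2 i
  have hcard : ((excS R x q).ncard : ℝ) ≤ (Bad.card : ℝ) := by
    apply Nat.cast_le.2
    have h1 := Set.ncard_le_ncard hsub (Set.Finite.image _ (finite_toSet _))
    have h2 := Set.ncard_image_le (f := fun (m : Fin k → Fin (2 ^ j)) (i : Fin k) => ((m i : ℕ) + 1) * q i) (finite_toSet Bad)
    rw [Set.ncard_coe_finset] at h2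
    exact h1.trans h2
  have hprod : (x / ((B + 1) * N)) ^ k ≤ ∏ i, x / q i := by
    calc (x / ((B + 1) * N)) ^ k = ∏ _i : Fin k, x / ((B + 1) * N) := by
          rw [prod_const, card_univ, Fintype.card_fin]
      _ ≤ _ := by
          apply prod_le_prod (fun i _ => by positivity)
          intro i _
          exact div_le_div_of_nonneg_left hx0.le (hq0 i) (hq4 i)
  calc ((excS R x q).ncard : ℝ) ≤ (Bad.card : ℝ) := hcard
    _ ≤ (2 ^ j) ^ k / L ^ (E + (T + 1) * k) := key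
    _ ≤ (4 * y) ^ k / L ^ (E + (T + 1) * k) := by
        apply div_le_div_of_nonneg_right _ (by positivity)
        exact pow_le_pow_left₀ (by positivity) hj4 _
    _ = ((x / ((B + 1) * N)) * ((4 * (B + 1)) * L ^ T)) ^ k / L ^ (E + (T + 1) * k) := by
        congr 2
        rw [hy]
        field_simp
    _ ≤ ((x / ((B + 1) * N)) * (L * L ^ T)) ^ k / L ^ (E + (T + 1) * k) := by
        apply div_le_div_of_nonneg_right _ (by positivity)
        apply pow_le_pow_left₀ (by positivity)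
        apply mul_le_mul_of_nonneg_left _ (by positivity)
        exact mul_le_mul_of_nonneg_right hL (by positivity)
    _ = (x / ((B + 1) * N)) ^ k / L ^ E := by
        rw [mul_pow, ← pow_succ', ← pow_mul, pow_add]
        field_simp
    _ ≤ _ := div_le_div_of_nonneg_right hprod (by positivity)

/-- the range of large heights -/
lemma highS (R R' : ℝ → (Fin k → ℕ) → Prop) (B E N : ℕ) (D : ℕ → Finset ℕ) (hN : (B + 1) ^ 6 + 2 ≤ N)
    (hL : (2 : ℝ) ^ k ≤ Real.log N)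
    (hRR : ∀ x y : ℝ, x ≤ y → y ≤ 2 * x → ∀ a : Fin k → ℕ, (∀ i, 1 ≤ a i ∧ (a i : ℝ) ≤ x) → R' y a → R x a)
    (hD : ∀ t : ℕ, N ≤ 2 ^ t → ∀ q : Fin k → ℕ, (∀ i, 1 ≤ q i ∧ (q i : ℝ) ≤ ((2 : ℝ) ^ t) ^ (2 / 3 - 1 / 12 : ℝ) ∧
      ∀ d ∈ D t, ¬ d ∣ q i) → ((excS R' (2 ^ t) q).ncard : ℝ) ≤ (∏ i, (2 : ℝ) ^ t / q i) / Real.log (2 ^ t) ^ (E + 1))
    (q : Fin k → ℕ) (hq1 : ∀ i, 1 ≤ q i) (hq4 : ∀ i, (q i : ℝ) ≤ (B + 1) * N)
    (hq3 : ∀ t : ℕ, N ≤ 2 ^ t → ∀ d ∈ D t, ∀ i, ¬ d ∣ q i)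
    (x : ℝ) (hx : (N : ℝ) ^ 2 < x) : ((excS R x q).ncard : ℝ) ≤ (∏ i, x / q i) / Real.log N ^ E := by
  obtain ⟨L, hLd⟩ : ∃ L, L = Real.log (N : ℝ) := ⟨_, rfl⟩
  rw [← hLd] at hL ⊢
  have hL1 : 1 ≤ L := (one_le_pow₀ (by norm_num)).trans hL
  have hL0 : 0 < L := by linarith
  have hq0 : ∀ i, (0 : ℝ) < q i := fun i => by exact_mod_cast hq1 i
  have hN2 : 2 ≤ N := by omega
  have hNr : (2 : ℝ) ≤ N := by exact_mod_cast hN2
  have hN0 : (0 : ℝ) < N := by linarith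
  have hx4 : 4 < x := by nlinarith
  obtain ⟨X, hX⟩ : ∃ X, X = ⌈x⌉₊ := ⟨_, rfl⟩
  have hxX : x ≤ X := by rw [hX]; exact Nat.le_ceil x
  have hXx : (X : ℝ) < x + 1 := by rw [hX]; exact Nat.ceil_lt_add_one (by linarith)
  have hX1 : 1 < X := by
    have : (1 : ℝ) < X := by linarith
    exact_mod_cast this
  obtain ⟨t, ht⟩ : ∃ t, t = Nat.clog 2 X := ⟨_, rfl⟩
  have hXt : X ≤ 2 ^ t := by
    rw [ht]
    exact Nat.le_pow_clog (by norm_num) X
  have hxt : x ≤ 2 ^ t := hxX.trans (by exact_mod_cast hXt)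
  have htx : (2 : ℝ) ^ t ≤ 2 * x := by
    have h2 := Nat.pow_pred_clog_lt_self (b := 2) (by norm_num) hX1
    rw [← ht] at h2
    have h3 : 1 ≤ t := by
      rw [ht]
      exact Nat.clog_pos (by norm_num) hX1
    have h4 : 2 ^ t = 2 ^ (t.pred) * 2 := by
      rw [← pow_succ]
      congr 1
      exact (Nat.succ_pred_eq_of_pos h3).symm
    have h5 : 2 ^ (t.pred) + 1 ≤ X := h2
    have h6 : ((2 ^ (t.pred) : ℕ) : ℝ) + 1 ≤ X := by exact_mod_cast h5
    have h7 : (2 : ℝ) ^ t = ((2 ^ (t.pred) : ℕ) : ℝ) * 2 := by exact_mod_cast h4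
    rw [h7]
    linarith
  have hNt : N ≤ 2 ^ t := by
    have h1 : (N : ℝ) ≤ ((2 ^ t : ℕ) : ℝ) := by
      push_cast
      nlinarith
    exact_mod_cast h1
  have hq5 : ∀ i, (q i : ℝ) ≤ ((2 : ℝ) ^ t) ^ (2 / 3 - 1 / 12 : ℝ) := by
    intro i
    have h1 : ((N : ℝ) ^ 2) ^ (2 / 3 - 1 / 12 : ℝ) ≤ ((2 : ℝ) ^ t) ^ (2 / 3 - 1 / 12 : ℝ) :=
      Real.rpow_le_rpow (by positivity) (by linarith) (by norm_num)
    refine le_trans ?_ h1
    have h2 : ((N : ℝ) ^ 2) ^ (2 / 3 - 1 / 12 : ℝ) = (N : ℝ) ^ (1 / 6 : ℝ) * N := by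
      rw [← Real.rpow_natCast, ← Real.rpow_mul hN0.le]
      nth_rewrite 3 [← Real.rpow_one (N : ℝ)]
      rw [← Real.rpow_add hN0]
      norm_num
    rw [h2]
    refine (hq4 i).trans (mul_le_mul_of_nonneg_right ?_ hN0.le)
    have h3 : ((B : ℝ) + 1) = (((B : ℝ) + 1) ^ 6) ^ (1 / 6 : ℝ) := by
      rw [← Real.rpow_natCast, ← Real.rpow_mul (by positivity)]
      norm_num
    rw [h3]
    apply Real.rpow_le_rpow (by positivity) _ (by norm_num)
    have h4 : (B + 1) ^ 6 ≤ N := by omega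
    exact_mod_cast h4
  have key := hD t hNt q (fun i => ⟨hq1 i, hq5 i, fun d hd => hq3 t hNt d hd i⟩)
  have hsub : excS R x q ⊆ excS R' (2 ^ t) q := by
    rintro a ⟨h1, h2⟩
    exact ⟨fun i => ⟨(h1 i).1, (h1 i).2.1.trans hxt, (h1 i).2.2⟩,
      fun h3 => h2 (hRR x (2 ^ t) hxt htx a (fun i => ⟨(h1 i).1, (h1 i).2.1⟩) h3)⟩
  have hlog : L ≤ Real.log (2 ^ t) := by
    rw [hLd]
    apply Real.log_le_log hN0
    exact_mod_cast hNt
  have hx0 : 0 < x := by linarith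
  have hP0 : 0 ≤ ∏ i, x / (q i : ℝ) := prod_nonneg fun i _ => div_nonneg hx0.le (hq0 i).le
  have hP : ∏ i, (2 : ℝ) ^ t / q i ≤ 2 ^ k * ∏ i, x / (q i : ℝ) := by
    calc ∏ i, (2 : ℝ) ^ t / q i ≤ ∏ i, 2 * (x / (q i : ℝ)) := by
          apply prod_le_prod (fun i _ => by have := hq0 i; positivity)
          intro i _
          rw [← mul_div_assoc]
          exact div_le_div_of_nonneg_right htx (hq0 i).le
      _ = _ := by rw [prod_mul_distrib, prod_const, card_univ, Fintype.card_fin]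
  calc ((excS R x q).ncard : ℝ) ≤ ((excS R' (2 ^ t) q).ncard : ℝ) := by
        exact_mod_cast Set.ncard_le_ncard hsub (excS_finite _ _ _)
    _ ≤ (∏ i, (2 : ℝ) ^ t / q i) / Real.log (2 ^ t) ^ (E + 1) := key
    _ ≤ (2 ^ k * ∏ i, x / (q i : ℝ)) / L ^ (E + 1) := by
        apply div_le_div₀ (by positivity) hP (by positivity)
        exact pow_le_pow_left₀ hL0.le hlog _
    _ = (∏ i, x / (q i : ℝ)) / L ^ E * (2 ^ k / L) := by
        rw [pow_succ]
        field_simp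
    _ ≤ (∏ i, x / (q i : ℝ)) / L ^ E * 1 := by
        apply mul_le_mul_of_nonneg_left _ (by positivity)
        rw [div_le_one hL0]
        exact hL
    _ = _ := mul_one _

open Classical in
/-- **Systems at all heights.** -/
theorem all_sys (hk : 1 ≤ k) (R R' : ℝ → (Fin k → ℕ) → Prop) (ε : ℝ) (hε : 0 < ε)
    (hlow : ∀ B D : ℕ, 2 ≤ B → ∃ M₀ : ℕ, ∀ M : ℕ, M₀ ≤ M → ∀ x : ℝ, x ≤ M → (M : ℝ) ≤ x * Real.log M ^ D →
      ∀ a : Fin k → ℕ, (∀ i, 1 ≤ a i ∧ (a i : ℝ) ≤ x) →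
      HW consA consB ε (D + 1) B (D + 1) M (fun i => (a i : ℤ)) → R x a)
    (hhigh : ∀ E : ℕ, ∃ e : ℕ, ∀ S : ℕ, ∃ x₀ : ℕ, ∀ x : ℕ, x₀ ≤ x → ∃ D : Finset ℕ, (D.card : ℝ) ≤ Real.log x ^ e ∧
      (∀ d ∈ D, Real.log x ^ S < (d : ℝ)) ∧ ∀ q : Fin k → ℕ, (∀ i, 1 ≤ q i ∧ (q i : ℝ) ≤ (x : ℝ) ^ (2 / 3 - 1 / 12 : ℝ) ∧
        ∀ d ∈ D, ¬ d ∣ q i) → ((excS R' x q).ncard : ℝ) ≤ (∏ i, (x : ℝ) / q i) / Real.log x ^ E)
    (hRR : ∀ x y : ℝ, x ≤ y → y ≤ 2 * x → ∀ a : Fin k → ℕ, (∀ i, 1 ≤ a i ∧ (a i : ℝ) ≤ x) → R' y a → R x a)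
    (h B C E W U : ℕ) (hh : 1 ≤ h) : ∃ N₀ : ℕ, ∀ N : ℕ, N₀ ≤ N →
    ∀ (ι : Fin k → Type) [∀ i, Fintype (ι i)] (v : ∀ i, ι i → ℤ), (∀ i j, |v i j| ≤ B * N) →
    (∀ i, (En h (v i) : ℝ) * N ≤ Real.log N ^ C * (Fintype.card (ι i) : ℝ) ^ (2 * h)) →
    ((univ.filter (fun t : ∀ i, ι i => ¬ AllS R E W (Real.log N) (fun i => v i (t i)))).card : ℝ) ≤
      (∏ i, (Fintype.card (ι i) : ℝ)) / Real.log N ^ U := by
  obtain ⟨T₀, n0, hT₀, hsmall⟩ := small_members h C (U + 1) hh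
  obtain ⟨T, hT⟩ : ∃ T, T = T₀ + 1 := ⟨_, rfl⟩
  obtain ⟨M₀, hM₀⟩ := hlow (B + 2) (T + 1) (by omega)
  obtain ⟨n1, h1⟩ := multiplesS (k := k) hk ε hε h B C (T + 2) (T + 2) (E + (T + 1) * k) 2 (U + 1) W hh
  obtain ⟨c, hc⟩ := hhigh (E + 1)
  obtain ⟨S, hS⟩ := no_divisors h B C (U + 1) W c hh
  obtain ⟨x₀, hx⟩ := hc S
  choose D hD1 hD2 hD3 using hx
  obtain ⟨t₁, ht₁⟩ := pow_unbounded_of_one_lt x₀ (by norm_num : 1 < 2)
  have hge : ∀ t : ℕ, t₁ ≤ t → x₀ ≤ 2 ^ t := fun t ht => ht₁.le.trans (Nat.pow_le_pow_right (by norm_num) ht)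
  obtain ⟨D', hD'⟩ : ∃ D' : ℕ → Finset ℕ, ∀ t, D' t = if ht : x₀ ≤ 2 ^ t then D (2 ^ t) ht else ∅ := ⟨_, fun _ => rfl⟩
  obtain ⟨n2, h2⟩ := hS t₁
  have hlt : ∀ t : ℕ, Real.log (((2 ^ t : ℕ)) : ℝ) = (t : ℝ) * Real.log 2 := fun t => by
    push_cast
    exact Real.log_pow 2 t
  have h2' := h2 D' (fun t ht => by
    rw [hD', dif_pos (hge t ht), ← hlt]
    exact ⟨hD1 _ _, hD2 _ _⟩)
  obtain ⟨n3, hlog⟩ := Pool.Agent.H373R2.T7.ev_L' (4 * ((B : ℝ) + 1) + 2 ^ k + (2 * k + 1))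
  obtain ⟨n4, hpow⟩ := Pool.Agent.H373R2.T7.ev_log' W 1
  obtain ⟨n5, hpow5⟩ := Pool.Agent.H373R2.T7.ev_log' T 4
  obtain ⟨n6, hpow6⟩ := Pool.Agent.H373R2.T7.ev_log' (T₀ + W) 2
  obtain ⟨P₀, hP₀⟩ : ∃ P₀ : ℕ, P₀ = 2 ^ t₁ := ⟨_, rfl⟩
  obtain ⟨B₀, hB₀⟩ : ∃ B₀ : ℕ, B₀ = (B + 1) ^ 6 := ⟨_, rfl⟩
  refine ⟨n0 + n1 + n2 + n3 + n4 + n5 + n6 + M₀ + P₀ + B₀ + 4, fun N hN ι _ v hv hE => ?_⟩
  have hNr : (4 : ℝ) ≤ N := by exact_mod_cast (by omega : 4 ≤ N)
  have hsN : √(N : ℝ) ≤ N := by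
    rw [Real.sqrt_le_left (by linarith)]
    nlinarith
  have hLbig := hlog N (by omega)
  have hWs := (hpow N (by omega)).trans hsN
  have hTs := (hpow5 N (by omega)).trans hsN
  have hTWs := (hpow6 N (by omega)).trans hsN
  rw [one_mul] at hWs
  have hB0 : (0 : ℝ) ≤ B := Nat.cast_nonneg _
  have hk0 : (0 : ℝ) ≤ k := Nat.cast_nonneg _
  have hk2 : (0 : ℝ) < 2 ^ k := by positivity
  have k1 := h1 N (by omega) ι v hv hE
  have k2 : ∀ i, ((univ.filter (fun t : ∀ i, ι i => |(v i (t i) : ℝ)| * Real.log N ^ T₀ < N)).card : ℝ) ≤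
      (∏ i, (Fintype.card (ι i) : ℝ)) / Real.log N ^ (U + 1) := fun i =>
    card_coord i (fun x => |(v i x : ℝ)| * Real.log N ^ T₀ < N) _ (hsmall N (by omega) (ι i) (v i) (hE i))
  have k3 : ∀ i, ((univ.filter (fun t : ∀ i, ι i => ∃ q : ℕ, 1 ≤ q ∧ |(q : ℝ) - v i (t i)| ≤ Real.log N ^ W ∧
      ∃ s : ℕ, N ≤ 2 ^ s ∧ ∃ d ∈ D' s, d ∣ q)).card : ℝ) ≤ (∏ i, (Fintype.card (ι i) : ℝ)) / Real.log N ^ (U + 1) := fun i =>
    card_coord i (fun x => ∃ q : ℕ, 1 ≤ q ∧ |(q : ℝ) - v i x| ≤ Real.log N ^ W ∧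
      ∃ s : ℕ, N ≤ 2 ^ s ∧ ∃ d ∈ D' s, d ∣ q) _ (h2' N (by omega) (ι i) (v i) (hv i) (hE i))
  obtain ⟨L, hL⟩ : ∃ L, L = Real.log (N : ℝ) := ⟨_, rfl⟩
  obtain ⟨Pr, hPr⟩ : ∃ Pr : ℝ, Pr = ∏ i, (Fintype.card (ι i) : ℝ) := ⟨_, rfl⟩
  have hPr0 : 0 ≤ Pr := by rw [hPr]; exact prod_nonneg fun _ _ => Nat.cast_nonneg _
  have hsub : univ.filter (fun t : ∀ i, ι i => ¬ AllS R E W (Real.log N) (fun i => v i (t i))) ⊆
      univ.filter (fun t : ∀ i, ι i => ¬ GoodS ε (T + 2) (B + 2) (T + 2) (E + (T + 1) * k) 2 W N (fun i => v i (t i))) ∪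
      (univ.biUnion (fun i => univ.filter (fun t : ∀ i, ι i => |(v i (t i) : ℝ)| * Real.log N ^ T₀ < N)) ∪
      univ.biUnion (fun i => univ.filter (fun t : ∀ i, ι i => ∃ q : ℕ, 1 ≤ q ∧ |(q : ℝ) - v i (t i)| ≤ Real.log N ^ W ∧
        ∃ s : ℕ, N ≤ 2 ^ s ∧ ∃ d ∈ D' s, d ∣ q))) := by
    intro t ht
    rw [mem_filter] at ht
    by_contra hcon
    rw [mem_union, mem_union, mem_biUnion, mem_biUnion, mem_filter] at hcon
    push Not at hcon
    obtain ⟨c1, c2, c3⟩ := hcon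
    apply ht.2
    intro q hq1 hq2 x hx0
    have c2' : ∀ i, (N : ℝ) ≤ |(v i (t i) : ℝ)| * Real.log N ^ T₀ := by
      intro i
      have := c2 i (mem_univ _)
      rw [mem_filter] at this
      push Not at this
      exact this (mem_univ _)
    have hq4 : ∀ i, (q i : ℝ) ≤ (B + 1) * N := by
      intro i
      have e1 := (abs_le.1 (hq2 i)).2
      have e2 : (v i (t i) : ℝ) ≤ B * N := by
        have := (le_abs_self (v i (t i))).trans (hv i (t i))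
        exact_mod_cast this
      linarith
    have hq3 : ∀ i, (N : ℝ) ≤ q i * Real.log N ^ T := by
      intro i
      rw [← hL] at hLbig hTWs
      have hL2 : 2 ≤ L := by linarith
      have hL0 : 0 < L := by linarith
      have e1 := c2' i
      have e2 := hq2 i
      rw [← hL] at e1 e2 ⊢
      have e3 : |(v i (t i) : ℝ)| ≤ q i + L ^ W := by
        have e4 : |(v i (t i) : ℝ)| ≤ |(q i : ℝ)| + |(q i : ℝ) - v i (t i)| := by
          have e5 : (v i (t i) : ℝ) = q i - (q i - v i (t i)) := by ring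
          calc |(v i (t i) : ℝ)| = |(q i : ℝ) - (q i - v i (t i))| := by rw [← e5]
            _ ≤ _ := abs_sub _ _
        rw [Nat.abs_cast] at e4
        linarith
      have e4 : (N : ℝ) ≤ q i * L ^ T₀ + L ^ (T₀ + W) := by
        calc (N : ℝ) ≤ |(v i (t i) : ℝ)| * L ^ T₀ := e1
          _ ≤ (q i + L ^ W) * L ^ T₀ := mul_le_mul_of_nonneg_right e3 (by positivity)
          _ = _ := by rw [pow_add]; ring
      have e5 : (N : ℝ) ≤ 2 * (q i * L ^ T₀) := by linarith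
      rw [hT, pow_succ]
      have e6 : 0 ≤ (q i : ℝ) * L ^ T₀ := by positivity
      nlinarith
    rcases le_or_gt x ((N : ℝ) ^ 2) with hxN | hxN
    · exact lowS hk R ε B E T W N M₀ (fun i => v i (t i)) (by omega) (by linarith) hTs hM₀ (c1 (mem_univ _)) q hq1 hq2 hq3 hq4 x hx0 hxN
    · refine highS R R' B E N D' (by omega) (by linarith) hRR ?_ q hq1 hq4 ?_ x hxN
      · intro s hs q' hq'
        have htt : t₁ ≤ s := by
          have e1 : 2 ^ t₁ ≤ 2 ^ s := by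
            rw [← hP₀]
            exact le_trans (by omega) hs
          exact (Nat.pow_le_pow_iff_right (by norm_num)).1 e1
        rw [hD', dif_pos (hge s htt)] at hq'
        have e1 := hD3 _ (hge s htt) q' (by
          push_cast
          exact hq')
        push_cast at e1
        exact e1
      · intro s hs d hd i hdi
        have := c3 i (mem_univ _)
        rw [mem_filter] at this
        push Not at this
        exact this (mem_univ _) (q i) (hq1 i) (hq2 i) s hs d hd hdi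
  rw [← hL] at k1 k2 k3 hLbig ⊢
  rw [← hL] at hsub
  rw [← hPr] at k1 k2 k3 ⊢
  have hL0 : 0 < L := by linarith
  have b1 : ((univ.biUnion (fun i => univ.filter (fun t : ∀ i, ι i => |(v i (t i) : ℝ)| * L ^ T₀ < N))).card : ℝ) ≤
      k * (Pr / L ^ (U + 1)) := by
    refine (Nat.cast_le.2 card_biUnion_le).trans ?_
    push_cast
    refine (sum_le_sum fun i _ => k2 i).trans (le_of_eq ?_)
    rw [sum_const, card_univ, Fintype.card_fin, nsmul_eq_mul]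
  have b2 : ((univ.biUnion (fun i => univ.filter (fun t : ∀ i, ι i => ∃ q : ℕ, 1 ≤ q ∧ |(q : ℝ) - v i (t i)| ≤ L ^ W ∧
        ∃ s : ℕ, N ≤ 2 ^ s ∧ ∃ d ∈ D' s, d ∣ q))).card : ℝ) ≤ k * (Pr / L ^ (U + 1)) := by
    refine (Nat.cast_le.2 card_biUnion_le).trans ?_
    push_cast
    refine (sum_le_sum fun i _ => k3 i).trans (le_of_eq ?_)
    rw [sum_const, card_univ, Fintype.card_fin, nsmul_eq_mul]
  have hfin := (Nat.cast_le (α := ℝ)).2 ((card_le_card hsub).trans ((card_union_le _ _).trans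
    (Nat.add_le_add_left (card_union_le _ _) _)))
  push_cast at hfin
  calc ((univ.filter (fun t : ∀ i, ι i => ¬ AllS R E W L (fun i => v i (t i)))).card : ℝ) ≤
        Pr / L ^ (U + 1) + (k * (Pr / L ^ (U + 1)) + k * (Pr / L ^ (U + 1))) :=
        hfin.trans (add_le_add k1 (add_le_add b1 b2))
    _ = Pr / L ^ U * ((2 * k + 1) / L) := by
        rw [pow_succ]
        field_simp
        ring
    _ ≤ Pr / L ^ U * 1 := by
        apply mul_le_mul_of_nonneg_left _ (by positivity)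
        rw [div_le_one hL0]
        linarith
    _ = _ := mul_one _

end Pool.Agent.T9h51.PE
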