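import Pool.Agent.T9h51.PE.SysForm
import Pool.Agent.T9h51.PE.SysAll

/-!
# Schinzel's formula for systems at all heights
-/

set_option autoImplicit false

namespace Pool.Agent.T9h51.PE.SF

open Finset Filter Topology
open Pool.Agent.TH935.TF (HW consA consB om Gz Fq cn Adm Dist)

variable {g : ℕ}

lemma conv_Q (c₀ : ℕ) (c : Fin g → ℕ) (N : ℕ) (a : Fin g → ℕ) :
    Pool.Agent.Results.MP_0bf1d2_nt.LocalConditionSystems.Q₁ (fun i => (c i : ℤ)) (fun i => (a i : ℤ)) c₀ 0 N =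
      Pool.Agent.Results.MP_0bf1d2_nt.LinearFormsLargeRadical.Q₁ true c₀ c N a := by
  unfold Pool.Agent.Results.MP_0bf1d2_nt.LocalConditionSystems.Q₁ Pool.Agent.Results.MP_0bf1d2_nt.LinearFormsLargeRadical.Q₁
  congr 1
  ext n
  rw [Set.mem_ofPred_eq, Set.mem_ofPred_eq]
  unfold Pool.Agent.Results.MP_0bf1d2_nt.LocalConditionSystems.AllPrime
    Pool.Agent.Results.MP_0bf1d2_nt.LinearFormsLargeRadical.AllPrime
  have e1 : ∀ i : Fin g, ((c i : ℤ) * n + a i).toNat = c i * n + a i := by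
    intro i
    have : ((c i : ℤ) * n + a i) = ((c i * n + a i : ℕ) : ℤ) := by push_cast; ring
    rw [this, Int.toNat_natCast]
  simp only [e1, add_zero, forall_const, eq_self_iff_true]
  tauto

lemma conv_X (c₀ N : ℕ) : Pool.Agent.Results.MP_0bf1d2_nt.LocalConditionSystems.X c₀ 0 N =
    Pool.Agent.Results.MP_0bf1d2_nt.LinearFormsLargeRadical.XN c₀ N := by
  unfold Pool.Agent.Results.MP_0bf1d2_nt.LocalConditionSystems.X Pool.Agent.Results.MP_0bf1d2_nt.LinearFormsLargeRadical.XN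
  simp only [add_zero]

lemma conv_val (c₀ : ℕ) (c : Fin g → ℕ) (N : ℕ) (a : Fin g → ℕ) (n : ℤ) :
    n * (∏ i, ((c i : ℤ) * n + (a i : ℤ))) * ((N : ℤ) - ((c₀ : ℤ) * n + 0)) =
      Pool.Agent.Results.MP_0bf1d2_nt.LinearFormsLargeRadical.value true c₀ c N a n := by
  unfold Pool.Agent.Results.MP_0bf1d2_nt.LinearFormsLargeRadical.value
  rw [if_pos rfl]
  ring

lemma conv_sing (c₀ : ℕ) (c : Fin g → ℕ) (N : ℕ) (a : Fin g → ℕ) :
    Pool.Agent.Results.MP_0bf1d2_nt.LocalConditionSystems.sing (fun i => (c i : ℤ)) (fun i => (a i : ℤ)) c₀ 0 N =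
      Pool.Agent.Results.MP_0bf1d2_nt.LinearFormsLargeRadical.product true c₀ c N a := by
  funext z
  unfold Pool.Agent.Results.MP_0bf1d2_nt.LocalConditionSystems.sing
    Pool.Agent.Results.MP_0bf1d2_nt.LinearFormsLargeRadical.product
  apply prod_congr rfl
  intro p _
  have e : Pool.Agent.Results.MP_0bf1d2_nt.LocalConditionSystems.omega (fun i => (c i : ℤ)) (fun i => (a i : ℤ)) c₀ 0 N p =
      Pool.Agent.Results.MP_0bf1d2_nt.LinearFormsLargeRadical.omega true c₀ c N a p := by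
    unfold Pool.Agent.Results.MP_0bf1d2_nt.LocalConditionSystems.omega
      Pool.Agent.Results.MP_0bf1d2_nt.LinearFormsLargeRadical.omega
    simp only [conv_val]
  rw [e]
  rfl

lemma conv_fix (c₀ : ℕ) (c : Fin g → ℕ) (N : ℕ) (a : Fin g → ℕ) :
    Pool.Agent.Results.MP_0bf1d2_nt.LocalConditionSystems.NoFixed (fun i => (c i : ℤ)) (fun i => (a i : ℤ)) c₀ 0 N ↔
      Pool.Agent.Results.MP_0bf1d2_nt.LinearFormsLargeRadical.NoFixed true c₀ c N a := by
  unfold Pool.Agent.Results.MP_0bf1d2_nt.LocalConditionSystems.NoFixed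
    Pool.Agent.Results.MP_0bf1d2_nt.LinearFormsLargeRadical.NoFixed
  simp only [conv_val]

/-- the singular series is positive -/
lemma series_pos (c₀ : ℕ) (hc₀ : 1 ≤ c₀) (c : Fin g → ℕ) (hc : ∀ i, 1 ≤ c i) (N : ℕ) (hN : 1 ≤ N) (a : Fin g → ℕ)
    (ha : ∀ i, 1 ≤ a i) (hd : ∀ i j : Fin g, i ≠ j → ¬ (c i = c j ∧ a i = a j))
    (hfix : Pool.Agent.Results.MP_0bf1d2_nt.LinearFormsLargeRadical.NoFixed true c₀ c N a) (S : ℝ)
    (hS : Pool.Agent.Results.MP_0bf1d2_nt.LinearFormsLargeRadical.IsSeries true c₀ c N a S) : 0 < S := by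
  obtain ⟨α, hα⟩ : ∃ α : Fin (g + 1 + 1) → ℤ, α = consA (Fin.cons (-(c₀ : ℤ)) (fun i => (c i : ℤ)) : Fin (g + 1) → ℤ) := ⟨_, rfl⟩
  obtain ⟨β, hβ⟩ : ∃ β : Fin (g + 1 + 1) → ℤ, β = consB (Fin.cons ((N : ℤ) - 0) (fun i => (a i : ℤ)) : Fin (g + 1) → ℤ) := ⟨_, rfl⟩
  have a0 : α 0 = 1 := by rw [hα]; rfl
  have b0 : β 0 = 0 := by rw [hβ]; rfl
  have a1 : α (Fin.succ 0) = -(c₀ : ℤ) := by rw [hα]; rfl
  have b1 : β (Fin.succ 0) = N := by rw [hβ]; exact sub_zero _
  have a2 : ∀ i : Fin g, α i.succ.succ = c i := fun i => by rw [hα]; rfl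
  have b2 : ∀ i : Fin g, β i.succ.succ = a i := fun i => by rw [hβ]; rfl
  have hadm : Adm α β := by
    intro p hp
    obtain ⟨n, hn⟩ := (conv_fix c₀ c N a).2 hfix p hp
    refine ⟨n, fun i hi => hn ?_⟩
    rw [hα, hβ] at hi
    exact (Pool.Agent.Results.MP_0bf1d2_nt.LocalConditionSystems.dvd3 (fun i => (c i : ℤ)) (fun i => (a i : ℤ)) c₀ 0 N p hp n).2 ⟨i, hi⟩
  have hdist : Dist α β := by
    intro i j
    refine Fin.cases ?_ (fun i => ?_) i <;> refine Fin.cases ?_ (fun j => ?_) j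
    · intro h; exact absurd rfl h
    · intro _
      refine Fin.cases ?_ (fun j => ?_) j
      · rw [a0, b0, a1, b1]
        constructor <;> rintro ⟨h4, h5⟩ <;> omega
      · rw [a0, b0, a2, b2]
        have h6 := ha j
        constructor <;> rintro ⟨h4, h5⟩ <;> omega
    · intro _
      refine Fin.cases ?_ (fun i => ?_) i
      · rw [a0, b0, a1, b1]
        constructor <;> rintro ⟨h4, h5⟩ <;> omega
      · rw [a0, b0, a2, b2]
        have h6 := ha i
        constructor <;> rintro ⟨h4, h5⟩ <;> omega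
    · refine Fin.cases ?_ (fun i => ?_) i <;> refine Fin.cases ?_ (fun j => ?_) j
      · intro h; exact absurd rfl h
      · intro _
        rw [a1, b1, a2, b2]
        have h6 := ha j
        constructor <;> rintro ⟨h4, h5⟩ <;> omega
      · intro _
        rw [a1, b1, a2, b2]
        have h6 := ha i
        constructor <;> rintro ⟨h4, h5⟩ <;> omega
      · intro hij
        rw [a2, b2, a2, b2]
        have h6 := hc i
        constructor
        · rintro ⟨h4, h5⟩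
          exact hd i j (fun h => hij (by rw [h])) ⟨by exact_mod_cast h4, by exact_mod_cast h5⟩
        · rintro ⟨h4, h5⟩
          omega
  have hα0 : ∀ i, α i ≠ 0 := by
    intro i
    refine Fin.cases ?_ (fun i => ?_) i
    · rw [a0]; norm_num
    · refine Fin.cases ?_ (fun i => ?_) i
      · rw [a1]; omega
      · rw [a2]; have := hc i; omega
  obtain ⟨δ, hδ, hlow⟩ := Pool.Agent.TH935.TF.Gz_low (g + 1 + 1) (by omega)
  have h1 := hlow _ _ (Pool.Agent.TH935.TF.loc_of hadm hdist hα0)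
  unfold Pool.Agent.Results.MP_0bf1d2_nt.LinearFormsLargeRadical.IsSeries at hS
  rw [← conv_sing, Pool.Agent.Results.MP_0bf1d2_nt.LocalConditionSystems.sing_eq, ← hα, ← hβ] at hS
  exact hδ.trans_le (ge_of_tendsto' hS h1)

open Pool.Agent.Results.MP_0bf1d2_nt.LinearFormsLargeRadical (Q₁ XN IsSeries NoFixed)

/-- Schinzel's formula for one vector -/
def Good (ε : ℝ) (c₀ : ℕ) (c : Fin g → ℕ) (x : ℝ) (β : Fin (g + 1) → ℕ) : Prop :=
  (∀ i j : Fin g, i ≠ j → ¬ (c i = c j ∧ β i.succ = β j.succ)) → NoFixed true c₀ c (β 0) (fun i => β i.succ) →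
  ε * x ≤ XN c₀ (β 0) → ∃ S : ℝ, 0 < S ∧ IsSeries true c₀ c (β 0) (fun i => β i.succ) S ∧
    |(Q₁ true c₀ c (β 0) (fun i => β i.succ) : ℝ) - S * (XN c₀ (β 0) / Real.log (XN c₀ (β 0)) ^ (g + 2))| ≤
      ε * (S * (XN c₀ (β 0) / Real.log (XN c₀ (β 0)) ^ (g + 2)))

lemma lowc (ε : ℝ) (hε : 0 < ε) (c₀ : ℕ) (hc₀ : 1 ≤ c₀) (c : Fin g → ℕ) (hc : ∀ i, 1 ≤ c i) (B D : ℕ) (hB : 1 ≤ B) :
    ∃ M₀ : ℕ, ∀ M : ℕ, M₀ ≤ M → ∀ x : ℝ, x ≤ M → (M : ℝ) ≤ x * Real.log M ^ D →
      ∀ a : Fin (g + 1) → ℕ, (∀ i, 1 ≤ a i ∧ (a i : ℝ) ≤ x) →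
      HW consA consB (ε / 4) (D + 1) (B + 1) (D + 1) M (fun i => (a i : ℤ)) → Good ε c₀ c x a := by
  obtain ⟨n1, h1⟩ := formula_of (g := g) B (D + 1) ε hε
  obtain ⟨n2, h2⟩ := Pool.Agent.H373R2.T7.ev_L' (1 / ε + c₀ + ∑ i, (c i : ℝ) + 1)
  refine ⟨n1 + n2 + 1, fun M hM x hxM hMx a ha hHW hd hfix hX => ?_⟩
  have hL := h2 M (by omega)
  have hM0 : (0 : ℝ) < M := by exact_mod_cast (by omega : 0 < M)
  have hs0 : 0 ≤ ∑ i, (c i : ℝ) := sum_nonneg fun _ _ => Nat.cast_nonneg _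
  have hci : ∀ i, (c i : ℝ) ≤ ∑ i, (c i : ℝ) := fun i =>
    single_le_sum (f := fun i => (c i : ℝ)) (fun _ _ => Nat.cast_nonneg _) (mem_univ i)
  have hε1 : 0 < 1 / ε := by positivity
  have hc0 : (0 : ℝ) ≤ c₀ := Nat.cast_nonneg _
  have hL1 : 1 ≤ Real.log (M : ℝ) := by linarith
  have hLD : Real.log M ≤ Real.log (M : ℝ) ^ (D + 1) := le_self_pow₀ hL1 (by omega)
  have hLD0 : 0 < Real.log (M : ℝ) ^ D := by positivity
  have hx0 : 0 < x := lt_of_lt_of_le (by positivity) ((div_le_iff₀ hLD0).2 hMx)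
  have key := h1 M (by omega) (fun i => (a i : ℤ)) (fun i => by
      rw [Nat.abs_cast]
      have e1 : (a i : ℝ) ≤ ((B * M : ℕ) : ℝ) := by
        have e2 : M ≤ B * M := Nat.le_mul_of_pos_left _ hB
        refine ((ha i).2.trans hxM).trans ?_
        exact_mod_cast e2
      exact_mod_cast e1) hHW (fun i => (c i : ℤ)) c₀ 0 (fun i => ⟨by exact_mod_cast hc i, by
        have := hci i
        rw [Int.cast_natCast]
        linarith⟩) (by exact_mod_cast hc₀) (by
        rw [Int.cast_natCast]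
        linarith) rfl (fun i => Int.natCast_nonneg _) (fun i hi => by
        have := (ha i.succ).1
        have h3 := hi.2
        omega) (fun i j hij hcon => hd i j hij ⟨by exact_mod_cast hcon.1, by exact_mod_cast hcon.2⟩)
      ((conv_fix c₀ c (a 0) (fun i => a i.succ)).2 hfix) (by
        rw [conv_X]
        refine le_trans ?_ hX
        rw [div_le_iff₀ (by positivity)]
        have e1 : 1 ≤ ε * Real.log M := by
          have e2 : 1 / ε ≤ Real.log M := by linarith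
          rw [div_le_iff₀ hε] at e2
          linarith
        calc (M : ℝ) ≤ x * Real.log M ^ D := hMx
          _ = x * Real.log M ^ D * 1 := by ring
          _ ≤ x * Real.log M ^ D * (ε * Real.log M) := mul_le_mul_of_nonneg_left e1 (by positivity)
          _ = _ := by ring)
  obtain ⟨S, hS0, hS1, hS2⟩ := key
  refine ⟨S, hS0, ?_, ?_⟩
  · unfold IsSeries
    rw [← conv_sing]
    exact hS1
  · have e1 := conv_Q c₀ c (a 0) (fun i => a i.succ)
    have e2 := conv_X c₀ (a 0)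
    rw [← e1, ← e2]
    exact hS2

end Pool.Agent.T9h51.PE.SF
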