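import Pool.Agent.Results.MP_0bf1d2_nt.LocalConditionSystems
import Pool.Agent.Results.MP_0bf1d2_nt.LinearFormsLargeRadical

/-!
# Schinzel's formula for one system
-/

set_option autoImplicit false

namespace Pool.Agent.T9h51.PE.SF

open Finset Filter Topology
open Pool.Agent.T9h51.LR (log_ratio)
open Pool.Agent.Results.MP_0bf1d2_nt.LocalConditionSystems
open Pool.Agent.TH935.TF (HW consA consB om Gz Fq cn Adm Dist)

variable {g : ℕ}

/-- from the windows to the formula, for one vector -/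
lemma formula_of (B D : ℕ) (ε : ℝ) (hε : 0 < ε) : ∃ M₀ : ℕ, ∀ M : ℕ, M₀ ≤ M → ∀ β : Fin (g + 1) → ℤ,
    (∀ i, |β i| ≤ B * M) → HW consA consB (ε / 4) D (B + 1) D M β →
    ∀ (a : Fin g → ℤ) (a₀ b₀ : ℤ), (∀ i, 1 ≤ a i ∧ (a i : ℝ) ≤ Real.log M ^ D) → 1 ≤ a₀ → (a₀ : ℝ) ≤ Real.log M ^ D →
    b₀ = 0 → (∀ i : Fin g, 0 ≤ β i.succ) → (∀ i : Fin g, ¬ (a i = 1 ∧ β i.succ = 0)) →
    (∀ i j : Fin g, i ≠ j → ¬ (a i = a j ∧ β i.succ = β j.succ)) → NoFixed a (fun i => β i.succ) a₀ b₀ (β 0) →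
    (M : ℝ) / Real.log M ^ D ≤ X a₀ b₀ (β 0) → Formula ε a (fun i => β i.succ) a₀ b₀ (β 0) := by
  obtain ⟨W, hW⟩ : ∃ W : ℕ, W = 0 := ⟨_, rfl⟩
  obtain ⟨n1, h1⟩ := log_ratio (g + 2) D (B + 1) (min (ε / 2) (1 / 2)) (lt_min (by positivity) (by norm_num))
  obtain ⟨n2, h2⟩ := Pool.Agent.H373R2.T7.ev_L' 1
  obtain ⟨n3, h3⟩ := Pool.Agent.H373R2.T7.ev_log' W 1
  refine ⟨n1 + n2 + n3 + 3, fun M hM β hβ hHW => ?_⟩
  intro a a₀ b₀ ha ha1 ha2 hb₀0 hβ0 hd1 hd2 hfix hX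
  have hb₀ : |(b₀ : ℝ)| ≤ Real.log M ^ W := by
    rw [hb₀0, Int.cast_zero, abs_zero]
    exact pow_nonneg (Real.log_natCast_nonneg _) _
  have hHW' : HW consA consB (ε / 4) D (B + 1) D M (Fin.cons (β 0 - b₀) (fun i : Fin g => β i.succ) : Fin (g + 1) → ℤ) := by
    have e : (Fin.cons (β 0 - b₀) (fun i : Fin g => β i.succ) : Fin (g + 1) → ℤ) = β := by
      rw [hb₀0, sub_zero]
      exact Fin.cons_self_tail β
    rw [e]
    exact hHW
  have hL1 := h2 M (by omega)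
  have hbM := h3 M (by omega)
  have hM3 : (3 : ℝ) ≤ M := by exact_mod_cast (by omega : 3 ≤ M)
  have hML : (0 : ℝ) < (M : ℝ) / Real.log M ^ D := by positivity
  obtain ⟨Y, hY⟩ : ∃ Y, Y = ((β 0 - b₀ - 1) / a₀).toNat := ⟨_, rfl⟩
  have hXY : X a₀ b₀ (β 0) = Y := by
    unfold X
    have : {n : ℕ | 1 ≤ n ∧ 0 < β 0 - (a₀ * n + b₀)} = ((Ioc 0 Y : Finset ℕ) : Set ℕ) := by
      ext n
      rw [Set.mem_ofPred_eq, X_eq a₀ b₀ (β 0) ha1 n, mem_coe, hY]
    rw [this, Set.ncard_coe_finset, Nat.card_Ioc]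
    omega
  rw [hXY] at hX
  have hY0 : (0 : ℝ) < Y := lt_of_lt_of_le hML hX
  have hYpos : 0 < Y := by exact_mod_cast hY0
  have hYmem : 0 < β 0 - (a₀ * (Y : ℤ) + b₀) := by
    have := (X_eq a₀ b₀ (β 0) ha1 Y).2 (by rw [mem_Ioc]; omega)
    exact this.2
  have hNb : 0 < β 0 - b₀ := by
    have : 0 < a₀ * (Y : ℤ) := by positivity
    omega
  have hbM' : |(b₀ : ℝ)| ≤ M := by
    rw [one_mul] at hbM
    refine hb₀.trans (hbM.trans ?_)
    rw [Real.sqrt_le_left (by linarith)]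
    nlinarith
  have hYB : Y ≤ (B + 1) * M := by
    have h4 : (Y : ℤ) ≤ β 0 - b₀ := by nlinarith
    have h5 : |b₀| ≤ (M : ℤ) := by exact_mod_cast (by simpa using hbM' : ((|b₀| : ℤ) : ℝ) ≤ M)
    have h6 := le_abs_self (β 0)
    have h7 := neg_abs_le b₀
    have h8 := hβ 0
    have : (Y : ℤ) ≤ ((B + 1) * M : ℕ) := by
      push_cast
      linarith
    exact_mod_cast this
  -- the system
  have hα0 : ∀ i, (Fin.cons (-a₀) a : Fin (g + 1) → ℤ) i ≠ 0 := by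
    intro i
    refine Fin.cases ?_ (fun i => ?_) i
    · rw [Fin.cons_zero]; omega
    · rw [Fin.cons_succ]; have := (ha i).1; omega
  have hαL : ∀ i, (((Fin.cons (-a₀) a : Fin (g + 1) → ℤ) i).natAbs : ℝ) ≤ Real.log M ^ D := by
    intro i
    refine Fin.cases ?_ (fun i => ?_) i
    · rw [Fin.cons_zero, Nat.cast_natAbs, abs_neg, abs_of_pos (by omega)]
      exact ha2
    · rw [Fin.cons_succ, Nat.cast_natAbs, abs_of_pos (by have := (ha i).1; omega)]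
      exact (ha i).2
  have hadm : Adm (consA (Fin.cons (-a₀) a : Fin (g + 1) → ℤ))
      (consB (Fin.cons (β 0 - b₀) (fun i : Fin g => β i.succ) : Fin (g + 1) → ℤ)) := by
    intro p hp
    obtain ⟨n, hn⟩ := hfix p hp
    refine ⟨n, fun i hi => hn ?_⟩
    exact (dvd3 a _ a₀ b₀ (β 0) p hp n).2 ⟨i, hi⟩
  have hdist : Dist (consA (Fin.cons (-a₀) a : Fin (g + 1) → ℤ))
      (consB (Fin.cons (β 0 - b₀) (fun i : Fin g => β i.succ) : Fin (g + 1) → ℤ)) := by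
    have cA0 : consA (Fin.cons (-a₀) a : Fin (g + 1) → ℤ) 0 = 1 := rfl
    have cB0 : consB (Fin.cons (β 0 - b₀) (fun i : Fin g => β i.succ) : Fin (g + 1) → ℤ) 0 = 0 := rfl
    have cA1 : consA (Fin.cons (-a₀) a : Fin (g + 1) → ℤ) (Fin.succ 0) = -a₀ := rfl
    have cB1 : consB (Fin.cons (β 0 - b₀) (fun i : Fin g => β i.succ) : Fin (g + 1) → ℤ) (Fin.succ 0) = β 0 - b₀ := rfl
    have cA2 : ∀ i : Fin g, consA (Fin.cons (-a₀) a : Fin (g + 1) → ℤ) i.succ.succ = a i := fun _ => rfl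
    have cB2 : ∀ i : Fin g, consB (Fin.cons (β 0 - b₀) (fun i : Fin g => β i.succ) : Fin (g + 1) → ℤ) i.succ.succ = β i.succ :=
      fun _ => rfl
    intro i j
    refine Fin.cases ?_ (fun i => ?_) i <;> refine Fin.cases ?_ (fun j => ?_) j
    · intro h; exact absurd rfl h
    · intro _
      refine Fin.cases ?_ (fun j => ?_) j
      · rw [cA0, cB0, cA1, cB1]
        constructor <;> rintro ⟨h4, h5⟩ <;> omega
      · rw [cA0, cB0, cA2, cB2]
        have h6 := (ha j).1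
        constructor
        · rintro ⟨h4, h5⟩; exact hd1 j ⟨h4.symm, h5.symm⟩
        · rintro ⟨h4, h5⟩; omega
    · intro _
      refine Fin.cases ?_ (fun i => ?_) i
      · rw [cA0, cB0, cA1, cB1]
        constructor <;> rintro ⟨h4, h5⟩ <;> omega
      · rw [cA0, cB0, cA2, cB2]
        have h6 := (ha i).1
        constructor
        · rintro ⟨h4, h5⟩; exact hd1 i ⟨h4, h5⟩
        · rintro ⟨h4, h5⟩; omega
    · refine Fin.cases ?_ (fun i => ?_) i <;> refine Fin.cases ?_ (fun j => ?_) j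
      · intro h; exact absurd rfl h
      · intro _
        rw [cA1, cB1, cA2, cB2]
        have h6 := (ha j).1
        have h7 := hβ0 j
        constructor <;> rintro ⟨h4, h5⟩ <;> omega
      · intro _
        rw [cA1, cB1, cA2, cB2]
        have h6 := (ha i).1
        have h7 := hβ0 i
        constructor <;> rintro ⟨h4, h5⟩ <;> omega
      · intro hij
        rw [cA2, cB2, cA2, cB2]
        have h6 := (ha i).1
        have h7 := (ha j).1
        constructor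
        · exact hd2 i j fun h => hij (by rw [h])
        · rintro ⟨h4, h5⟩; omega
  obtain ⟨S, hS, hlim, hwin⟩ := hHW' _ hα0 hαL hadm hdist
  refine ⟨S, hS, by rw [sing_eq]; exact hlim, ?_⟩
  have hw := hwin 0 Y (Nat.zero_le _) hYB (by rw [Nat.cast_zero, sub_zero]; exact hX)
  have hQ : Q₁ a (fun i => β i.succ) a₀ b₀ (β 0) = cn (consA (Fin.cons (-a₀) a : Fin (g + 1) → ℤ))
      (consB (Fin.cons (β 0 - b₀) (fun i : Fin g => β i.succ) : Fin (g + 1) → ℤ)) 0 Y := by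
    unfold Q₁ cn
    rw [← Set.ncard_coe_finset]
    congr 1
    ext n
    rw [Set.mem_ofPred_eq, mem_coe, mem_filter, Fin.forall_fin_succ, Fin.forall_fin_succ]
    change (1 ≤ n ∧ AllPrime a (fun i => β i.succ) a₀ b₀ (β 0) n) ↔ n ∈ Ioc 0 Y ∧ (1 * (n : ℤ) + 0).natAbs.Prime ∧
      (-a₀ * (n : ℤ) + (β 0 - b₀)).natAbs.Prime ∧ ∀ i : Fin g, (a i * (n : ℤ) + β i.succ).natAbs.Prime
    have e1 : (1 * (n : ℤ) + 0).natAbs = n := by omega
    have e2 : -a₀ * (n : ℤ) + (β 0 - b₀) = β 0 - (a₀ * n + b₀) := by ring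
    have e3 : ∀ i : Fin g, (a i * (n : ℤ) + β i.succ).natAbs = (a i * (n : ℤ) + β i.succ).toNat := by
      intro i
      have h4 : 0 ≤ a i * (n : ℤ) := mul_nonneg (by have := (ha i).1; omega) (Int.natCast_nonneg _)
      have h5 := hβ0 i
      omega
    rw [e1, e2]
    simp only [e3]
    unfold AllPrime
    constructor
    · rintro ⟨h4, h5, h6, h7⟩
      have h8 := h7.pos
      have h9 : 0 < β 0 - (a₀ * n + b₀) := by omega
      refine ⟨by rw [hY]; exact (X_eq a₀ b₀ (β 0) ha1 n).1 ⟨h4, h9⟩, h5, ?_, h6⟩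
      have : (β 0 - (a₀ * n + b₀)).natAbs = (β 0 - (a₀ * n + b₀)).toNat := by omega
      rw [this]
      exact h7
    · rintro ⟨h4, h5, h6, h7⟩
      rw [hY] at h4
      obtain ⟨h8, h9⟩ := (X_eq a₀ b₀ (β 0) ha1 n).2 h4
      refine ⟨h8, h5, h7, ?_⟩
      have : (β 0 - (a₀ * n + b₀)).natAbs = (β 0 - (a₀ * n + b₀)).toNat := by omega
      rw [← this]
      exact h6
  rw [hQ, hXY]
  have hr := h1 M (by omega) Y hX hYB
  rw [Nat.cast_zero, sub_zero] at hw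
  obtain ⟨Z, hZ⟩ : ∃ Z : ℝ, Z = (cn (consA (Fin.cons (-a₀) a : Fin (g + 1) → ℤ))
      (consB (Fin.cons (β 0 - b₀) (fun i : Fin g => β i.succ) : Fin (g + 1) → ℤ)) 0 Y : ℝ) := ⟨_, rfl⟩
  rw [← hZ] at hw ⊢
  have hlogM : 0 < Real.log (M : ℝ) := by linarith
  have hlY : Real.log (Y : ℝ) ≠ 0 := by
    intro h4
    rw [h4, zero_div, zero_pow (by omega), zero_sub, abs_neg, abs_one] at hr
    have := hr.trans (min_le_right _ _)
    norm_num at this
  have hlY0 : 0 < Real.log (Y : ℝ) := lt_of_le_of_ne (Real.log_natCast_nonneg Y) (Ne.symm hlY)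
  obtain ⟨r, hrd⟩ : ∃ r : ℝ, r = (Real.log Y / Real.log M) ^ (g + 2) := ⟨_, rfl⟩
  rw [← hrd] at hr
  obtain ⟨T, hT⟩ : ∃ T : ℝ, T = S * (Y / Real.log (Y : ℝ) ^ (g + 2)) := ⟨_, rfl⟩
  have hT0 : 0 < T := by rw [hT]; positivity
  have e1 : S * (Y : ℝ) / Real.log M ^ (g + 1 + 1) = r * T := by
    rw [hrd, hT, div_pow]
    field_simp
  rw [e1] at hw
  rw [← hT]
  have hr1 : |r - 1| ≤ ε / 2 := hr.trans (min_le_left _ _)
  have hr2 : |r - 1| ≤ 1 / 2 := hr.trans (min_le_right _ _)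
  have hr3 := (abs_le.1 hr2).2
  have hr4 := (abs_le.1 hr2).1
  have e3 : |r * T - T| ≤ ε / 2 * T := by
    have : r * T - T = (r - 1) * T := by ring
    rw [this, abs_mul, abs_of_pos hT0]
    exact mul_le_mul_of_nonneg_right hr1 hT0.le
  have e4 : ε / 4 * (r * T) ≤ ε / 2 * T := by
    have h4 : r * T ≤ 2 * T := mul_le_mul_of_nonneg_right (by linarith) hT0.le
    have h5 := mul_le_mul_of_nonneg_left h4 (by positivity : (0 : ℝ) ≤ ε / 4)
    linarith
  have e5 : |Z - r * T| ≤ ε / 2 * T := hw.trans e4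
  calc |Z - T| = |(Z - r * T) + (r * T - T)| := by congr 1; ring
    _ ≤ |Z - r * T| + |r * T - T| := abs_add_le _ _
    _ ≤ ε / 2 * T + ε / 2 * T := add_le_add e5 e3
    _ = ε * T := by ring

end Pool.Agent.T9h51.PE.SF
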