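import Pool.Agent.TH894.PV6

/-!
# The variance of the primes in the reduced classes of one modulus, for large heights: the deterministic part
-/

set_option autoImplicit false

namespace Pool.Agent.T9h51.PE

open Finset
open Pool.Agent.H373R2.T7
open Pool.Agent.TH894.PA (cz)
open Pool.Agent.TH894.PV

lemma vq_le_log (Q n X : ℕ) (hn : 1 ≤ n) (hX : n ≤ X) : vq Q n ≤ Real.log X := by
  refine (vq_le Q n).trans (ArithmeticFunction.vonMangoldt_le_log.trans ?_)
  exact Real.log_le_log (by exact_mod_cast hn) (by exact_mod_cast hX)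

/-- the trivial bound for a correlation -/
lemma corr_triv (Q h X : ℕ) (hX1 : 1 ≤ X) (hhX : h * Q ≤ X) :
    |∑ n ∈ Icc 1 (X - h * Q), vq Q n * vq Q (n + h * Q)| ≤ X * Real.log X ^ 2 := by
  have hl0 : 0 ≤ Real.log (X : ℝ) := Real.log_natCast_nonneg _
  refine (abs_sum_le_sum_abs _ _).trans ?_
  have h1 : ∀ n ∈ Icc 1 (X - h * Q), |vq Q n * vq Q (n + h * Q)| ≤ Real.log X ^ 2 := by
    intro n hn
    rw [mem_Icc] at hn
    rw [abs_of_nonneg (mul_nonneg (vq_nonneg _ _) (vq_nonneg _ _)), pow_two]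
    exact mul_le_mul (vq_le_log Q n X hn.1 (by omega)) (vq_le_log Q _ X (by omega) (by omega)) (vq_nonneg _ _) hl0
  refine (sum_le_sum h1).trans ?_
  rw [sum_const, Nat.card_Icc, Nat.add_sub_cancel, nsmul_eq_mul]
  apply mul_le_mul_of_nonneg_right _ (by positivity)
  exact_mod_cast Nat.sub_le _ _

/-- the diagonal terms -/
lemma diag_triv (Q X : ℕ) : ∑ n ∈ Icc 1 X, vq Q n ^ 2 ≤ X * Real.log X ^ 2 := by
  have h1 : ∀ n ∈ Icc 1 X, vq Q n ^ 2 ≤ Real.log X ^ 2 := by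
    intro n hn
    rw [mem_Icc] at hn
    exact pow_le_pow_left₀ (vq_nonneg _ _) (vq_le_log Q n X hn.1 hn.2) 2
  refine (sum_le_sum h1).trans ?_
  rw [sum_const, Nat.card_Icc, Nat.add_sub_cancel, nsmul_eq_mul]

/-- **The deterministic part for large heights.** -/
theorem det_big (B A κ : ℕ) : ∀ E : ℕ, ∃ Y₀ : ℕ, ∀ Y : ℕ, Y₀ ≤ Y → ∀ z : ℕ,
    Real.log Y ^ (A + 4) ≤ z → (z : ℝ) ≤ Real.log Y ^ E → ∀ Q : ℕ, 1 ≤ Q →
    ∀ x : ℝ, x ≤ B * Y → (Y : ℝ) ≤ x * Real.log Y ^ κ → Q * Real.log Y ^ (2 * A + 6) ≤ x →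
    ∀ S : Finset ℕ, (S.card : ℝ) ≤ x / Q / Real.log Y ^ (A + 4) →
    (∀ h ∈ Icc 1 (⌊x⌋₊ / Q), h ∉ S → |cz z (⌊x⌋₊ - h * Q) (h * Q)| ≤ Y / Real.log Y ^ (A + κ + 2)) →
    G x Q ≤ x ^ 2 / (Q * Real.log Y ^ A) := by
  classical
  intro E
  obtain ⟨Cs, hCs1, hCs⟩ := prod_bdd (1 / 2) (by norm_num)
  obtain ⟨n1, h1⟩ := main_one E (A + κ + 2)
  obtain ⟨C, hC, n3, h3⟩ := first (A + 4)
  obtain ⟨n8, h8⟩ := Vz_inv_small E
  obtain ⟨K₁, hK₁⟩ : ∃ K₁ : ℝ, K₁ = 4 + 20 + (2 * Cs + 8) + 6 * (C * 2 ^ (A + 4) * 2 ^ (A + 4) + 1) := ⟨_, rfl⟩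
  obtain ⟨n5, h5⟩ := ev_log' κ 1
  obtain ⟨n6, h6⟩ := ev_log' (A + κ + 6) 100
  obtain ⟨n7, h7⟩ := ev_L' (K₁ + B + 16)
  refine ⟨n1 + n3 * n3 + n5 + n6 + n7 + n8 + 16, fun Y hY z hz1 hz2 Q hQ x hxB hYx hQx S hS hcor => ?_⟩
  have a5 := h5 Y (by omega)
  have a6 := h6 Y (by omega)
  have a7 := h7 Y (by omega)
  obtain ⟨L, hL⟩ : ∃ L, L = Real.log (Y : ℝ) := ⟨_, rfl⟩
  rw [← hL] at a5 a6 a7 hz1 hz2 hYx hQx hS hcor ⊢
  rw [one_mul] at a5
  have hB0 : (0 : ℝ) ≤ B := Nat.cast_nonneg _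
  have hK0 : 0 ≤ K₁ := by rw [hK₁]; positivity
  have hL1 : 1 ≤ L := by linarith
  have hL16 : 16 ≤ L := by linarith
  have hL0 : 0 < L := by linarith
  have hYn : 0 < Y := by omega
  have hY0 : (0 : ℝ) < Y := by exact_mod_cast hYn
  have hz : 1 ≤ z := by
    have : (1 : ℝ) ≤ z := (one_le_pow₀ hL1).trans hz1
    exact_mod_cast this
  have hz0 : (0 : ℝ) < z := by exact_mod_cast hz
  have a8 := h8 Y (by omega) z hz (by rw [← hL]; exact hz2)
  rw [← hL] at a8
  have hLκ : 0 < L ^ κ := by positivity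
  have hLκ1 : 1 ≤ L ^ κ := one_le_pow₀ hL1
  have hss : √(Y : ℝ) * √(Y : ℝ) = Y := Real.mul_self_sqrt hY0.le
  have hs0 : 0 < √(Y : ℝ) := Real.sqrt_pos.2 hY0
  have hQ0 : (0 : ℝ) < Q := by exact_mod_cast hQ
  have hsx : √(Y : ℝ) ≤ x := by
    have e1 : √(Y : ℝ) * L ^ κ ≤ x * L ^ κ := by
      calc √(Y : ℝ) * L ^ κ ≤ √Y * √Y := mul_le_mul_of_nonneg_left a5 hs0.le
        _ = Y := hss
        _ ≤ _ := hYx
    exact le_of_mul_le_mul_right e1 hLκ
  have hx0 : 0 < x := by linarith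
  have hLA1 : 1 ≤ L ^ (2 * A + 6) := one_le_pow₀ hL1
  have hQx' : (Q : ℝ) ≤ x := le_trans (le_mul_of_one_le_right hQ0.le hLA1) hQx
  have hx1 : (1 : ℝ) ≤ x := le_trans (by exact_mod_cast hQ) hQx'
  obtain ⟨X, hX⟩ : ∃ X, X = ⌊x⌋₊ := ⟨_, rfl⟩
  rw [← hX] at hcor
  have hXx : (X : ℝ) ≤ x := by rw [hX]; exact Nat.floor_le hx0.le
  have hxX : x < X + 1 := by rw [hX]; exact Nat.lt_floor_add_one x
  have hQX : Q ≤ X := by rw [hX]; exact Nat.le_floor hQx'
  have hX1 : 1 ≤ X := by omega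
  have hX0 : (0 : ℝ) < X := by exact_mod_cast hX1
  have hQXr : (Q : ℝ) ≤ X := by exact_mod_cast hQX
  have hn3X : n3 ≤ X := by
    have e1 : (n3 : ℝ) ≤ √Y := by
      apply Real.le_sqrt_of_sq_le
      rw [pow_two]
      exact_mod_cast (by omega : n3 * n3 ≤ Y)
    rw [hX]
    exact Nat.le_floor (e1.trans hsx)
  -- logarithms
  have hlX2 : Real.log X ≤ 2 * L := by
    have e1 : (X : ℝ) ≤ Y ^ 2 := by
      have e2 : (B : ℝ) ≤ Y := by
        have e3 : L ≤ Y := by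
          rw [hL]
          exact (Real.log_le_sub_one_of_pos hY0).trans (by linarith)
        linarith
      calc (X : ℝ) ≤ B * Y := hXx.trans hxB
        _ ≤ Y * Y := mul_le_mul_of_nonneg_right e2 hY0.le
        _ = _ := by ring
    have e2 := Real.log_le_log hX0 e1
    rw [Real.log_pow, ← hL] at e2
    push_cast at e2
    exact e2
  have hlX3 : L / 2 ≤ Real.log X + 1 := by
    have e1 : √(Y : ℝ) / 2 ≤ X := by
      have : (1 : ℝ) ≤ X := by exact_mod_cast hX1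
      linarith
    have e2 := Real.log_le_log (by positivity) e1
    rw [Real.log_div hs0.ne' (by norm_num), Real.log_sqrt hY0.le, ← hL] at e2
    have := Real.log_two_lt_d9
    linarith
  have hlX0 : 0 ≤ Real.log (X : ℝ) := Real.log_natCast_nonneg _
  have hω : (Q.primeFactors.card : ℝ) ≤ 4 * L := by
    refine (card_pf Q hQ).trans ?_
    have := Real.log_le_log hQ0 hQXr
    linarith
  -- Euler's function
  have hφ : (0 : ℝ) < (Nat.totient Q : ℝ) := by exact_mod_cast Nat.totient_pos.2 hQ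
  have hωz : (Q.primeFactors.card : ℝ) ≤ z := by
    have e1 : L ^ 2 ≤ L ^ (A + 4) := pow_le_pow_right₀ hL1 (by omega)
    nlinarith
  obtain ⟨t1, t2⟩ := totient_fac z Q hz hQ hωz
  obtain ⟨c, hc⟩ : ∃ c, c = CQ z Q := ⟨_, rfl⟩
  rw [← hc] at t1 t2
  have hc1 : 1 ≤ c := by rw [hc]; exact CQ_one z Q
  have hcV : c ≤ (Vz z)⁻¹ := by rw [hc]; exact CQ_le z Q
  have hcL : c ≤ L := hcV.trans a8
  have hQφ3 : (Q : ℝ) / (Nat.totient Q : ℝ) ≤ 3 * L := by
    have e1 : (Q.primeFactors.card : ℝ) / z ≤ 1 := by rw [div_le_one hz0]; exact hωz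
    have e2 : c * (1 + 2 * (Q.primeFactors.card / z)) ≤ c * 3 := mul_le_mul_of_nonneg_left (by linarith) (by linarith)
    linarith
  -- the unit
  obtain ⟨T, hT⟩ : ∃ T, T = x ^ 2 / Q / L ^ (A + 2) := ⟨_, rfl⟩
  have hT0 : 0 < T := by rw [hT]; positivity
  have hxbig : 100 * L ^ (A + 6) ≤ x := by
    have e1 : L ^ (A + 6) ≤ L ^ (A + κ + 6) := pow_le_pow_right₀ hL1 (by omega)
    linarith
  -- x in terms of T
  have hxT : ∀ k : ℕ, k ≤ A + 4 → L ^ k * x ≤ T := by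
    intro k hk
    rw [hT, le_div_iff₀ (by positivity), le_div_iff₀ hQ0]
    have e1 : L ^ k * x * L ^ (A + 2) * Q ≤ x * (Q * L ^ (2 * A + 6)) := by
      have e2 : L ^ k * L ^ (A + 2) ≤ L ^ (2 * A + 6) := by
        rw [← pow_add]
        exact pow_le_pow_right₀ hL1 (by omega)
      calc L ^ k * x * L ^ (A + 2) * Q = (x * Q) * (L ^ k * L ^ (A + 2)) := by ring
        _ ≤ (x * Q) * L ^ (2 * A + 6) := mul_le_mul_of_nonneg_left e2 (by positivity)
        _ = _ := by ring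
    refine e1.trans ?_
    rw [pow_two]
    exact mul_le_mul_of_nonneg_left hQx hx0.le
  -- E1
  have E1 : ∑ n ∈ Icc 1 X, vq Q n ^ 2 ≤ 4 * T := by
    refine (diag_triv Q X).trans ?_
    calc (X : ℝ) * Real.log X ^ 2 ≤ x * (2 * L) ^ 2 := mul_le_mul hXx (pow_le_pow_left₀ hlX0 hlX2 2) (by positivity) hx0.le
      _ = 4 * (L ^ 2 * x) := by ring
      _ ≤ 4 * T := mul_le_mul_of_nonneg_left (hxT 2 (by omega)) (by norm_num)
  -- E2
  have hxQ0 : 0 ≤ x / Q := by positivity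
  have hcardX : ((X / Q : ℕ) : ℝ) ≤ x / Q := Nat.cast_div_le.trans (div_le_div_of_nonneg_right hXx hQ0.le)
  have E2 : |∑ h ∈ Icc 1 (X / Q), ∑ n ∈ Icc 1 (X - h * Q), vq Q n * vq Q (n + h * Q) -
      ∑ h ∈ Icc 1 (X / Q), (x - ((h * Q : ℕ) : ℝ)) * (c * fs ((pz z).filter (fun p => ¬ p ∣ Q)) h)| ≤ 10 * T := by
    rw [← sum_sub_distrib]
    refine (abs_sum_le_sum_abs _ _).trans ?_
    have g0 : ∀ h ∈ Icc 1 (X / Q), |∑ n ∈ Icc 1 (X - h * Q), vq Q n * vq Q (n + h * Q) -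
        (x - ((h * Q : ℕ) : ℝ)) * (c * fs ((pz z).filter (fun p => ¬ p ∣ Q)) h)| ≤
          5 * (x / L ^ (A + 2)) + (if h ∈ S then 5 * L ^ 2 * x else 0) := by
      intro h hh
      have hh' := hh
      rw [mem_Icc] at hh
      have hhQ : h * Q ≤ X := by rw [← Nat.le_div_iff_mul_le hQ]; exact hh.2
      obtain ⟨F, hF⟩ : ∃ F, F = c * fs ((pz z).filter (fun p => ¬ p ∣ Q)) h := ⟨_, rfl⟩
      have hF0 : 0 ≤ F := by
        rw [hF]
        exact mul_nonneg (by linarith) (fs_nonneg _ (fun p hp => (mem_pz.1 (mem_filter.1 hp).1).2) h)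
      have hF1 : F ≤ L := by rw [hF, hc]; exact (fs_le z Q h).trans a8
      rw [← hF]
      have hhr : (0 : ℝ) ≤ ((h * Q : ℕ) : ℝ) := Nat.cast_nonneg _
      have hhXr : ((h * Q : ℕ) : ℝ) ≤ X := by exact_mod_cast hhQ
      by_cases hhS : h ∈ S
      · rw [if_pos hhS]
        have g1 := corr_triv Q h X hX1 hhQ
        have g2 : |(x - ((h * Q : ℕ) : ℝ)) * F| ≤ x * L := by
          rw [abs_of_nonneg (mul_nonneg (by linarith) hF0)]
          exact mul_le_mul (by linarith) hF1 hF0 hx0.le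
        have g3 : (X : ℝ) * Real.log X ^ 2 ≤ 4 * L ^ 2 * x := by
          calc (X : ℝ) * Real.log X ^ 2 ≤ x * (2 * L) ^ 2 := mul_le_mul hXx (pow_le_pow_left₀ hlX0 hlX2 2) (by positivity) hx0.le
            _ = _ := by ring
        have g4 : x * L ≤ L ^ 2 * x := by
          have : L ≤ L ^ 2 := le_self_pow₀ hL1 (by norm_num)
          nlinarith
        have g5 : 0 ≤ 5 * (x / L ^ (A + 2)) := by positivity
        refine (abs_sub _ _).trans ?_
        linarith
      · rw [if_neg hhS, add_zero]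
        have g1 := h1 Y (by omega) z hz (by rw [← hL]; exact hz2) Q h (X - h * Q)
        rw [← hL, ← hc, ← hF] at g1
        have hxY : (Y : ℝ) / L ^ (A + κ + 2) ≤ x / L ^ (A + 2) := by
          rw [div_le_div_iff₀ (by positivity) (by positivity)]
          calc (Y : ℝ) * L ^ (A + 2) ≤ (x * L ^ κ) * L ^ (A + 2) := mul_le_mul_of_nonneg_right hYx (by positivity)
            _ = _ := by rw [show A + κ + 2 = κ + (A + 2) by ring, pow_add L κ]; ring
        have g2 : (((X - h * Q : ℕ) : ℝ) + Y) / L ^ (A + κ + 2) ≤ 2 * (x / L ^ (A + 2)) := by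
          have g31 : ((X - h * Q : ℕ) : ℝ) ≤ x := by
            have : ((X - h * Q : ℕ) : ℝ) ≤ X := by exact_mod_cast Nat.sub_le _ _
            linarith
          have g32 : x / L ^ (A + κ + 2) ≤ x / L ^ (A + 2) := by
            apply div_le_div_of_nonneg_left hx0.le (by positivity)
            exact pow_le_pow_right₀ hL1 (by omega)
          have g33 : ((X - h * Q : ℕ) : ℝ) / L ^ (A + κ + 2) ≤ x / L ^ (A + κ + 2) := div_le_div_of_nonneg_right g31 (by positivity)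
          rw [add_div]
          linarith
        have g4 := off_one z Q h X F (x / L ^ (A + 2)) (2 * (x / L ^ (A + 2))) (4 * L) hQ hQX hh.1 hhQ (by linarith) hω
          ((hcor h hh' hhS).trans hxY) (g1.trans g2)
        have g5 : ((X - h * Q : ℕ) : ℝ) = X - ((h * Q : ℕ) : ℝ) := by rw [Nat.cast_sub hhQ]
        have g6 : ∑ n ∈ Icc 1 (X - h * Q), vq Q n * vq Q (n + h * Q) - (x - ((h * Q : ℕ) : ℝ)) * F =
            (∑ n ∈ Icc 1 (X - h * Q), vq Q n * vq Q (n + h * Q) - ((X - h * Q : ℕ) : ℝ) * F) - (x - X) * F := by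
          rw [g5]; ring
        rw [g6]
        refine (abs_sub _ _).trans ?_
        have g7 : |(x - X) * F| ≤ L := by
          rw [abs_of_nonneg (mul_nonneg (by linarith) hF0)]
          calc (x - X) * F ≤ 1 * L := mul_le_mul (by linarith) hF1 hF0 (by norm_num)
            _ = L := one_mul _
        have g8 : (4 * L) ^ 3 + L ≤ 2 * (x / L ^ (A + 2)) := by
          rw [← mul_div_assoc, le_div_iff₀ (by positivity)]
          have g9 : L ≤ L ^ 3 := le_self_pow₀ hL1 (by norm_num)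
          calc ((4 * L) ^ 3 + L) * L ^ (A + 2) ≤ (65 * L ^ 3) * L ^ (A + 2) := by
                apply mul_le_mul_of_nonneg_right _ (by positivity)
                have : (4 * L) ^ 3 = 64 * L ^ 3 := by ring
                linarith
            _ = 65 * L ^ (A + 5) := by rw [show A + 5 = 3 + (A + 2) by ring, pow_add L 3]; ring
            _ ≤ 100 * L ^ (A + 6) := by
                have : L ^ (A + 5) ≤ L ^ (A + 6) := pow_le_pow_right₀ hL1 (by omega)
                have : 0 ≤ L ^ (A + 5) := by positivity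
                linarith
            _ ≤ 2 * x := by linarith
        linarith
    refine (sum_le_sum g0).trans ?_
    rw [sum_add_distrib, sum_const, Nat.card_Icc, Nat.add_sub_cancel, nsmul_eq_mul, ← sum_filter, sum_const, nsmul_eq_mul]
    have g1 : ((X / Q : ℕ) : ℝ) * (5 * (x / L ^ (A + 2))) ≤ 5 * T := by
      calc ((X / Q : ℕ) : ℝ) * (5 * (x / L ^ (A + 2))) ≤ (x / Q) * (5 * (x / L ^ (A + 2))) :=
            mul_le_mul_of_nonneg_right hcardX (by positivity)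
        _ = 5 * T := by rw [hT]; field_simp
    have g2 : (((Icc 1 (X / Q)).filter (fun h => h ∈ S)).card : ℝ) * (5 * L ^ 2 * x) ≤ 5 * T := by
      have g3 : (((Icc 1 (X / Q)).filter (fun h => h ∈ S)).card : ℝ) ≤ x / Q / L ^ (A + 4) := by
        refine le_trans ?_ hS
        apply Nat.cast_le.2
        apply card_le_card
        intro h hh
        exact (mem_filter.1 hh).2
      calc (((Icc 1 (X / Q)).filter (fun h => h ∈ S)).card : ℝ) * (5 * L ^ 2 * x) ≤ (x / Q / L ^ (A + 4)) * (5 * L ^ 2 * x) :=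
            mul_le_mul_of_nonneg_right g3 (by positivity)
        _ = 5 * T := by
            rw [hT, show A + 4 = A + 2 + 2 by ring, pow_add L (A + 2)]
            field_simp
    linarith
  -- E3
  have E3 : |2 * ∑ h ∈ Icc 1 (X / Q), (x - ((h * Q : ℕ) : ℝ)) * (c * fs ((pz z).filter (fun p => ¬ p ∣ Q)) h) - x ^ 2 / (Nat.totient Q : ℝ)| ≤
      (2 * Cs + 8) * T := by
    have g1 := main_sum z Q x (1 / 2) Cs hQ hQx' (by norm_num) (by norm_num) hCs
    rw [← hX, ← hc] at g1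
    have g2 : (x / Q) ^ (1 / 2 : ℝ) ≤ (x / Q) / L ^ (A + 3) := by
      rw [le_div_iff₀ (by positivity)]
      have g3 : L ^ (A + 3) ≤ (x / Q) ^ (1 / 2 : ℝ) := by
        have g4 : L ^ (2 * A + 6) ≤ x / Q := by
          rw [le_div_iff₀ hQ0]
          linarith
        have g5 : (L ^ (2 * A + 6)) ^ (1 / 2 : ℝ) = L ^ (A + 3) := by
          rw [← Real.rpow_natCast, ← Real.rpow_natCast, ← Real.rpow_mul hL0.le]
          congr 1
          push_cast
          ring
        rw [← g5]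
        exact Real.rpow_le_rpow (by positivity) g4 (by norm_num)
      have g6 : (x / Q) ^ (1 / 2 : ℝ) * (x / Q) ^ (1 / 2 : ℝ) = x / Q := by
        rw [← Real.rpow_add (by positivity)]
        norm_num
      calc (x / Q) ^ (1 / 2 : ℝ) * L ^ (A + 3) ≤ (x / Q) ^ (1 / 2 : ℝ) * (x / Q) ^ (1 / 2 : ℝ) :=
            mul_le_mul_of_nonneg_left g3 (by positivity)
        _ = _ := g6
    have g4 : 2 * c * x * (x / Q) ^ (1 / 2 : ℝ) * Cs ≤ 2 * Cs * T := by
      calc 2 * c * x * (x / Q) ^ (1 / 2 : ℝ) * Cs ≤ 2 * L * x * ((x / Q) / L ^ (A + 3)) * Cs := by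
            apply mul_le_mul_of_nonneg_right _ (by linarith)
            apply mul_le_mul _ g2 (by positivity) (by positivity)
            apply mul_le_mul_of_nonneg_right _ hx0.le
            linarith
        _ = 2 * Cs * T := by
            rw [hT, show A + 3 = A + 2 + 1 by ring, pow_succ L (A + 2)]
            field_simp
    have g7 : |c * (x ^ 2 / Q) - x ^ 2 / (Nat.totient Q : ℝ)| ≤ 8 * T := by
      have g8 : c * (x ^ 2 / Q) - x ^ 2 / (Nat.totient Q : ℝ) = -((x ^ 2 / Q) * ((Q : ℝ) / (Nat.totient Q : ℝ) - c)) := by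
        field_simp
        ring
      rw [g8, abs_neg, abs_of_nonneg (mul_nonneg (by positivity) (by linarith))]
      have g9 : (Q : ℝ) / (Nat.totient Q : ℝ) - c ≤ L * (2 * (4 * L / z)) := by
        have g10 : (Q : ℝ) / (Nat.totient Q : ℝ) - c ≤ c * (2 * (Q.primeFactors.card / z)) := by linarith
        refine g10.trans ?_
        apply mul_le_mul hcL _ (by positivity) hL0.le
        apply mul_le_mul_of_nonneg_left _ (by norm_num)
        exact div_le_div_of_nonneg_right hω hz0.le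
      have g11 : L * (2 * (4 * L / z)) ≤ 8 / L ^ (A + 2) := by
        rw [le_div_iff₀ (by positivity)]
        calc L * (2 * (4 * L / z)) * L ^ (A + 2) = 8 * (L ^ (A + 4) / z) := by
              rw [show A + 4 = A + 2 + 2 by ring, pow_add L (A + 2)]
              field_simp
              ring
          _ ≤ 8 * 1 := by
              apply mul_le_mul_of_nonneg_left _ (by norm_num)
              rw [div_le_one hz0]
              exact hz1
          _ = 8 := by ring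
      calc (x ^ 2 / Q) * ((Q : ℝ) / (Nat.totient Q : ℝ) - c) ≤ (x ^ 2 / Q) * (8 / L ^ (A + 2)) :=
            mul_le_mul_of_nonneg_left (g9.trans g11) (by positivity)
        _ = 8 * T := by rw [hT]; ring
    have g8 : 2 * ∑ h ∈ Icc 1 (X / Q), (x - ((h * Q : ℕ) : ℝ)) * (c * fs ((pz z).filter (fun p => ¬ p ∣ Q)) h) - x ^ 2 / (Nat.totient Q : ℝ) =
        (2 * ∑ h ∈ Icc 1 (X / Q), (x - ((h * Q : ℕ) : ℝ)) * (c * fs ((pz z).filter (fun p => ¬ p ∣ Q)) h) - c * (x ^ 2 / Q)) +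
        (c * (x ^ 2 / Q) - x ^ 2 / (Nat.totient Q : ℝ)) := by ring
    rw [g8]
    refine (abs_add_le _ _).trans ?_
    linarith
  -- E4
  have E4 : |2 * (x / (Nat.totient Q : ℝ)) * (x - ∑ n ∈ Icc 1 X, vq Q n)| ≤ 6 * (C * 2 ^ (A + 4) * 2 ^ (A + 4) + 1) * T := by
    have g1 := h3 X hn3X Q hQ hQX
    have g2 : x / (Nat.totient Q : ℝ) ≤ (x / Q) * (3 * L) := by
      calc x / (Nat.totient Q : ℝ) = (x / Q) * ((Q : ℝ) / (Nat.totient Q : ℝ)) := by field_simp
        _ ≤ _ := mul_le_mul_of_nonneg_left hQφ3 hxQ0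
    have g3 : |x - ∑ n ∈ Icc 1 X, vq Q n| ≤ (C * 2 ^ (A + 4) * 2 ^ (A + 4) + 1) * (x / L ^ (A + 3)) := by
      have g4 : (X : ℝ) / Real.log X ^ (A + 4) ≤ 2 ^ (A + 4) * 2 ^ (A + 4) * (x / L ^ (A + 4)) := by
        have g40 : L / 4 ≤ Real.log X := by linarith
        have g5 : (L / 4) ^ (A + 4) ≤ Real.log X ^ (A + 4) := pow_le_pow_left₀ (by positivity) g40 _
        calc (X : ℝ) / Real.log X ^ (A + 4) ≤ x / (L / 4) ^ (A + 4) := by
              apply div_le_div₀ hx0.le hXx (by positivity) g5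
          _ = _ := by
              rw [div_pow, ← mul_pow]
              norm_num
              field_simp
      have g5 := mul_le_mul_of_nonneg_left g4 hC.le
      have g6 : x / L ^ (A + 4) ≤ x / L ^ (A + 3) := by
        apply div_le_div_of_nonneg_left hx0.le (by positivity)
        exact pow_le_pow_right₀ hL1 (by omega)
      have g7 : 1 ≤ x / L ^ (A + 3) := by
        rw [le_div_iff₀ (by positivity), one_mul]
        have : L ^ (A + 3) ≤ L ^ (A + 6) := pow_le_pow_right₀ hL1 (by omega)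
        have : 0 ≤ L ^ (A + 6) := by positivity
        linarith
      have g8 : C * (2 ^ (A + 4) * 2 ^ (A + 4) * (x / L ^ (A + 4))) ≤ C * 2 ^ (A + 4) * 2 ^ (A + 4) * (x / L ^ (A + 3)) := by
        calc C * (2 ^ (A + 4) * 2 ^ (A + 4) * (x / L ^ (A + 4))) = C * 2 ^ (A + 4) * 2 ^ (A + 4) * (x / L ^ (A + 4)) := by ring
          _ ≤ _ := mul_le_mul_of_nonneg_left g6 (by positivity)
      have g9 : (C * 2 ^ (A + 4) * 2 ^ (A + 4) + 1) * (x / L ^ (A + 3)) = C * 2 ^ (A + 4) * 2 ^ (A + 4) * (x / L ^ (A + 3)) + x / L ^ (A + 3) := by ring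
      rw [g9]
      rw [abs_le] at g1 ⊢
      constructor <;> linarith
    rw [abs_mul, abs_of_nonneg (by positivity)]
    calc 2 * (x / (Nat.totient Q : ℝ)) * |x - ∑ n ∈ Icc 1 X, vq Q n| ≤
          2 * ((x / Q) * (3 * L)) * ((C * 2 ^ (A + 4) * 2 ^ (A + 4) + 1) * (x / L ^ (A + 3))) := by
          apply mul_le_mul _ g3 (abs_nonneg _) (by positivity)
          linarith
      _ = 6 * (C * 2 ^ (A + 4) * 2 ^ (A + 4) + 1) * T := by
          rw [hT, show A + 3 = A + 2 + 1 by ring, pow_succ L (A + 2)]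
          field_simp
          ring
  rw [G_expand x Q hQ, ← hX]
  have hid : (∑ n ∈ Icc 1 X, vq Q n ^ 2 + 2 * ∑ h ∈ Icc 1 (X / Q), ∑ n ∈ Icc 1 (X - h * Q), vq Q n * vq Q (n + h * Q)) -
      2 * (x / (Nat.totient Q : ℝ)) * (∑ n ∈ Icc 1 X, vq Q n) + x ^ 2 / (Nat.totient Q : ℝ) =
      ∑ n ∈ Icc 1 X, vq Q n ^ 2 + 2 * (∑ h ∈ Icc 1 (X / Q), ∑ n ∈ Icc 1 (X - h * Q), vq Q n * vq Q (n + h * Q) -
      ∑ h ∈ Icc 1 (X / Q), (x - ((h * Q : ℕ) : ℝ)) * (c * fs ((pz z).filter (fun p => ¬ p ∣ Q)) h)) +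
      (2 * ∑ h ∈ Icc 1 (X / Q), (x - ((h * Q : ℕ) : ℝ)) * (c * fs ((pz z).filter (fun p => ¬ p ∣ Q)) h) - x ^ 2 / (Nat.totient Q : ℝ)) +
      2 * (x / (Nat.totient Q : ℝ)) * (x - ∑ n ∈ Icc 1 X, vq Q n) := by
    have g1 : x ^ 2 / (Nat.totient Q : ℝ) = x / (Nat.totient Q : ℝ) * x := by ring
    rw [g1]
    ring
  rw [hid]
  have f2 := (abs_le.1 E2).2
  have f3 := (abs_le.1 E3).2
  have f4 := (abs_le.1 E4).2
  have hKT : K₁ * T = 4 * T + 20 * T + (2 * Cs + 8) * T + 6 * (C * 2 ^ (A + 4) * 2 ^ (A + 4) + 1) * T := by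
    rw [hK₁]; ring
  have hfin : K₁ * T ≤ x ^ 2 / (Q * L ^ A) := by
    calc K₁ * T ≤ L ^ 2 * T := by
          apply mul_le_mul_of_nonneg_right _ hT0.le
          nlinarith
      _ = x ^ 2 / (Q * L ^ A) := by
          rw [hT, pow_add L A]
          field_simp
  linarith

end Pool.Agent.T9h51.PE
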