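import Pool.Agent.T9h51.PE.CorrEn
import Pool.Agent.T9h51.PE.VarBig
import Pool.Agent.T9h51.PE.DivC
import Pool.Agent.Results.MP_5d318d_nt.ThinFamilyModuli

/-!
# The variance of the primes in the classes of the moduli near almost all members of a family of nearly minimal energy, at all
# heights up to a power of the modulus
-/

set_option autoImplicit false

namespace Pool.Agent.T9h51.PE

open Finset
open Pool.Agent.H373R2.T7
open Pool.Agent.TH212.EH (En enum)
open Pool.Agent.TH894.PA (cz)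
open Pool.Agent.TH894.PV (G)

/-- few members are small -/
theorem small_count {ι : Type} [Fintype ι] (h : ℕ) (v : ι → ℤ) (R : ℕ) (hR1 : 1 ≤ R) (S : Finset ι)
    (hS : ∀ i ∈ S, |v i| ≤ R) : (S.card : ℝ) ^ (2 * h) ≤ (((2 * h + 1) * R : ℕ) : ℝ) * En h v := by
  classical
  have key := div_count h (fun i : {i // i ∈ S} => v i.1) R 1 le_rfl hR1 (fun i => hS i.1 i.2) univ (fun i _ => by
    rw [Nat.cast_one]
    exact one_dvd _)
  rw [card_univ, Fintype.card_coe, Nat.cast_one, mul_one] at key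
  refine key.trans ?_
  apply mul_le_mul_of_nonneg_left _ (Nat.cast_nonneg _)
  have e1 : En h (fun i : {i // i ∈ S} => v i.1) ≤ En h v := by
    unfold En
    apply Nat.card_le_card_of_injective (fun q => ⟨(fun j => (q.1.1 j).1, fun j => (q.1.2 j).1), q.2⟩)
    rintro ⟨⟨x, y⟩, hxy⟩ ⟨⟨x', y'⟩, hxy'⟩ heq
    simp only [Subtype.mk.injEq, Prod.mk.injEq] at heq
    obtain ⟨h1, h2⟩ := heq
    apply Subtype.ext
    apply Prod.ext
    · funext j
      exact Subtype.ext (congrFun h1 j)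
    · funext j
      exact Subtype.ext (congrFun h2 j)
  exact_mod_cast e1

/-- one modulus, large heights -/
theorem var_high (B A K W κ B₁ : ℕ) (hB₁ : A + 4 ≤ B₁) : ∃ N₀ : ℕ, ∀ N : ℕ, N₀ ≤ N → ∀ v : ℤ, |v| ≤ B * N →
    GoodM (Pc B₁ 1 (A + (κ + 1) + 2)) (A + 5) (K + 1) W N v → ∀ q : ℕ, 1 ≤ q → |(q : ℝ) - v| ≤ Real.log N ^ W →
    (N : ℝ) ≤ q * Real.log N ^ κ → ∀ x : ℝ, q * Real.log N ^ (2 * A + 7) ≤ x → x ≤ q * (N : ℝ) ^ K →
    G x q ≤ x ^ 2 / (q * Real.log N ^ A) := by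
  classical
  obtain ⟨Y₀, hdet⟩ := det_big (2 * (B + 1)) A (κ + 1) (B₁ + 1)
  obtain ⟨n1, h1⟩ := ev_L' (((K : ℝ) + 3) ^ (2 * A + 6) + 2 * ((K : ℝ) + 3) ^ (A + 4) + 2 * (B + 1) + 2)
  obtain ⟨n2, h2⟩ := ev_log' W 1
  refine ⟨Y₀ + n1 + n2 + 3, fun N hN v hv hgood q hq1 hq2 hNq x hx1 hx2 => ?_⟩
  have c1 := h1 N (by omega)
  have c2 := h2 N (by omega)
  rw [one_mul] at c2
  obtain ⟨L, hL⟩ : ∃ L, L = Real.log (N : ℝ) := ⟨_, rfl⟩
  have hgq := hgood q hq1 hq2
  rw [← hL] at c1 c2 hgq hq2 hNq hx1 ⊢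
  have hN3 : (3 : ℝ) ≤ N := by exact_mod_cast (by omega : 3 ≤ N)
  have hN0 : (0 : ℝ) < N := by linarith
  have hWN : L ^ W ≤ N := by
    refine c2.trans ?_
    rw [Real.sqrt_le_left (by linarith)]
    nlinarith
  have hK0 : (0 : ℝ) ≤ K := Nat.cast_nonneg _
  have p1 : 0 ≤ ((K : ℝ) + 3) ^ (2 * A + 6) := by positivity
  have p2 : 0 ≤ ((K : ℝ) + 3) ^ (A + 4) := by positivity
  have p3 : (0 : ℝ) ≤ B := Nat.cast_nonneg _
  have hL1 : 1 ≤ L := by linarith
  have hL0 : 0 < L := by linarith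
  have hq0 : (0 : ℝ) < q := by exact_mod_cast hq1
  have hqN : (q : ℝ) ≤ (B + 1) * N := by
    have e1 := (abs_le.1 hq2).2
    have e2 : (v : ℝ) ≤ B * N := by
      have := (le_abs_self v).trans hv
      exact_mod_cast this
    linarith
  have hLT : 1 ≤ L ^ (2 * A + 7) := one_le_pow₀ hL1
  have hqx : (q : ℝ) ≤ x := le_trans (le_mul_of_one_le_right hq0.le hLT) hx1
  have hx0 : 0 < x := by linarith
  obtain ⟨m, hm⟩ : ∃ m, m = ⌊x / q⌋₊ := ⟨_, rfl⟩
  have hxq1 : 1 ≤ x / q := by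
    rw [le_div_iff₀ hq0]
    linarith
  have hm1 : 1 ≤ m := by
    rw [hm]
    exact Nat.le_floor (by exact_mod_cast hxq1)
  have hmx : (m : ℝ) ≤ x / q := by
    rw [hm]
    exact Nat.floor_le (by positivity)
  have hxm : x / q < m + 1 := by
    rw [hm]
    exact Nat.lt_floor_add_one _
  obtain ⟨j, hj⟩ : ∃ j, j = Nat.clog 2 m := ⟨_, rfl⟩
  have hmj : m ≤ 2 ^ j := by
    rw [hj]
    exact Nat.le_pow_clog (by norm_num) m
  have hjm : 2 ^ j ≤ 2 * m := by
    rcases Nat.lt_or_ge 1 m with h1 | h1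
    · have h2 := Nat.pow_pred_clog_lt_self (b := 2) (by norm_num) h1
      rw [← hj] at h2
      have h3 : 1 ≤ j := by
        rw [hj]
        exact Nat.clog_pos (by norm_num) h1
      have h4 : 2 ^ j = 2 ^ (j.pred) * 2 := by
        rw [← pow_succ]
        congr 1
        exact (Nat.succ_pred_eq_of_pos h3).symm
      omega
    · have h2 : m = 1 := le_antisymm h1 hm1
      have h3 : j = 0 := by rw [hj, h2, Nat.clog_one_right]
      rw [h3]
      omega
  have hmjr : (m : ℝ) ≤ 2 ^ j := by exact_mod_cast hmj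
  have hjmr : (2 : ℝ) ^ j ≤ 2 * m := by exact_mod_cast hjm
  have hjx : (2 : ℝ) ^ j ≤ 2 * (x / q) := by linarith
  have hj0 : (0 : ℝ) < 2 ^ j := by positivity
  have hmN : m ≤ N ^ K := by
    have h1 : (m : ℝ) ≤ (N : ℝ) ^ K := by
      refine hmx.trans ?_
      rw [div_le_iff₀ hq0]
      linarith
    exact_mod_cast h1
  have hjN : 2 ^ j ≤ N ^ (K + 1) := by
    calc 2 ^ j ≤ 2 * m := hjm
      _ ≤ N * N ^ K := Nat.mul_le_mul (by omega) hmN
      _ = N ^ (K + 1) := by ring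
  have hgj := hgq j hjN
  obtain ⟨Y, hY⟩ : ∃ Y, Y = N * 2 ^ j := ⟨_, rfl⟩
  rw [← hY] at hgj
  have hYr : (Y : ℝ) = N * 2 ^ j := by
    rw [hY]
    push_cast
    ring
  have h2j1 : 1 ≤ 2 ^ j := Nat.one_le_pow _ _ (by norm_num)
  have hNY : N ≤ Y := by rw [hY]; exact Nat.le_mul_of_pos_right _ h2j1
  obtain ⟨l, hl⟩ : ∃ l, l = Real.log (Y : ℝ) := ⟨_, rfl⟩
  have hLl : L ≤ l := by rw [hL, hl]; exact Real.log_le_log hN0 (by exact_mod_cast hNY)
  have hlL : l ≤ (K + 3) * L := by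
    have e1 : (Y : ℝ) ≤ N ^ (K + 3) := by
      have e2 : Y ≤ N ^ (K + 3) := by
        rw [hY]
        calc N * 2 ^ j ≤ N * N ^ (K + 1) := Nat.mul_le_mul_left _ hjN
          _ = N ^ (K + 2) := by ring
          _ ≤ N ^ (K + 3) := Nat.pow_le_pow_right (by omega) (by omega)
      exact_mod_cast e2
    have e3 := Real.log_le_log (by rw [hYr]; positivity) e1
    rw [Real.log_pow, ← hl, ← hL] at e3
    push_cast at e3
    exact e3
  have hl0 : 0 < l := by linarith
  have hl1 : 1 ≤ l := by linarith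
  -- the bad multiples
  obtain ⟨S, hS⟩ : ∃ S : Finset ℕ, S = (Icc 1 (2 ^ j)).filter (fun m => ¬ Pc B₁ 1 (A + (κ + 1) + 2) Y (m * q)) := ⟨_, rfl⟩
  have hSc : (S.card : ℝ) ≤ 2 ^ j / L ^ (A + 5) := by
    rw [hS]
    convert hgj
  obtain ⟨z, hz⟩ : ∃ z, z = ⌈l ^ B₁⌉₊ := ⟨_, rfl⟩
  have hz1 : l ^ B₁ ≤ z := by rw [hz]; exact Nat.le_ceil _
  have hz2 : (z : ℝ) ≤ l ^ (B₁ + 1) := by
    have h6 : (z : ℝ) < l ^ B₁ + 1 := by rw [hz]; exact Nat.ceil_lt_add_one (by positivity)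
    have h7 : 1 ≤ l ^ B₁ := one_le_pow₀ hl1
    have h8 : 2 ≤ l := by linarith
    rw [pow_succ]
    nlinarith
  have hd := hdet Y (by omega) z (by
      rw [← hl]
      exact (pow_le_pow_right₀ hl1 hB₁).trans hz1) (by rw [← hl]; exact hz2) q hq1 x
  rw [← hl] at hd
  have hxY : x ≤ ((2 * (B + 1) : ℕ) : ℝ) * Y := by
    have e1 : x ≤ q * (2 * 2 ^ j) := by
      have e2 : x / q ≤ 2 * 2 ^ j := by
        have : (1 : ℝ) ≤ 2 ^ j := one_le_pow₀ (by norm_num)
        linarith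
      rw [div_le_iff₀ hq0] at e2
      linarith
    rw [hYr]
    push_cast
    calc x ≤ q * (2 * 2 ^ j) := e1
      _ ≤ ((B + 1) * N) * (2 * 2 ^ j) := mul_le_mul_of_nonneg_right hqN (by positivity)
      _ = _ := by ring
  have hYx : (Y : ℝ) ≤ x * l ^ (κ + 1) := by
    have e1 : (N : ℝ) * 2 ^ j ≤ x * (2 * L ^ κ) := by
      calc (N : ℝ) * 2 ^ j ≤ (q * L ^ κ) * (2 * (x / q)) := mul_le_mul hNq hjx (by positivity) (by positivity)
        _ = _ := by field_simp
    rw [hYr]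
    refine e1.trans (mul_le_mul_of_nonneg_left ?_ hx0.le)
    calc 2 * L ^ κ ≤ l * l ^ κ := by
          apply mul_le_mul (by linarith) (pow_le_pow_left₀ hL0.le hLl _) (by positivity) hl0.le
      _ = l ^ (κ + 1) := by ring
  have hqx2 : q * l ^ (2 * A + 6) ≤ x := by
    refine le_trans ?_ hx1
    apply mul_le_mul_of_nonneg_left _ hq0.le
    calc l ^ (2 * A + 6) ≤ ((K + 3) * L) ^ (2 * A + 6) := pow_le_pow_left₀ hl0.le hlL _
      _ = (K + 3) ^ (2 * A + 6) * L ^ (2 * A + 6) := mul_pow _ _ _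
      _ ≤ L * L ^ (2 * A + 6) := mul_le_mul_of_nonneg_right (by linarith) (by positivity)
      _ = L ^ (2 * A + 7) := by ring
  have hSc2 : (S.card : ℝ) ≤ x / q / l ^ (A + 4) := by
    refine hSc.trans ?_
    rw [div_le_div_iff₀ (by positivity) (by positivity)]
    have e1 : 2 * l ^ (A + 4) ≤ L ^ (A + 5) := by
      calc 2 * l ^ (A + 4) ≤ 2 * ((K + 3) * L) ^ (A + 4) :=
            mul_le_mul_of_nonneg_left (pow_le_pow_left₀ hl0.le hlL _) (by norm_num)
        _ = (2 * (K + 3) ^ (A + 4)) * L ^ (A + 4) := by rw [mul_pow]; ring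
        _ ≤ L * L ^ (A + 4) := mul_le_mul_of_nonneg_right (by linarith) (by positivity)
        _ = L ^ (A + 5) := by ring
    calc (2 : ℝ) ^ j * l ^ (A + 4) ≤ (2 * (x / q)) * l ^ (A + 4) := mul_le_mul_of_nonneg_right hjx (by positivity)
      _ = (x / q) * (2 * l ^ (A + 4)) := by ring
      _ ≤ (x / q) * L ^ (A + 5) := mul_le_mul_of_nonneg_left e1 (by positivity)
  have hcor : ∀ h ∈ Icc 1 (⌊x⌋₊ / q), h ∉ S → |cz z (⌊x⌋₊ - h * q) (h * q)| ≤ Y / l ^ (A + (κ + 1) + 2) := by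
    intro h hh hhS
    rw [mem_Icc, ← Nat.floor_div_natCast, ← hm] at hh
    have hP : Pc B₁ 1 (A + (κ + 1) + 2) Y (h * q) := by
      by_contra hcon
      apply hhS
      rw [hS, mem_filter, mem_Icc]
      exact ⟨⟨hh.1, hh.2.trans hmj⟩, hcon⟩
    have e1 := hP (⌊x⌋₊ - h * q) (by
      rw [← hl, pow_one]
      have e2 : ((⌊x⌋₊ - h * q : ℕ) : ℝ) ≤ x := by
        have e3 : ((⌊x⌋₊ - h * q : ℕ) : ℝ) ≤ (⌊x⌋₊ : ℝ) := by exact_mod_cast Nat.sub_le _ _
        exact e3.trans (Nat.floor_le hx0.le)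
      refine e2.trans (hxY.trans ?_)
      rw [mul_comm]
      apply mul_le_mul_of_nonneg_left _ (Nat.cast_nonneg _)
      push_cast
      linarith)
    rw [← hl, ← hz] at e1
    exact e1
  have hfin := hd hxY hYx hqx2 S hSc2 hcor
  refine hfin.trans ?_
  apply div_le_div_of_nonneg_left (by positivity) (by positivity)
  exact mul_le_mul_of_nonneg_left (pow_le_pow_left₀ hL0.le hLl _) hq0.le

/-- the variance of the primes in the classes modulo `q` at all heights from `q` to `q N ^ K` -/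
def VAll (A K N q : ℕ) : Prop := ∀ x : ℝ, (q : ℝ) ≤ x → x ≤ q * (N : ℝ) ^ K →
  G x q ≤ 4 * (x * Real.log N) + x ^ 2 / (q * Real.log N ^ A)

/-- all the integers near `v` are not small, and have small variances -/
def GoodV (A K W κ N : ℕ) (v : ℤ) : Prop := ∀ q : ℕ, 1 ≤ q → |(q : ℝ) - v| ≤ Real.log N ^ W →
  (N : ℝ) ≤ q * Real.log N ^ κ ∧ VAll A K N q

lemma shifts_card (L : ℝ) (W : ℕ) (hL : 3 ≤ L) : ((Icc (-⌊L ^ W⌋) ⌊L ^ W⌋).card : ℝ) ≤ L ^ (W + 1) := by
  have hLW1 : 1 ≤ L ^ W := one_le_pow₀ (by linarith)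
  have e1 : (0 : ℤ) ≤ ⌊L ^ W⌋ := Int.floor_nonneg.2 (by positivity)
  have e2 : ((Icc (-⌊L ^ W⌋) ⌊L ^ W⌋).card : ℤ) = 2 * ⌊L ^ W⌋ + 1 := by
    rw [Int.card_Icc, Int.toNat_of_nonneg (by omega)]
    ring
  have e3 : ((Icc (-⌊L ^ W⌋) ⌊L ^ W⌋).card : ℝ) = 2 * (⌊L ^ W⌋ : ℝ) + 1 := by exact_mod_cast e2
  have e4 := Int.floor_le (L ^ W)
  rw [e3, pow_succ]
  nlinarith

open Classical in
theorem var_all (h B C A K W U : ℕ) (hh : 1 ≤ h) : ∃ κ N₀ : ℕ, ∀ N : ℕ, N₀ ≤ N → ∀ (ι : Type) [Fintype ι] (v : ι → ℤ),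
    (∀ i, |v i| ≤ B * N) → (En h v : ℝ) * N ≤ Real.log N ^ C * (Fintype.card ι : ℝ) ^ (2 * h) →
    ((univ.filter (fun i => ¬ GoodV A K W κ N (v i))).card : ℝ) ≤ Fintype.card ι / Real.log N ^ U := by
  obtain ⟨κ, hκ⟩ : ∃ κ, κ = C + 2 + (U + 1) * (2 * h) := ⟨_, rfl⟩
  obtain ⟨κ', hκ'⟩ : ∃ κ', κ' = κ + 2 * A + 8 := ⟨_, rfl⟩
  refine ⟨κ, ?_⟩
  obtain ⟨h', C', hh', hmult⟩ := multiples_core h B C (A + 5) (K + 1) (U + 2) W hh
  obtain ⟨B₀, hcorr⟩ := corr_en h' (B + 1) C' 1 (A + (κ + 1) + 2) (A + 5 + (U + 2 + W + 4))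
  obtain ⟨B₁, hB₁⟩ : ∃ B₁, B₁ = max B₀ (A + 4) := ⟨_, rfl⟩
  obtain ⟨n1, h1⟩ := hmult (Pc B₁ 1 (A + (κ + 1) + 2)) (hcorr B₁ (by rw [hB₁]; exact le_max_left _ _))
  obtain ⟨n2, h2⟩ := var_high B A K W κ B₁ (by rw [hB₁]; exact le_max_right _ _)
  obtain ⟨n3, h3⟩ := Pool.Agent.Results.MP_5d318d_nt.ThinFamilyModuli.first h (C + 1) κ' (U + W + 3) 1 one_pos le_rfl
  obtain ⟨n4, h4⟩ := ev_L' (3 * (2 * h + 1) + (B + 1) + 8)
  obtain ⟨n5, h5⟩ := ev_log' (W + κ) 1
  refine ⟨n1 + n2 + n3 + n4 + n5 + B + 16, fun N hN ι _ v hv hE => ?_⟩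
  rcases isEmpty_or_nonempty ι with hem | hne
  · have e1 : (univ.filter (fun i : ι => ¬ GoodV A K W κ N (v i))).card = 0 := by
      rw [card_eq_zero]
      exact eq_empty_of_isEmpty _
    rw [e1, Nat.cast_zero]
    exact div_nonneg (Nat.cast_nonneg _) (pow_nonneg (Real.log_natCast_nonneg _) _)
  have c1 := h1 N (by omega) ι v hv hE
  have c4 := h4 N (by omega)
  have c5 := h5 N (by omega)
  rw [one_mul] at c5
  obtain ⟨L, hL⟩ : ∃ L, L = Real.log (N : ℝ) := ⟨_, rfl⟩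
  have hN16 : (16 : ℝ) ≤ N := by exact_mod_cast (by omega : 16 ≤ N)
  have hN0 : (0 : ℝ) < N := by linarith
  have hcr : (0 : ℝ) < Fintype.card ι := by exact_mod_cast Fintype.card_pos
  rw [← hL] at c1 c4 c5 hE ⊢
  have p1 : (0 : ℝ) ≤ h := Nat.cast_nonneg _
  have p2 : (0 : ℝ) ≤ B := Nat.cast_nonneg _
  have hL8 : 8 ≤ L := by linarith
  have hL1 : 1 ≤ L := by linarith
  have hL0 : 0 < L := by linarith
  have hsN : √(N : ℝ) ≤ N := by
    rw [Real.sqrt_le_left (by linarith)]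
    nlinarith
  have hLWκ : L ^ W * L ^ κ ≤ √(N : ℝ) := by rw [← pow_add]; exact c5
  have hLW1 : 1 ≤ L ^ W := one_le_pow₀ hL1
  have hLκ1 : 1 ≤ L ^ κ := one_le_pow₀ hL1
  have hLWN : L ^ W ≤ N := by nlinarith
  -- small members
  obtain ⟨R, hR⟩ : ∃ R, R = ⌈2 * (N / L ^ κ)⌉₊ := ⟨_, rfl⟩
  have hNκ : 1 ≤ (N : ℝ) / L ^ κ := by
    rw [le_div_iff₀ (by positivity)]
    nlinarith
  have hR1 : 2 * (N / L ^ κ) ≤ (R : ℝ) := by rw [hR]; exact Nat.le_ceil _
  have hR2 : (R : ℝ) ≤ 3 * (N / L ^ κ) := by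
    have : (R : ℝ) < 2 * (N / L ^ κ) + 1 := by rw [hR]; exact Nat.ceil_lt_add_one (by positivity)
    linarith
  obtain ⟨S₀, hS₀⟩ : ∃ S₀ : Finset ι, S₀ = univ.filter (fun i => |v i| ≤ R) := ⟨_, rfl⟩
  have hS₀c : (S₀.card : ℝ) ≤ Fintype.card ι / L ^ (U + 1) := by
    have e1 := small_count h v R (by
      have : (1 : ℝ) ≤ R := by linarith
      exact_mod_cast this) S₀ (fun i hi => by rw [hS₀] at hi; exact (mem_filter.1 hi).2)
    have e2 : (S₀.card : ℝ) ^ (2 * h) * L ^ κ ≤ L ^ (C + 1) * (Fintype.card ι : ℝ) ^ (2 * h) := by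
      calc (S₀.card : ℝ) ^ (2 * h) * L ^ κ ≤ ((((2 * h + 1) * R : ℕ) : ℝ) * En h v) * L ^ κ :=
            mul_le_mul_of_nonneg_right e1 (by positivity)
        _ = (2 * h + 1) * (R * L ^ κ) * En h v := by push_cast; ring
        _ ≤ (2 * h + 1) * (3 * N) * En h v := by
            apply mul_le_mul_of_nonneg_right _ (Nat.cast_nonneg _)
            apply mul_le_mul_of_nonneg_left _ (by positivity)
            calc (R : ℝ) * L ^ κ ≤ (3 * (N / L ^ κ)) * L ^ κ := mul_le_mul_of_nonneg_right hR2 (by positivity)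
              _ = 3 * N := by field_simp
        _ = (3 * (2 * h + 1)) * (En h v * N) := by ring
        _ ≤ L * (L ^ C * (Fintype.card ι : ℝ) ^ (2 * h)) := mul_le_mul (by linarith) hE (by positivity) hL0.le
        _ = _ := by ring
    rw [le_div_iff₀ (by positivity)]
    have e3 : ((S₀.card : ℝ) * L ^ (U + 1)) ^ (2 * h) ≤ (Fintype.card ι : ℝ) ^ (2 * h) := by
      have e4 : L ^ (C + 1) * ((S₀.card : ℝ) * L ^ (U + 1)) ^ (2 * h) ≤ L ^ (C + 1) * (Fintype.card ι : ℝ) ^ (2 * h) := by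
        refine le_trans ?_ e2
        rw [mul_pow, ← pow_mul]
        calc L ^ (C + 1) * ((S₀.card : ℝ) ^ (2 * h) * L ^ ((U + 1) * (2 * h))) =
              (S₀.card : ℝ) ^ (2 * h) * L ^ (C + 1 + (U + 1) * (2 * h)) := by rw [pow_add L (C + 1)]; ring
          _ ≤ (S₀.card : ℝ) ^ (2 * h) * L ^ κ := by
              apply mul_le_mul_of_nonneg_left _ (by positivity)
              exact pow_le_pow_right₀ hL1 (by omega)
      exact le_of_mul_le_mul_left e4 (by positivity)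
    exact (pow_le_pow_iff_left₀ (by positivity) hcr.le (by omega)).1 e3
  -- the shifts
  obtain ⟨N', hN'⟩ : ∃ N', N' = (B + 1) * N := ⟨_, rfl⟩
  have hNN' : N ≤ N' := by
    rw [hN']
    exact Nat.le_mul_of_pos_left _ (by omega)
  obtain ⟨l, hl⟩ : ∃ l, l = Real.log (N' : ℝ) := ⟨_, rfl⟩
  have hLl : L ≤ l := by rw [hL, hl]; exact Real.log_le_log hN0 (by exact_mod_cast hNN')
  have hl2 : l ≤ 2 * L := by
    have e1 : (N' : ℝ) ≤ N * N := by
      rw [hN']
      push_cast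
      apply mul_le_mul_of_nonneg_right _ hN0.le
      have : B + 1 ≤ N := by omega
      exact_mod_cast this
    rw [hl, hL]
    calc Real.log (N' : ℝ) ≤ Real.log ((N : ℝ) * N) := Real.log_le_log (by exact_mod_cast (by omega : 0 < N')) e1
      _ = 2 * Real.log (N : ℝ) := by rw [Real.log_mul hN0.ne' hN0.ne']; ring
  obtain ⟨Ss, hSs⟩ : ∃ Ss : Finset ℤ, Ss = Icc (-⌊L ^ W⌋) ⌊L ^ W⌋ := ⟨_, rfl⟩
  have hScard : (Ss.card : ℝ) ≤ L ^ (W + 1) := by rw [hSs]; exact shifts_card L W (by linarith)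
  obtain ⟨Ex, hEx⟩ : ∃ Ex : ℤ → Finset ι, ∀ s, Ex s = univ.filter (fun i => 0 < v i + s ∧ (N' : ℝ) ≤ ((v i + s : ℤ) : ℝ) * Real.log N' ^ κ' ∧
    ¬ Pool.Agent.Results.MP_5d318d_nt.ThinFamilyModuli.Good 1 κ' N' (v i + s).toNat) := ⟨_, fun _ => rfl⟩
  have hExc : ∀ s ∈ Ss, ((Ex s).card : ℝ) ≤ Fintype.card ι / L ^ (U + W + 3) := by
    intro s hs
    rw [hSs, mem_Icc] at hs
    have hs' : |s| ≤ (N : ℤ) := by
      have e1 : |s| ≤ ⌊L ^ W⌋ := abs_le.2 ⟨by omega, hs.2⟩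
      have e2 : ⌊L ^ W⌋ ≤ (N : ℤ) := by
        have e3 : (⌊L ^ W⌋ : ℝ) ≤ N := (Int.floor_le _).trans hLWN
        exact_mod_cast e3
      omega
    have key := h3 N' (by omega) ι (fun i => v i + s) (fun i => by
      have e1 := abs_add_le (v i) s
      have e2 := hv i
      rw [hN']
      push_cast
      linarith) (by
      have e1 : (Pool.Agent.Results.MP_5d318d_nt.ThinFamilyModuli.energy h (fun i => v i + s) : ℝ) = En h v := by
        rw [← Pool.Agent.T9h51.ME.En_shift h v s]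
        rfl
      rw [e1, ← hl]
      calc (En h v : ℝ) * N' = (B + 1) * ((En h v : ℝ) * N) := by rw [hN']; push_cast; ring
        _ ≤ L * (L ^ C * (Fintype.card ι : ℝ) ^ (2 * h)) := by
            apply mul_le_mul _ hE (by positivity) hL0.le
            have : 0 ≤ 3 * (2 * (h : ℝ) + 1) := by positivity
            linarith
        _ = L ^ (C + 1) * (Fintype.card ι : ℝ) ^ (2 * h) := by ring
        _ ≤ l ^ (C + 1) * (Fintype.card ι : ℝ) ^ (2 * h) :=
            mul_le_mul_of_nonneg_right (pow_le_pow_left₀ hL0.le hLl _) (by positivity))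
    have e2 : ((Ex s).card : ℝ) ≤ Fintype.card ι / Real.log N' ^ (U + W + 3) := by
      refine le_trans (le_of_eq ?_) key
      rw [hEx]
      unfold Pool.Agent.Results.MP_5d318d_nt.ThinFamilyModuli.exceptions
      congr!
    refine e2.trans ?_
    rw [← hl]
    exact div_le_div_of_nonneg_left hcr.le (by positivity) (pow_le_pow_left₀ hL0.le hLl _)
  -- the conclusion
  have hsub : univ.filter (fun i => ¬ GoodV A K W κ N (v i)) ⊆ S₀ ∪
      (univ.filter (fun i => ¬ GoodM (Pc B₁ 1 (A + (κ + 1) + 2)) (A + 5) (K + 1) W N (v i)) ∪ Ss.biUnion Ex) := by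
    intro i hi
    rw [mem_filter] at hi
    by_contra hcon
    rw [mem_union, mem_union] at hcon
    push Not at hcon
    obtain ⟨k1, k2, k3⟩ := hcon
    rw [hS₀, mem_filter] at k1
    rw [mem_filter] at k2
    rw [mem_biUnion] at k3
    push Not at k1 k2 k3
    apply hi.2
    intro q hq1 hq2
    rw [← hL] at hq2
    have k1' := k1 (mem_univ _)
    have k2' := k2 (mem_univ _)
    have hq0 : (0 : ℝ) < q := by exact_mod_cast hq1
    have habs := abs_le.1 hq2
    have hLWκ' : L ^ W ≤ (N : ℝ) / L ^ κ := by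
      rw [le_div_iff₀ (by positivity)]
      exact hLWκ.trans hsN
    have hvR : (R : ℝ) < |(v i : ℝ)| := by exact_mod_cast k1'
    have hv0 : (R : ℝ) < (v i : ℝ) := by
      rcases lt_abs.1 hvR with h | h
      · exact h
      · exfalso
        have : (0 : ℝ) < (N : ℝ) / L ^ κ := by positivity
        linarith [habs.1, habs.2]
    have hNq : (N : ℝ) ≤ q * L ^ κ := by
      have e1 : (N : ℝ) / L ^ κ ≤ q := by linarith [habs.1]
      rwa [div_le_iff₀ (by positivity)] at e1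
    rw [← hL]
    refine ⟨hNq, fun x hx1 hx2 => ?_⟩
    rw [← hL]
    have hx0 : 0 < x := by linarith
    rcases le_or_gt (q * L ^ (2 * A + 7)) x with hxb | hxb
    · have e1 := h2 N (by omega) (v i) (hv i) k2' q hq1 (by rw [← hL]; exact hq2) (by rw [← hL]; exact hNq) x
        (by rw [← hL]; exact hxb) hx2
      rw [← hL] at e1
      have e2 : 0 ≤ 4 * (x * L) := by positivity
      linarith
    · have hs : (q : ℤ) - v i ∈ Ss := by
        rw [hSs, mem_Icc]
        constructor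
        · have e2 : (-((q : ℤ) - v i) : ℤ) ≤ ⌊L ^ W⌋ := by
            apply Int.le_floor.2
            push_cast
            linarith [habs.1]
          omega
        · apply Int.le_floor.2
          push_cast
          linarith [habs.2]
      have k3' := k3 _ hs
      rw [hEx, mem_filter] at k3'
      push Not at k3'
      have e0 : v i + ((q : ℤ) - v i) = q := by ring
      rw [e0] at k3'
      have e1 : (N' : ℝ) ≤ q * Real.log N' ^ κ' := by
        rw [← hl]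
        calc (N' : ℝ) = (B + 1) * N := by rw [hN']; push_cast; ring
          _ ≤ L * (q * L ^ κ) := by
              apply mul_le_mul _ hNq (by positivity) hL0.le
              have : 0 ≤ 3 * (2 * (h : ℝ) + 1) := by positivity
              linarith
          _ = q * L ^ (κ + 1) := by ring
          _ ≤ q * l ^ κ' := by
              apply mul_le_mul_of_nonneg_left _ hq0.le
              exact (pow_le_pow_left₀ hL0.le hLl _).trans (pow_le_pow_right₀ (by linarith) (by omega))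
      have e2 := k3' (mem_univ _) (by exact_mod_cast hq1) (by exact_mod_cast e1)
      rw [Int.toNat_natCast] at e2
      have e3 := e2 x hx1 (by
        rw [← hl]
        refine hxb.le.trans (mul_le_mul_of_nonneg_left ?_ hq0.le)
        exact (pow_le_pow_left₀ hL0.le hLl _).trans (pow_le_pow_right₀ (by linarith) (by omega)))
      have e4 : Pool.Agent.Results.MP_5d318d_nt.ThinFamilyModuli.G x q = G x q := rfl
      rw [e4, one_mul] at e3
      have e5 := (abs_le.1 e3).2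
      have e6 : Real.log q ≤ 2 * L := by
        refine le_trans ?_ hl2
        rw [hl]
        apply Real.log_le_log hq0
        have : (q : ℝ) ≤ N' := by
          have e7 : (v i : ℝ) ≤ B * N := by
            have := (le_abs_self (v i)).trans (hv i)
            exact_mod_cast this
          rw [hN']
          push_cast
          linarith [habs.2]
        exact this
      have e7 : x * Real.log q ≤ x * (2 * L) := mul_le_mul_of_nonneg_left e6 hx0.le
      have e8 : 0 ≤ x ^ 2 / (q * L ^ A) := by positivity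
      linarith
  have hb : ((Ss.biUnion Ex).card : ℝ) ≤ Fintype.card ι / L ^ (U + 2) := by
    calc ((Ss.biUnion Ex).card : ℝ) ≤ ∑ s ∈ Ss, ((Ex s).card : ℝ) := by exact_mod_cast card_biUnion_le
      _ ≤ ∑ _s ∈ Ss, (Fintype.card ι / L ^ (U + W + 3) : ℝ) := sum_le_sum hExc
      _ = Ss.card * (Fintype.card ι / L ^ (U + W + 3)) := by rw [sum_const, nsmul_eq_mul]
      _ ≤ L ^ (W + 1) * (Fintype.card ι / L ^ (U + W + 3)) := mul_le_mul_of_nonneg_right hScard (by positivity)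
      _ = Fintype.card ι / L ^ (U + 2) := by
          rw [show U + W + 3 = (U + 2) + (W + 1) by ring, pow_add L (U + 2)]
          field_simp
  have hu : (Fintype.card ι : ℝ) / L ^ (U + 2) ≤ Fintype.card ι / L ^ (U + 1) := by
    apply div_le_div_of_nonneg_left hcr.le (by positivity)
    exact pow_le_pow_right₀ hL1 (by omega)
  calc ((univ.filter (fun i => ¬ GoodV A K W κ N (v i))).card : ℝ) ≤ (S₀.card : ℝ) +
        (((univ.filter (fun i => ¬ GoodM (Pc B₁ 1 (A + (κ + 1) + 2)) (A + 5) (K + 1) W N (v i))).card : ℝ) +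
          ((Ss.biUnion Ex).card : ℝ)) := by
        have e1 := (card_le_card hsub).trans ((card_union_le _ _).trans (Nat.add_le_add_left (card_union_le _ _) _))
        exact_mod_cast e1
    _ ≤ Fintype.card ι / L ^ (U + 1) + (Fintype.card ι / L ^ (U + 1) + Fintype.card ι / L ^ (U + 1)) := by
        apply add_le_add hS₀c
        exact add_le_add (c1.trans hu) (hb.trans hu)
    _ = Fintype.card ι / L ^ U * (3 / L) := by
        rw [pow_succ]
        field_simp
        ring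
    _ ≤ Fintype.card ι / L ^ U * 1 := by
        apply mul_le_mul_of_nonneg_left _ (by positivity)
        rw [div_le_one hL0]
        linarith
    _ = _ := mul_one _

end Pool.Agent.T9h51.PE
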